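import Pool.Agent.W832.HR.Tight

set_option autoImplicit false

/-! Width of the crossings of strips, up to a logarithm, at all scales. -/

namespace Pool.Agent.W832.HR

open H978R2.Hex Pool.Agent.W818.TD
open scoped ENNReal

theorem exp_half : Real.exp (1 / 2) ≤ 5 / 3 := by
  have h1 : Real.exp (1 / 2) * Real.exp (1 / 2) = Real.exp 1 := by
    rw [← Real.exp_add]
    norm_num
  have h2 := Real.exp_one_lt_d9
  have h3 := Real.exp_pos (1 / 2)
  nlinarith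

/-- `T ^ k ≤ b ^ m` as soon as `2 k log T ≤ m` -/
theorem pow_big {T k m : ℕ} (hT : 1 ≤ T) {b : ℝ} (hb : 5 / 3 ≤ b)
    (h : 2 * (k : ℝ) * Real.log T ≤ m) : (T : ℝ) ^ k ≤ b ^ m := by
  have hT' : (0 : ℝ) < T := by exact_mod_cast hT
  have h1 : (T : ℝ) ^ k = Real.exp (k * Real.log T) := by
    rw [Real.exp_nat_mul, Real.exp_log hT']
  have h2 : Real.exp ((m : ℝ) * (1 / 2)) ≤ b ^ m := by
    rw [Real.exp_nat_mul]
    exact pow_le_pow_left₀ (Real.exp_pos _).le (exp_half.trans hb) m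
  rw [h1]
  refine le_trans (Real.exp_le_exp.2 ?_) h2
  linarith

theorem log_ge {T : ℕ} (hT : 2 ≤ T) : 1 / 2 ≤ Real.log T := by
  have h1 : Real.log 2 ≤ Real.log T := Real.log_le_log (by norm_num) (by exact_mod_cast hT)
  have h2 := Real.log_two_gt_d9
  linarith

/-- **all scales** -/
theorem all_scales {T s : ℕ} (hT : 2 ≤ T) (hs : 1 ≤ s) :
    (ma (Cr T (BadL (1 / (256 * s * Real.log T)) (256 * s * Real.log T) T))).toReal ≤
      1 / (T : ℝ) ^ s * Br T := by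
  have hT1 : 1 ≤ T := by omega
  have hlog := log_ge hT
  have hs' : (1 : ℝ) ≤ s := by exact_mod_cast hs
  have hsl : (1 / 2 : ℝ) ≤ s * Real.log T := by nlinarith
  set N : ℕ := ⌈2 * ((s + 6 : ℕ) : ℝ) * Real.log T⌉₊ with hN
  set m : ℕ := ⌈2 * ((s + 7 : ℕ) : ℝ) * Real.log T⌉₊ with hm
  have hN1 : 2 * ((s + 6 : ℕ) : ℝ) * Real.log T ≤ N := Nat.le_ceil _
  have hm1 : 2 * ((s + 7 : ℕ) : ℝ) * Real.log T ≤ m := Nat.le_ceil _
  have hN2 : (N : ℝ) < 2 * ((s + 6 : ℕ) : ℝ) * Real.log T + 1 := Nat.ceil_lt_add_one (by positivity)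
  have hm2 : (m : ℝ) < 2 * ((s + 7 : ℕ) : ℝ) * Real.log T + 1 := Nat.ceil_lt_add_one (by positivity)
  have hl7 : Real.log T ≤ s * Real.log T := by nlinarith
  have hN3 : (N : ℝ) ≤ 16 * (s * Real.log T) := by
    push_cast at hN2
    nlinarith
  have hm3 : (m : ℝ) + 1 ≤ 20 * (s * Real.log T) := by
    push_cast at hm2
    nlinarith
  have hNpos : 1 ≤ N := by
    have : 0 < (N : ℝ) := lt_of_lt_of_le (by positivity) hN1
    exact_mod_cast this
  have hNr : (1 : ℝ) ≤ N := by exact_mod_cast hNpos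
  have hsub : Cr T (BadL (1 / (256 * s * Real.log T)) (256 * s * Real.log T) T) ⊆
      Cr T (BadL (1 / (16 * (N : ℝ))) (8 * ((m : ℝ) + 1)) T) := by
    apply Cr_sub
    · apply one_div_le_one_div_of_le (by positivity)
      linarith
    · linarith
  have h3 := (ENNReal.toReal_mono (Cr_ne_top hT1 _) (ma_mono hsub)).trans (bad_le m hT1 hNpos)
  refine h3.trans ?_
  have hTr : (2 : ℝ) ≤ T := by exact_mod_cast hT
  have hTp : (0 : ℝ) < T := by linarith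
  have p1 := pow_big (k := s + 6) (m := N) hT1 (b := 2) (by norm_num) hN1
  have p2 := pow_big (k := s + 7) (m := m) hT1 (b := 5 / 3) le_rfl hm1
  have q5 : (32 : ℝ) ≤ (T : ℝ) ^ 5 := by
    calc (32 : ℝ) = 2 ^ 5 := by norm_num
      _ ≤ (T : ℝ) ^ 5 := pow_le_pow_left₀ (by norm_num) hTr 5
  have q6 : (64 : ℝ) ≤ (T : ℝ) ^ 6 := by
    calc (64 : ℝ) = 2 ^ 6 := by norm_num
      _ ≤ (T : ℝ) ^ 6 := pow_le_pow_left₀ (by norm_num) hTr 6
  have hTs : (0 : ℝ) < (T : ℝ) ^ s := by positivity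
  have hBr := Br_ge hT1
  have hB2 : Br (T / 2) ≤ 1 := Br_le_one (by omega)
  have hQ := Qr_le hT1
  have e1 : 4 * (1 / 2 : ℝ) ^ N * Br (T / 2) ≤ 1 / 2 * (1 / (T : ℝ) ^ s) * (1 / (4 * T)) := by
    have c1 : 4 * (1 / 2 : ℝ) ^ N * Br (T / 2) ≤ 4 * (1 / 2 : ℝ) ^ N :=
      mul_le_of_le_one_right (by positivity) hB2
    refine c1.trans ?_
    have c2 : (1 / 2 : ℝ) ^ N = 1 / 2 ^ N := by
      rw [div_pow, one_pow]
    rw [c2]
    have c3 : 1 / 2 * (1 / (T : ℝ) ^ s) * (1 / (4 * T)) = 1 / (8 * (T * (T : ℝ) ^ s)) := by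
      field_simp
      ring
    have c4 : 4 * (1 / (2 : ℝ) ^ N) = 1 / ((2 : ℝ) ^ N / 4) := by
      field_simp
    rw [c3, c4]
    apply one_div_le_one_div_of_le (by positivity)
    have c5 : (T : ℝ) ^ (s + 6) = (T : ℝ) ^ 5 * (T * (T : ℝ) ^ s) := by ring
    rw [c5] at p1
    have c6 : 32 * (T * (T : ℝ) ^ s) ≤ (T : ℝ) ^ 5 * (T * (T : ℝ) ^ s) :=
      mul_le_mul_of_nonneg_right q5 (by positivity)
    linarith
  have e2 : 11 * (3 / 5 : ℝ) ^ m * Qr T ≤ 1 / 2 * (1 / (T : ℝ) ^ s) * (1 / (4 * T)) := by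
    have c1 : 11 * (3 / 5 : ℝ) ^ m * Qr T ≤ 11 * (3 / 5 : ℝ) ^ m * (1 / 2) :=
      mul_le_mul_of_nonneg_left hQ (by positivity)
    refine c1.trans ?_
    have c2 : (3 / 5 : ℝ) ^ m = 1 / (5 / 3) ^ m := by
      rw [one_div, ← inv_pow]
      norm_num
    rw [c2]
    have c3 : 1 / 2 * (1 / (T : ℝ) ^ s) * (1 / (4 * T)) = 1 / (8 * (T * (T : ℝ) ^ s)) := by
      field_simp
      ring
    have c4 : 11 * (1 / (5 / 3 : ℝ) ^ m) * (1 / 2) = 1 / ((5 / 3 : ℝ) ^ m / (11 / 2)) := by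
      field_simp
      try ring
    rw [c3, c4]
    apply one_div_le_one_div_of_le (by positivity)
    have c5 : (T : ℝ) ^ (s + 7) = (T : ℝ) ^ 6 * (T * (T : ℝ) ^ s) := by ring
    rw [c5] at p2
    have c6 : 64 * (T * (T : ℝ) ^ s) ≤ (T : ℝ) ^ 6 * (T * (T : ℝ) ^ s) :=
      mul_le_mul_of_nonneg_right q6 (by positivity)
    rw [le_div_iff₀ (by norm_num)]
    have c7 : 0 < T * (T : ℝ) ^ s := by positivity
    linarith
  have e3 : 1 / (T : ℝ) ^ s * (1 / (4 * T)) ≤ 1 / (T : ℝ) ^ s * Br T :=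
    mul_le_mul_of_nonneg_left hBr (by positivity)
  linarith

end Pool.Agent.W832.HR
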