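import Pool.Agent.W832.HR.Sym
import Pool.Agent.W818.TD.Cover

set_option autoImplicit false

/-! Arcs of the half-plane, reversal. -/

namespace Pool.Agent.W832.HR

open H978R2.Hex Pool.Agent.W818.TD MeasureTheory Filter Topology
open scoped ENNReal

section meas

local instance instMS2 : MeasurableSpace (List V) := instMS

theorem ma_biUnion_le {ι : Type*} (s : Finset ι) (A : ι → Set (List V)) :
    ma (⋃ i ∈ s, A i) ≤ ∑ i ∈ s, ma (A i) := by
  rw [← cm_apply]
  simp only [← cm_apply]
  exact measure_biUnion_finset_le s A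

theorem ma_biUnion {ι : Type*} (s : Finset ι) (A : ι → Set (List V))
    (h : (s : Set ι).PairwiseDisjoint A) : ma (⋃ i ∈ s, A i) = ∑ i ∈ s, ma (A i) := by
  rw [← cm_apply]
  simp only [← cm_apply]
  exact measure_biUnion_finset h (fun i _ => ms_any _)

end meas

/-- the half-plane -/
def Hp (v : V) : Prop := 1 ≤ v.1 - v.2

/-- walks in `D` which end (outside `D`) at `(j, j)` -/
def Aj (D : V → Prop) (j : ℤ) : Set (List V) := {w | Val D w ∧ w.headD (0, 0) = (j, j)}

/-- arcs of the half-plane with the property `p` -/
def HA (p : List V → Prop) : Set (List V) := {w | w ∈ LW Hp ∧ p w}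

/-- arcs of the strip with the property `p` -/
def TA (T : ℕ) (p : List V → Prop) : Set (List V) :=
  {w | Val (Dm T .no .no) w ∧ ¬ Hp (w.headD (0, 0)) ∧ p w}

theorem Dm_Hp {T : ℕ} {u l : Wall} {v : V} (h : Dm T u l v) : Hp v := h.1

theorem Dm_mono {T T' : ℕ} (h : T ≤ T') {u l : Wall} {v : V} (hv : Dm T u l v) : Dm T' u l v := by
  have h1 : (T : ℤ) ≤ T' := by exact_mod_cast h
  refine ⟨hv.1, ?_, hv.2.2⟩
  have := hv.2.1
  omega

theorem TA_sub_LW {T : ℕ} {p : List V → Prop} : TA T p ⊆ LW (Dm T .no .no) := by
  rintro w ⟨h1, h2, _⟩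
  exact ⟨h1, fun h => h2 (Dm_Hp h)⟩

theorem HA_tend (p : List V → Prop) :
    Tendsto (fun T => ma (TA T p)) atTop (𝓝 (ma (HA p))) := by
  have hm : Monotone (fun T => TA T p) := by
    intro T T' h w hw
    exact ⟨Val_mono (fun v hv => Dm_mono h hv) hw.1, hw.2⟩
  have h1 := ma_tendsto hm
  have e : (⋃ n, TA n p) = HA p := by
    ext w
    simp only [Set.mem_iUnion]
    constructor
    · rintro ⟨n, h1, h2, h3⟩
      exact ⟨⟨Val_mono (fun v hv => Dm_Hp hv) h1, h2⟩, h3⟩
    · rintro ⟨⟨h1, h2⟩, h3⟩
      obtain ⟨n, hn⟩ := exists_common (On := fun n => Dm n .no .no)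
        (fun n v hv => Dm_mono (Nat.le_succ n) hv) w.tail.dropLast (by
          intro v hv
          have h4 : 1 ≤ v.1 - v.2 := (Val_tail h1).2 v hv
          refine ⟨(v.1 - v.2).toNat, h4, ?_, trivial, trivial⟩
          omega)
      exact ⟨n, Val_dom' h1 hn, h2, h3⟩
  rw [e] at h1
  exact h1

theorem HA_le (p : List V → Prop) : ma (HA p) ≤ ENNReal.ofReal (1 / c3) := by
  refine le_of_tendsto (HA_tend p) (eventually_atTop.2 ⟨1, fun T hT => ?_⟩)
  exact (ma_mono TA_sub_LW).trans (idn hT .no .no).fi

theorem HA_ne_top (p : List V → Prop) : ma (HA p) ≠ ⊤ :=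
  ((HA_le p).trans_lt ENNReal.ofReal_lt_top).ne

/-! ### reversal -/

theorem adj_add {c p q : V} (hc : (c.1 + c.2) % 2 = 0) (h : Adj p q) : Adj (p + c) (q + c) := by
  rw [adj_iff] at *
  simp only [Prod.fst_add, Prod.snd_add]
  omega

/-- translated reversal -/
def rv (c : V) (w : List V) : List V := (w.map (fun v => v + c)).reverse

theorem rv_inj {c : V} {A : Set (List V)} : Set.InjOn (rv c) A := by
  intro a _ b _ h
  unfold rv at h
  exact List.map_injective_iff.2 (fun _ _ e => add_right_cancel e) (List.reverse_injective h)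

theorem mem_mid {c : V} {w : List V} {v : V} (h : v ∈ (rv c w).tail.dropLast) :
    v - c ∈ w.tail.dropLast := by
  unfold rv at h
  rw [List.tail_reverse, List.dropLast_reverse, List.mem_reverse, List.tail_dropLast,
    ← List.map_tail, ← List.map_dropLast, List.mem_map] at h
  obtain ⟨a, ha, rfl⟩ := h
  simpa using ha

theorem rev_mem {D D' : V → Prop} (hD : ∀ v, D v → Hp v) {j : ℤ} (hj : j ≠ 0)
    (hDD : ∀ v, D v → D' (v + (j, j))) {w : List V} (hw : w ∈ Aj D (-j)) :
    rv (j, j) w ∈ Aj D' j := by
  obtain ⟨hv, hh⟩ := hw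
  obtain ⟨i1, i2, i3, M, i4⟩ := Val_chain hv
  match M, i4 with
  | [], i4 =>
    rw [i4] at hh
    simp only [List.nil_append, List.headD_cons, Prod.mk.injEq] at hh
    omega
  | z :: M', i4 =>
    have hz : z = (-j, -j) := by
      rw [i4] at hh
      simpa using hh
    -- the second vertex
    obtain ⟨y, t, hyt⟩ : ∃ y t, M' ++ [((1, 0) : V), (0, 0)] = y :: t := by
      match M' with
      | [] => exact ⟨_, _, rfl⟩
      | a :: M'' => exact ⟨_, _, rfl⟩
    have hw2 : w = z :: y :: t := by rw [i4, List.cons_append, hyt]
    have htne : t ≠ [] := by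
      rintro rfl
      have := congrArg List.length hyt
      simp at this
    have hyD : D y := by
      apply i3
      rw [hw2, List.tail_cons, List.dropLast_cons_of_ne_nil htne]
      exact List.mem_cons_self
    have hady : Adj y z := by
      rw [hw2] at i1
      exact (List.isChain_cons_cons.1 i1).1
    have hy : y + (j, j) = (1, 0) := by
      have h1 : Hp y := hD y hyD
      unfold Hp at h1
      rw [adj_iff, hz] at hady
      simp only at hady
      apply Prod.ext
      · simp only [Prod.fst_add]; omega
      · simp only [Prod.snd_add]; omega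
    have hz0 : z + (j, j) = (0, 0) := by
      rw [hz]
      simp
    have hlast : (0, 0) ∈ w := by rw [i4]; simp
    constructor
    · apply Val_of
      · unfold rv
        rw [List.isChain_reverse, List.isChain_map]
        refine i1.imp fun {a b} hab => ?_
        have := adj_add (c := (j, j)) (by simp only; omega) hab
        exact adj_symm this
      · unfold rv
        rw [List.nodup_reverse]
        refine List.Nodup.map (fun a b hab => add_right_cancel hab) ?_
        rw [hw2, List.nodup_cons]
        refine ⟨?_, ?_⟩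
        · intro hm
          rw [← hyt] at hm
          have h2 : z ∈ M' ++ [(1, 0)] ∨ z = (0, 0) := by
            have : M' ++ [((1, 0) : V), (0, 0)] = (M' ++ [(1, 0)]) ++ [(0, 0)] := by simp
            rw [this, List.mem_append, List.mem_singleton] at hm
            exact hm
          rcases h2 with h2 | h2
          · have h3 : D z := by
              apply i3
              rw [i4, List.cons_append, List.tail_cons]
              have : M' ++ [((1, 0) : V), (0, 0)] = (M' ++ [(1, 0)]) ++ [(0, 0)] := by simp
              rw [this, List.dropLast_concat]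
              exact h2
            have h4 := hD z h3
            rw [hz] at h4
            unfold Hp at h4
            simp only at h4
            omega
          · rw [hz] at h2
            simp only [Prod.mk.injEq] at h2
            omega
        · rw [hw2, List.tail_cons] at i2
          exact i2
      · intro v hv'
        have h1 := mem_mid hv'
        have h2 := hDD _ (i3 _ h1)
        simpa using h2
      · refine ⟨(t.map (fun v => v + ((j, j) : V))).reverse, ?_⟩
        unfold rv
        rw [hw2]
        simp only [List.map_cons, List.reverse_cons, List.append_assoc, List.cons_append,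
          List.nil_append, hy, hz0]
    · unfold rv
      rw [i4]
      have : (z :: M' ++ [((1, 0) : V), (0, 0)]) = (z :: M' ++ [(1, 0)]) ++ [(0, 0)] := by simp
      rw [this, List.map_append, List.reverse_append]
      simp

theorem rev_le {T : ℕ} {n i : ℕ} (hi : i < n) :
    ma (Aj (Dm T (.I (n - 1 - i)) .no) (-((i : ℤ) + 1))) ≤
      ma (Aj (Dm T (.I n) .no) ((i : ℤ) + 1)) := by
  apply ma_le_of_inj (rv ((i : ℤ) + 1, (i : ℤ) + 1)) rv_inj
  · intro w hw
    refine rev_mem (D := Dm T (.I (n - 1 - i)) .no) (fun v hv => hv.1) (by omega) ?_ hw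
    rintro v ⟨a1, a2, a3, a4⟩
    simp only [Up] at a3
    refine ⟨?_, ?_, ?_, trivial⟩
    · simp only [Prod.fst_add, Prod.snd_add]; omega
    · simp only [Prod.fst_add, Prod.snd_add]; omega
    · simp only [Up, Prod.fst_add, Prod.snd_add]
      omega
  · intro w _
    unfold rv
    simp

end Pool.Agent.W832.HR
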