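import Pool.Agent.W832.HR.Iden

set_option autoImplicit false

/-! Contraction: the deficit of a strip with a wall decays geometrically in the distance of the
wall. -/

namespace Pool.Agent.W832.HR

open H978R2.Hex Pool.Agent.W818.TD
open scoped ENNReal

theorem c3_eq : c3 = Real.sin (Real.pi / 8) := by
  unfold c3
  rw [← Real.sin_pi_div_two_sub]
  congr 1
  ring

theorem cos4 : Real.cos (Real.pi / 4) = Real.sqrt 2 / 2 := Real.cos_pi_div_four
theorem sin4 : Real.sin (Real.pi / 4) = Real.sqrt 2 / 2 := Real.sin_pi_div_four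

theorem s8sq : Real.sin (Real.pi / 8) * Real.sin (Real.pi / 8) = (2 - Real.sqrt 2) / 4 := by
  have := sin8_sq
  rw [sq] at this
  exact this

theorem c8sq : Real.cos (Real.pi / 8) * Real.cos (Real.pi / 8) = (2 + Real.sqrt 2) / 4 := by
  have h := Real.sin_sq_add_cos_sq (Real.pi / 8)
  have h2 := s8sq
  nlinarith

theorem s8c8 : Real.sin (Real.pi / 8) * Real.cos (Real.pi / 8) = Real.sqrt 2 / 4 := by
  have h := Real.sin_two_mul (Real.pi / 8)
  have e : 2 * (Real.pi / 8) = Real.pi / 4 := by ring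
  rw [e, sin4] at h
  linarith

theorem c8_pos : 0 < Real.cos (Real.pi / 8) := by
  have hpi := Real.pi_pos
  apply Real.cos_pos_of_mem_Ioo
  constructor <;> linarith

theorem LK_mono {T T' : ℕ} (hT : 1 ≤ T) {u u' l l' : Wall}
    (h : ∀ v, Dm T u l v → Dm T' u' l' v) {k : ℤ} (hk : k = 3 ∨ k = -3 ∨ (k = 0 ∧ T = T')) :
    LK (Dm T u l) k ⊆ LK (Dm T' u' l') k := by
  rintro w ⟨hw, hwk⟩
  refine ⟨⟨Val_mono h hw.1, ?_⟩, hwk⟩
  intro hD
  have h1 := hD.1
  have h2 := hD.2.1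
  have hku : ∀ x : Wall, x ≠ .no → ku x = 1 ∨ ku x = 2 := by
    intro x hx
    match x, hx with
    | .I n, _ => left; rfl
    | .O n, _ => right; rfl
  rcases LW_cls hT hw with a | a | a | a | a
  · omega
  · omega
  · rcases hk with hk | hk | ⟨hk, hTT⟩
    · omega
    · omega
    · subst hTT
      omega
  · have := hku u a.2.2.2.1
    omega
  · have := hku l a.2.2.2.1
    omega

theorem mq_mono {T T' : ℕ} (hT : 1 ≤ T) (hT' : 1 ≤ T') {u u' l l' : Wall}
    (h : ∀ v, Dm T u l v → Dm T' u' l' v) {k : ℤ} (hk : k = 3 ∨ k = -3 ∨ (k = 0 ∧ T = T')) :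
    mq (Dm T u l) k ≤ mq (Dm T' u' l') k := by
  unfold mq
  exact ENNReal.toReal_mono ((idn hT' u' l').ne_top LK_sub) (ma_mono (LK_mono hT h hk))

/-- mass of the arcs to the right (or to the left) in the strip -/
noncomputable def Ar (T : ℕ) : ℝ := mq (Dm T .no .no) 3

/-- mass of the bridges of the strip -/
noncomputable def Br (T : ℕ) : ℝ := mq (Dm T .no .no) 0

theorem Br_nonneg (T : ℕ) : 0 ≤ Br T := mq_nonneg _ _
theorem Ar_nonneg (T : ℕ) : 0 ≤ Ar T := mq_nonneg _ _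

theorem strip_id {T : ℕ} (hT : 1 ≤ T) : mq (Dm T .no .no) (-3) = Ar T ∧
    2 * c3 * Ar T + Br T = 1 := by
  obtain ⟨h1, h2⟩ := (idn hT .no .no).re_im
  have z1 : mq (Dm T .no .no) 1 = 0 :=
    mq_zero hT (by norm_num) (by norm_num) (by norm_num) (by simp) (by simp)
  have z2 : mq (Dm T .no .no) 2 = 0 :=
    mq_zero hT (by norm_num) (by norm_num) (by norm_num) (by simp) (by simp)
  have z3 : mq (Dm T .no .no) (-1) = 0 :=
    mq_zero hT (by norm_num) (by norm_num) (by norm_num) (by simp) (by simp)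
  have z4 : mq (Dm T .no .no) (-2) = 0 :=
    mq_zero hT (by norm_num) (by norm_num) (by norm_num) (by simp) (by simp)
  rw [z1, z2, z3, z4] at h1 h2
  have h3 : mq (Dm T .no .no) 3 - mq (Dm T .no .no) (-3) = 0 := by
    have h4 : Real.cos (Real.pi / 8) * (mq (Dm T .no .no) 3 - mq (Dm T .no .no) (-3)) = 0 := by
      linarith
    exact (mul_eq_zero.1 h4).resolve_left c8_pos.ne'
  have h5 : mq (Dm T .no .no) (-3) = Ar T := by
    unfold Ar
    linarith
  refine ⟨h5, ?_⟩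
  rw [h5] at h1
  unfold Ar at *
  unfold Br
  linarith

/-- deficits -/
noncomputable def rh (T : ℕ) (u : Wall) : ℝ := Ar T - mq (Dm T u .no) 3
noncomputable def al (T : ℕ) (u : Wall) : ℝ := Ar T - mq (Dm T u .no) (-3)
noncomputable def th (T : ℕ) (u : Wall) : ℝ := Br T - mq (Dm T u .no) 0

theorem id_I {T : ℕ} (hT : 1 ≤ T) (n : ℕ) :
    Real.sin (Real.pi / 8) * th T (.I n) = Real.sqrt 2 / 2 * rh T (.I n) - al T (.I n) ∧
    Real.sin (Real.pi / 8) * mq (Dm T (.I n) .no) 1 =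
      Real.cos (Real.pi / 8) * (rh T (.I n) - al T (.I n)) := by
  obtain ⟨h1, h2⟩ := (idn hT (.I n) .no).re_im
  obtain ⟨h3, h4⟩ := strip_id hT
  have z2 : mq (Dm T (.I n) .no) 2 = 0 :=
    mq_zero hT (by norm_num) (by norm_num) (by norm_num) (by simp [ku]) (by simp)
  have z3 : mq (Dm T (.I n) .no) (-1) = 0 :=
    mq_zero hT (by norm_num) (by norm_num) (by norm_num) (by simp [ku]) (by simp)
  have z4 : mq (Dm T (.I n) .no) (-2) = 0 :=
    mq_zero hT (by norm_num) (by norm_num) (by norm_num) (by simp [ku]) (by simp)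
  rw [z2, z3, z4] at h1 h2
  rw [c3_eq] at h1 h4
  unfold th rh al
  have h5 := s8sq
  have h6 := c8sq
  set x3 := mq (Dm T (.I n) .no) 3
  set y3 := mq (Dm T (.I n) .no) (-3)
  set x0 := mq (Dm T (.I n) .no) 0
  set m := mq (Dm T (.I n) .no) 1
  set s := Real.sin (Real.pi / 8)
  set c := Real.cos (Real.pi / 8)
  have h7 : s * m = c * ((Ar T - x3) - (Ar T - y3)) := by linarith
  refine ⟨?_, h7⟩
  -- s * (B - x0) = s * (s (x3 + y3) + c m - 2 s A)
  have h8 : Br T - x0 = s * (x3 + y3) + c * m - 2 * s * Ar T := by linarith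
  rw [h8]
  have h9 : s * (s * (x3 + y3) + c * m - 2 * s * Ar T) =
      (s * s) * (x3 + y3 - 2 * Ar T) + c * (s * m) := by ring
  rw [h9, h7, h5]
  have h10 : c * (c * ((Ar T - x3) - (Ar T - y3))) = (c * c) * ((Ar T - x3) - (Ar T - y3)) := by
    ring
  rw [h10, h6]
  ring

theorem id_O {T : ℕ} (hT : 1 ≤ T) (n : ℕ) :
    Real.sin (Real.pi / 8) * th T (.O n) =
      (Real.sqrt 2 - 1) / 2 * rh T (.O n) - 1 / 2 * al T (.O n) := by
  obtain ⟨h1, h2⟩ := (idn hT (.O n) .no).re_im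
  obtain ⟨h3, h4⟩ := strip_id hT
  have z2 : mq (Dm T (.O n) .no) 1 = 0 :=
    mq_zero hT (by norm_num) (by norm_num) (by norm_num) (by simp [ku]) (by simp)
  have z3 : mq (Dm T (.O n) .no) (-1) = 0 :=
    mq_zero hT (by norm_num) (by norm_num) (by norm_num) (by simp [ku]) (by simp)
  have z4 : mq (Dm T (.O n) .no) (-2) = 0 :=
    mq_zero hT (by norm_num) (by norm_num) (by norm_num) (by simp [ku]) (by simp)
  rw [z2, z3, z4, cos4] at h1
  rw [z2, z3, z4, sin4] at h2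
  rw [c3_eq] at h1 h4
  unfold th rh al
  have h5 := s8sq
  have h6 := s8c8
  set x3 := mq (Dm T (.O n) .no) 3
  set y3 := mq (Dm T (.O n) .no) (-3)
  set x0 := mq (Dm T (.O n) .no) 0
  set m := mq (Dm T (.O n) .no) 2
  set s := Real.sin (Real.pi / 8)
  set c := Real.cos (Real.pi / 8)
  have h8 : Br T - x0 = s * (x3 + y3) + Real.sqrt 2 / 2 * m - 2 * s * Ar T := by linarith
  have h7 : Real.sqrt 2 / 2 * m = c * ((Ar T - x3) - (Ar T - y3)) := by linarith
  rw [h8, h7]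
  have h9 : s * (s * (x3 + y3) + c * ((Ar T - x3) - (Ar T - y3)) - 2 * s * Ar T) =
      (s * s) * (x3 + y3 - 2 * Ar T) + (s * c) * ((Ar T - x3) - (Ar T - y3)) := by ring
  rw [h9, h5, h6]
  ring

theorem th_nonneg {T : ℕ} (hT : 1 ≤ T) (u : Wall) : 0 ≤ th T u := by
  unfold th Br
  have := mq_mono hT hT (u := u) (u' := .no) (l := .no) (l' := .no) (k := 0)
    (fun v hv => ⟨hv.1, hv.2.1, trivial, hv.2.2.2⟩) (Or.inr (Or.inr ⟨rfl, rfl⟩))
  linarith

theorem al_nonneg {T : ℕ} (hT : 1 ≤ T) (u : Wall) : 0 ≤ al T u := by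
  unfold al
  rw [← (strip_id hT).1]
  have := mq_mono hT hT (u := u) (u' := .no) (l := .no) (l' := .no) (k := -3)
    (fun v hv => ⟨hv.1, hv.2.1, trivial, hv.2.2.2⟩) (Or.inr (Or.inl rfl))
  linarith

theorem rh_nonneg {T : ℕ} (hT : 1 ≤ T) (u : Wall) : 0 ≤ rh T u := by
  unfold rh Ar
  have := mq_mono hT hT (u := u) (u' := .no) (l := .no) (l' := .no) (k := 3)
    (fun v hv => ⟨hv.1, hv.2.1, trivial, hv.2.2.2⟩) (Or.inl rfl)
  linarith

theorem mono_wall {T : ℕ} (hT : 1 ≤ T) {u u' : Wall}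
    (h : ∀ v : V, 1 ≤ v.1 - v.2 → v.1 - v.2 ≤ 2 * (T : ℤ) → Up u v → Up u' v) :
    rh T u' ≤ rh T u ∧ al T u' ≤ al T u ∧ th T u' ≤ th T u := by
  have hs : ∀ v, Dm T u .no v → Dm T u' .no v :=
    fun v hv => ⟨hv.1, hv.2.1, h v hv.1 hv.2.1 hv.2.2.1, hv.2.2.2⟩
  have h1 := mq_mono hT hT hs (k := 3) (Or.inl rfl)
  have h2 := mq_mono hT hT hs (k := -3) (Or.inr (Or.inl rfl))
  have h3 := mq_mono hT hT hs (k := 0) (Or.inr (Or.inr ⟨rfl, rfl⟩))
  unfold rh al th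
  exact ⟨by linarith, by linarith, by linarith⟩

theorem I_le_O {T : ℕ} (hT : 1 ≤ T) (n : ℕ) :
    rh T (.O n) ≤ rh T (.I n) ∧ al T (.O n) ≤ al T (.I n) ∧ th T (.O n) ≤ th T (.I n) := by
  apply mono_wall hT
  intro v h1 h2 h3
  simp only [Up] at h3 ⊢
  omega

theorem O_le_I {T : ℕ} (hT : 1 ≤ T) (n : ℕ) :
    rh T (.I (n + T)) ≤ rh T (.O n) ∧ al T (.I (n + T)) ≤ al T (.O n) ∧
      th T (.I (n + T)) ≤ th T (.O n) := by
  apply mono_wall hT
  intro v h1 h2 h3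
  simp only [Up] at h3 ⊢
  push_cast
  omega

theorem I_mono {T : ℕ} (hT : 1 ≤ T) {n m : ℕ} (h : n ≤ m) :
    rh T (.I m) ≤ rh T (.I n) ∧ al T (.I m) ≤ al T (.I n) ∧ th T (.I m) ≤ th T (.I n) := by
  apply mono_wall hT
  intro v h1 h2 h3
  simp only [Up] at h3 ⊢
  omega

theorem sqrt2_gt : (7 / 5 : ℝ) < Real.sqrt 2 := by
  rw [Real.lt_sqrt (by norm_num)]
  norm_num

theorem sqrt2_lt : Real.sqrt 2 < (3 / 2 : ℝ) := by
  rw [Real.sqrt_lt' (by norm_num)]
  norm_num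

theorem al_le {T : ℕ} (hT : 1 ≤ T) (n : ℕ) : al T (.I n) ≤ 3 / 4 * rh T (.I n) := by
  have h1 := (id_I hT n).1
  have h2 := th_nonneg hT (.I n)
  have h3 := mul_nonneg sin8_pos.le h2
  have h4 := rh_nonneg hT (.I n)
  have h5 := sqrt2_lt
  nlinarith

/-- **contraction** -/
theorem contr {T : ℕ} (hT : 1 ≤ T) (n : ℕ) : rh T (.I (n + T)) ≤ 3 / 5 * rh T (.I n) := by
  obtain ⟨a1, a2, a3⟩ := O_le_I hT n
  obtain ⟨b1, b2, b3⟩ := I_le_O hT n
  have h1 := (id_I hT (n + T)).1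
  have h2 := id_O hT n
  have h3 := mul_nonneg sin8_pos.le (th_nonneg hT (.O n))
  have h4 := mul_le_mul_of_nonneg_left a3 sin8_pos.le
  have hs := sqrt2_gt
  have hs2 := s2sq
  have h5 := rh_nonneg hT (.O n)
  -- sqrt 2 / 2 * rh' ≤ (sqrt 2 - 1) rhO
  have h6 : Real.sqrt 2 / 2 * rh T (.I (n + T)) ≤ (Real.sqrt 2 - 1) * rh T (.O n) := by
    linarith
  have h7 : rh T (.I (n + T)) ≤ (2 - Real.sqrt 2) * rh T (.O n) := by
    have h8 : Real.sqrt 2 / 2 * rh T (.I (n + T)) ≤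
        Real.sqrt 2 / 2 * ((2 - Real.sqrt 2) * rh T (.O n)) := by
      have : Real.sqrt 2 / 2 * ((2 - Real.sqrt 2) * rh T (.O n)) =
          (Real.sqrt 2 - (Real.sqrt 2 * Real.sqrt 2) / 2) * rh T (.O n) := by ring
      rw [this, hs2]
      linarith
    exact le_of_mul_le_mul_left h8 (by linarith)
  nlinarith

/-- the iterated contraction -/
theorem contr_pow {T : ℕ} (hT : 1 ≤ T) (n m : ℕ) :
    rh T (.I (n + m * T)) ≤ (3 / 5) ^ m * rh T (.I n) := by
  induction m with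
  | zero => simp
  | succ m ih =>
    have h := contr hT (n + m * T)
    have e : n + (m + 1) * T = n + m * T + T := by ring
    rw [e]
    calc rh T (.I (n + m * T + T)) ≤ 3 / 5 * rh T (.I (n + m * T)) := h
      _ ≤ 3 / 5 * ((3 / 5) ^ m * rh T (.I n)) := by linarith
      _ = (3 / 5) ^ (m + 1) * rh T (.I n) := by ring

theorem Ar_le {T : ℕ} (hT : 1 ≤ T) : c3 * Ar T ≤ 1 / 2 := by
  have := (strip_id hT).2
  have := Br_nonneg T
  linarith

theorem Br_le_one {T : ℕ} (hT : 1 ≤ T) : Br T ≤ 1 := by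
  have h1 := (strip_id hT).2
  have h2 := mul_nonneg c3_pos.le (Ar_nonneg T)
  linarith

theorem Ar_mono {T T' : ℕ} (hT : 1 ≤ T) (h : T ≤ T') : Ar T ≤ Ar T' := by
  unfold Ar
  refine mq_mono hT (hT.trans h) ?_ (Or.inl rfl)
  rintro v ⟨h1, h2, h3, h4⟩
  refine ⟨h1, ?_, trivial, trivial⟩
  have : (T : ℤ) ≤ T' := by exact_mod_cast h
  omega

theorem Br_anti {T T' : ℕ} (hT : 1 ≤ T) (h : T ≤ T') : Br T' ≤ Br T := by
  have h1 := (strip_id hT).2
  have h2 := (strip_id (hT.trans h)).2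
  have h3 := mul_le_mul_of_nonneg_left (Ar_mono hT h) c3_pos.le
  linarith

theorem rh_le_Ar {T : ℕ} (u : Wall) : rh T u ≤ Ar T := by
  unfold rh
  have := mq_nonneg (Dm T u .no) 3
  linarith

/-- comparison of two strips -/
theorem rh_strip {T T' : ℕ} (hT : 1 ≤ T) (h : T ≤ T') (n : ℕ) :
    c3 * rh T' (.I n) ≤ c3 * rh T (.I n) + Br T / 2 := by
  have h1 := (strip_id hT).2
  have h2 := (strip_id (hT.trans h)).2
  have h3 := Br_nonneg T'
  have h4 : mq (Dm T (.I n) .no) 3 ≤ mq (Dm T' (.I n) .no) 3 := by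
    refine mq_mono hT (hT.trans h) ?_ (Or.inl rfl)
    rintro v ⟨h1, h2, h3, h4⟩
    refine ⟨h1, ?_, h3, trivial⟩
    have : (T : ℤ) ≤ T' := by exact_mod_cast h
    omega
  have h5 := mul_le_mul_of_nonneg_left h4 c3_pos.le
  unfold rh
  nlinarith

/-- the recursion -/
theorem rec_Q {T T' : ℕ} (hT : 1 ≤ T) (h : 6 * T ≤ T') :
    c3 * rh T' (.I T') ≤ 1 / 12 * (c3 * rh T (.I T)) + Br T / 2 := by
  have h1 := rh_strip hT (by omega : T ≤ T') T'
  have h2 := (I_mono hT (n := T + 5 * T) (m := T') (by omega)).1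
  have h3 := contr_pow hT T 5
  have h4 := rh_nonneg hT (.I T)
  have h5 : rh T (.I T') ≤ 1 / 12 * rh T (.I T) := by
    refine h2.trans (h3.trans ?_)
    apply mul_le_mul_of_nonneg_right _ h4
    norm_num
  have h6 := mul_le_mul_of_nonneg_left h5 c3_pos.le
  linarith

end Pool.Agent.W832.HR
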