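import Pool.Agent.W818.TD.Mass

set_option autoImplicit false

/-! Strips with walls in the honeycomb lattice and the winding of the walks leaving them. -/

namespace Pool.Agent.W832.HR

open H978R2.Hex Pool.Agent.W818.TD

/-- lateral walls: none, or at distance `n` in one of the two lattice directions -/
inductive Wall
  | no : Wall
  | I : ℕ → Wall
  | O : ℕ → Wall

/-- upper wall -/
def Up : Wall → V → Prop
  | .no, _ => True
  | .I n, v => v.1 + v.2 ≤ 2 * (n : ℤ) + 1
  | .O n, v => v.2 ≤ (n : ℤ)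

/-- lower wall -/
def Lo : Wall → V → Prop
  | .no, _ => True
  | .I n, v => -(n : ℤ) ≤ v.2
  | .O n, v => -(2 * (n : ℤ)) ≤ v.1 + v.2

/-- the strip of height `2 T` with an upper wall `u` and a lower wall `l` -/
def Dm (T : ℕ) (u l : Wall) (v : V) : Prop :=
  1 ≤ v.1 - v.2 ∧ v.1 - v.2 ≤ 2 * (T : ℤ) ∧ Up u v ∧ Lo l v

/-- winding index of an upper wall -/
def ku : Wall → ℤ
  | .no => 0
  | .I _ => 1
  | .O _ => 2

theorem base_Dm {T : ℕ} (hT : 1 ≤ T) (u l : Wall) : Dm T u l (1, 0) := by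
  refine ⟨by simp, by simp only; omega, ?_, ?_⟩
  · cases u <;> simp only [Up] <;> omega
  · cases l <;> simp only [Lo] <;> omega

/-- the exits at positive level -/
theorem exits {T : ℕ} {u l : Wall} {v z : V} (hv : Dm T u l v) (h : Adj v z) (hz : ¬ Dm T u l z)
    (hz1 : 1 ≤ z.1 - z.2) :
    (z.1 - z.2 = 2 * (T : ℤ) + 1 ∧ z.1 = v.1 + 1 ∧ (v.1 + v.2) % 2 = 0) ∨
    (¬ Up u z ∧ z.1 - z.2 ≤ 2 * (T : ℤ) ∧
      ((∃ n : ℕ, u = .I n ∧ z.1 + z.2 = 2 * (n : ℤ) + 2 ∧ z.1 = v.1 + 1 ∧ (v.1 + v.2) % 2 = 1) ∨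
       (∃ n : ℕ, u = .O n ∧ z.2 = (n : ℤ) + 1 ∧ z.2 = v.2 + 1))) ∨
    (¬ Lo l z ∧ z.1 - z.2 ≤ 2 * (T : ℤ) ∧
      ((∃ n : ℕ, l = .I n ∧ z.2 = -(n : ℤ) - 1 ∧ z.2 = v.2 - 1) ∨
       (∃ n : ℕ, l = .O n ∧ z.1 + z.2 = -(2 * (n : ℤ)) - 1 ∧ z.1 = v.1 - 1 ∧
        (v.1 + v.2) % 2 = 0))) := by
  rw [adj_iff] at h
  obtain ⟨a1, a2, a3, a4⟩ := hv
  by_cases ht : 2 * (T : ℤ) < z.1 - z.2
  · left
    omega
  · right
    have hor : ¬ Up u z ∨ ¬ Lo l z := by
      by_contra hc
      push Not at hc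
      exact hz ⟨hz1, by omega, hc.1, hc.2⟩
    rcases hor with hu | hl
    · left
      refine ⟨hu, by omega, ?_⟩
      match u, a3, hu with
      | .no, _, hu => exact absurd trivial hu
      | .I n, a3, hu =>
        left
        simp only [Up] at a3 hu
        exact ⟨n, rfl, by omega, by omega, by omega⟩
      | .O n, a3, hu =>
        right
        simp only [Up] at a3 hu
        exact ⟨n, rfl, by omega, by omega⟩
    · right
      refine ⟨hl, by omega, ?_⟩
      match l, a4, hl with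
      | .no, _, hl => exact absurd trivial hl
      | .I n, a4, hl =>
        left
        simp only [Lo] at a4 hl
        exact ⟨n, rfl, by omega, by omega⟩
      | .O n, a4, hl =>
        right
        simp only [Lo] at a4 hl
        exact ⟨n, rfl, by omega, by omega, by omega⟩

theorem good {T : ℕ} (hT : 1 ≤ T) (u l : Wall) : Good (Dm T u l) := by
  refine ⟨fun v hv => hv.1, base_Dm hT u l, ?_⟩
  intro v z hv h hz hz1
  rcases exits hv h hz hz1 with ⟨h1, h2, h3⟩ | ⟨h1, h2, h3⟩ | ⟨h1, h2, h3⟩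
  · left
    refine ⟨?_, by omega⟩
    intro w hw e
    have := hw.2.1
    omega
  · left
    rcases h3 with ⟨n, rfl, h4, h5, h6⟩ | ⟨n, rfl, h4, h5⟩
    · refine ⟨?_, by omega⟩
      intro w hw e
      have := hw.2.2.1
      simp only [Up] at this
      omega
    · refine ⟨?_, ?_⟩
      · intro w hw e
        have := hw.2.2.1
        simp only [Up] at this
        omega
      · rw [adj_iff] at h
        omega
  · right
    rcases h3 with ⟨n, rfl, h4, h5⟩ | ⟨n, rfl, h4, h5, h6⟩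
    · refine ⟨?_, by omega⟩
      intro w hw e
      have := hw.2.2.2
      simp only [Lo] at this
      omega
    · refine ⟨?_, ?_⟩
      · intro w hw e
        have := hw.2.2.2
        simp only [Lo] at this
        omega
      · rw [adj_iff] at h
        omega

/-- winding of the walks leaving the domain, according to the landing vertex -/
theorem cls {T : ℕ} (hT : 1 ≤ T) {u l : Wall} {z v : V} {K : List V}
    (D : LandD (Dm T u l) z v K) :
    (z.1 - z.2 = 0 ∧ 1 ≤ z.2 ∧ W (z :: v :: (K ++ [(0, 0)])) = 3) ∨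
    (z.1 - z.2 = 0 ∧ z.2 ≤ -1 ∧ W (z :: v :: (K ++ [(0, 0)])) = -3) ∨
    (z.1 - z.2 = 2 * (T : ℤ) + 1 ∧ W (z :: v :: (K ++ [(0, 0)])) = 0) ∨
    (¬ Up u z ∧ 1 ≤ z.1 - z.2 ∧ z.1 - z.2 ≤ 2 * (T : ℤ) ∧ u ≠ .no ∧
      W (z :: v :: (K ++ [(0, 0)])) = ku u) ∨
    (¬ Lo l z ∧ 1 ≤ z.1 - z.2 ∧ z.1 - z.2 ≤ 2 * (T : ℤ) ∧ l ≠ .no ∧
      W (z :: v :: (K ++ [(0, 0)])) = -ku l) := by
  have G := good hT u l
  have hOv := D.h5 v List.mem_cons_self
  have ha := D.h2
  rw [adj_iff] at ha
  rcases le_or_gt (z.1 - z.2) 0 with hz1 | hz1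
  · have hv1 := G.hp v hOv
    have hvne : ∀ (hz0 : z = (0, 0)), False := by
      intro hz0
      have hv : v = (1, 0) := by
        rw [hz0] at ha hz1
        simp only at ha hz1
        apply Prod.ext
        · simp only; omega
        · simp only; omega
      have hK : K ≠ [] := fun e => D.h7 e hz0
      have h6 := D.h6
      rw [List.getLast_cons hK] at h6
      have hmem : (1, 0) ∈ K := h6 ▸ List.getLast_mem hK
      have h4 := D.h4
      rw [List.nodup_cons] at h4
      apply h4.1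
      rw [hv]
      exact List.mem_append_left _ hmem
    have hrow : ∀ w, Dm T u l w → w.2 = z.2 → z.1 < w.1 := by
      intro w hw e
      have := G.hp w hw
      omega
    have e1 : v.1 - z.1 = 1 := by omega
    have e2 : z.2 = v.2 := by omega
    rcases lt_trichotomy z.2 0 with h | h | h
    · right; left
      exact ⟨by omega, by omega,
        (land_left_down G.hp.slit D e1 e2 (by omega) hrow).2 (by omega)⟩
    · exfalso
      apply hvne
      apply Prod.ext
      · simp only; omega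
      · simp only; omega
    · left
      exact ⟨by omega, by omega,
        (land_left_up G.hp.slit D e1 e2 (by omega) hrow).2 (by omega)⟩
  · right; right
    obtain ⟨a1, a2, a3, a4, a5, a6⟩ := wind_ge G D (by omega)
    rcases exits hOv D.h2 D.hz (by omega) with ⟨h1, h2, h3⟩ | ⟨h1, h2, h3⟩ | ⟨h1, h2, h3⟩
    · left
      exact ⟨h1, a1 h2 h3⟩
    · right; left
      rcases h3 with ⟨n, rfl, h4, h5, h6⟩ | ⟨n, rfl, h4, h5⟩
      · exact ⟨h1, by omega, h2, by simp, a2 h5 h6⟩
      · exact ⟨h1, by omega, h2, by simp, a3 h5⟩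
    · right; right
      rcases h3 with ⟨n, rfl, h4, h5⟩ | ⟨n, rfl, h4, h5, h6⟩
      · exact ⟨h1, by omega, h2, by simp, a4 h5⟩
      · exact ⟨h1, by omega, h2, by simp, a5 h5 h6⟩

end Pool.Agent.W832.HR
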