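import Pool.Agent.W832.HR.Flux

set_option autoImplicit false

/-! Upper bound for the truncated mean extent of the arcs. -/

namespace Pool.Agent.W832.HR

open H978R2.Hex Pool.Agent.W818.TD Filter Topology
open scoped ENNReal

/-- some vertex of the walk is at distance more than `r` from `(1, 0)` -/
def far (r : ℕ) (w : List V) : Prop :=
  ∃ v ∈ w.tail.dropLast, (r : ℤ) < |v.1 - 1| ∨ (r : ℤ) < |v.2|

/-- arcs of a strip with walls -/
def Ac (T : ℕ) (u l : Wall) : Set (List V) := {w | Val (Dm T u l) w ∧ ¬ Hp (w.headD (0, 0))}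

theorem Ac_sub {T : ℕ} {u l : Wall} : Ac T u l ⊆ LW (Dm T u l) := by
  rintro w ⟨h1, h2⟩
  exact ⟨h1, fun h => h2 (Dm_Hp h)⟩

theorem Ac_eq {T : ℕ} (hT : 1 ≤ T) (u l : Wall) :
    Ac T u l = LK (Dm T u l) 3 ∪ LK (Dm T u l) (-3) := by
  have hku : ∀ x : Wall, x ≠ .no → ku x = 1 ∨ ku x = 2 := by
    intro x hx
    match x, hx with
    | .I n, _ => left; rfl
    | .O n, _ => right; rfl
  ext w
  constructor
  · intro hw
    have hLW := Ac_sub hw
    have h2 := hw.2
    unfold Hp at h2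
    rcases LW_cls hT hLW with a | a | a | a | a
    · exact Or.inl ⟨hLW, a.2.2⟩
    · exact Or.inr ⟨hLW, a.2.2⟩
    · omega
    · omega
    · omega
  · rintro (⟨hw, hk⟩ | ⟨hw, hk⟩)
    · refine ⟨hw.1, ?_⟩
      unfold Hp
      rcases LW_cls hT hw with a | a | a | a | a
      · omega
      · omega
      · omega
      · have := hku u a.2.2.2.1
        omega
      · have := hku l a.2.2.2.1
        omega
    · refine ⟨hw.1, ?_⟩
      unfold Hp
      rcases LW_cls hT hw with a | a | a | a | a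
      · omega
      · omega
      · omega
      · have := hku u a.2.2.2.1
        omega
      · have := hku l a.2.2.2.1
        omega

theorem Ac_ne_top {T : ℕ} (hT : 1 ≤ T) (u l : Wall) : ma (Ac T u l) ≠ ⊤ :=
  (idn hT u l).ne_top Ac_sub

theorem Ac_ma {T : ℕ} (hT : 1 ≤ T) (u l : Wall) :
    (ma (Ac T u l)).toReal = mq (Dm T u l) 3 + mq (Dm T u l) (-3) := by
  rw [Ac_eq hT, ma_union]
  · rw [ENNReal.toReal_add ((idn hT u l).ne_top LK_sub) ((idn hT u l).ne_top LK_sub)]
    rfl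
  · rw [Set.disjoint_left]
    rintro w ⟨_, h1⟩ ⟨_, h2⟩
    omega

theorem Ac_sym {T : ℕ} (u l : Wall) : ma (Ac T u l) = ma (Ac T l u) := by
  have key : ∀ u l, ma (Ac T u l) ≤ ma (Ac T l u) := by
    intro u l
    apply ma_sg_le
    rintro w ⟨h1, h2⟩
    refine ⟨Val_sg (fun v hv => Dm_sg.1 hv) h1, ?_⟩
    rw [head_sg h1]
    unfold Hp at *
    rw [sg_lev]
    exact h2
  exact le_antisymm (key u l) (key l u)

theorem ma_diff {A B : Set (List V)} (h : B ⊆ A) (hA : ma A ≠ ⊤) :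
    (ma (A \ B)).toReal = (ma A).toReal - (ma B).toReal := by
  have h1 : ma A = ma (A \ B) + ma B := by
    rw [← ma_union Set.disjoint_sdiff_left, Set.sdiff_union_of_subset h]
  have hB : ma B ≠ ⊤ := ((ma_mono h).trans_lt (lt_top_iff_ne_top.2 hA)).ne
  have hAB : ma (A \ B) ≠ ⊤ :=
    ((ma_mono Set.sdiff_subset).trans_lt (lt_top_iff_ne_top.2 hA)).ne
  rw [h1, ENNReal.toReal_add hAB hB]
  ring

theorem far_sub {T T' r : ℕ} (hr : 8 * T ≤ r) :
    TA T' (far r) ⊆ (Ac T' .no .no \ Ac T .no .no) ∪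
      ((Ac T .no .no \ Ac T (.I (6 * T)) .no) ∪ (Ac T .no .no \ Ac T .no (.I (6 * T)))) := by
  rintro w ⟨h1, h2, h3⟩
  by_cases ha : Val (Dm T .no .no) w
  · right
    by_cases hb : Val (Dm T (.I (6 * T)) .no) w
    · by_cases hc : Val (Dm T .no (.I (6 * T))) w
      · exfalso
        obtain ⟨v, hv, h4⟩ := h3
        have b1 := (Val_tail hb).2 v hv
        have c1 := (Val_tail hc).2 v hv
        have e1 := b1.1
        have e2 := b1.2.1
        have e3 := b1.2.2.1
        have e4 := c1.2.2.2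
        simp only [Up, Lo] at e3 e4
        push_cast at e3 e4
        rw [lt_abs, lt_abs] at h4
        have hr' : 8 * (T : ℤ) ≤ r := by exact_mod_cast hr
        omega
      · right
        exact ⟨⟨ha, h2⟩, fun h => hc h.1⟩
    · left
      exact ⟨⟨ha, h2⟩, fun h => hb h.1⟩
  · left
    exact ⟨⟨h1, h2⟩, fun h => ha h.1⟩

/-- `c3` times the deficit at distance `T` in the strip of height `2 T` -/
noncomputable def Qr (T : ℕ) : ℝ := c3 * rh T (.I T)

theorem Qr_nonneg {T : ℕ} (hT : 1 ≤ T) : 0 ≤ Qr T := mul_nonneg c3_pos.le (rh_nonneg hT _)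

theorem Qr_le {T : ℕ} (hT : 1 ≤ T) : Qr T ≤ 1 / 2 :=
  (mul_le_mul_of_nonneg_left (rh_le_Ar _) c3_pos.le).trans (Ar_le hT)

theorem far_TA {T T' r : ℕ} (hT : 1 ≤ T) (hTT : T ≤ T') (hr : 8 * T ≤ r) :
    c3 * (ma (TA T' (far r))).toReal ≤ Br T + 273 / 1000 * Qr T := by
  have hT' : 1 ≤ T' := hT.trans hTT
  have h1 := (ma_mono (far_sub (T' := T') hr)).trans ((ma_union_le _ _).trans
    (add_le_add le_rfl (ma_union_le _ _)))
  have f1 : ma (Ac T' .no .no \ Ac T .no .no) ≠ ⊤ :=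
    ((ma_mono Set.sdiff_subset).trans_lt (lt_top_iff_ne_top.2 (Ac_ne_top hT' .no .no))).ne
  have f2 : ma (Ac T .no .no \ Ac T (.I (6 * T)) .no) ≠ ⊤ :=
    ((ma_mono Set.sdiff_subset).trans_lt (lt_top_iff_ne_top.2 (Ac_ne_top hT .no .no))).ne
  have f3 : ma (Ac T .no .no \ Ac T .no (.I (6 * T))) ≠ ⊤ :=
    ((ma_mono Set.sdiff_subset).trans_lt (lt_top_iff_ne_top.2 (Ac_ne_top hT .no .no))).ne
  have h2 := ENNReal.toReal_mono
    (ENNReal.add_ne_top.2 ⟨f1, ENNReal.add_ne_top.2 ⟨f2, f3⟩⟩) h1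
  rw [ENNReal.toReal_add f1 (ENNReal.add_ne_top.2 ⟨f2, f3⟩), ENNReal.toReal_add f2 f3] at h2
  have s1 : Ac T .no .no ⊆ Ac T' .no .no := fun w hw =>
    ⟨Val_mono (fun v hv => Dm_mono hTT hv) hw.1, hw.2⟩
  have s2 : Ac T (.I (6 * T)) .no ⊆ Ac T .no .no := fun w hw =>
    ⟨Val_mono (fun v hv => ⟨hv.1, hv.2.1, trivial, trivial⟩) hw.1, hw.2⟩
  have s3 : Ac T .no (.I (6 * T)) ⊆ Ac T .no .no := fun w hw =>
    ⟨Val_mono (fun v hv => ⟨hv.1, hv.2.1, trivial, trivial⟩) hw.1, hw.2⟩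
  rw [ma_diff s1 (Ac_ne_top hT' _ _), ma_diff s2 (Ac_ne_top hT _ _),
    ma_diff s3 (Ac_ne_top hT _ _), Ac_sym .no (.I (6 * T)), Ac_ma hT, Ac_ma hT', Ac_ma hT,
    (strip_id hT).1, (strip_id hT').1] at h2
  have g1 := (strip_id hT).2
  have g2 := (strip_id hT').2
  have g3 := Br_nonneg T'
  have e1 : mq (Dm T .no .no) 3 = Ar T := rfl
  have e2 : mq (Dm T' .no .no) 3 = Ar T' := rfl
  rw [e1, e2] at h2
  have h3 := al_le hT (6 * T)
  have h4 := contr_pow hT T 5
  have e3 : T + 5 * T = 6 * T := by ring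
  rw [e3] at h4
  have h5 := rh_nonneg hT (.I T)
  have h6 : 2 * (rh T (.I (6 * T)) + al T (.I (6 * T))) ≤ 273 / 1000 * rh T (.I T) := by
    have : (3 / 5 : ℝ) ^ 5 = 243 / 3125 := by norm_num
    rw [this] at h4
    linarith
  have h7 : (ma (TA T' (far r))).toReal ≤ 2 * Ar T' - 2 * Ar T + 273 / 1000 * rh T (.I T) := by
    simp only [rh, al] at h6 ⊢
    linarith
  have h8 := mul_le_mul_of_nonneg_left h7 c3_pos.le
  unfold Qr
  nlinarith

theorem far_HA {T r : ℕ} (hT : 1 ≤ T) (hr : 8 * T ≤ r) :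
    c3 * (ma (HA (far r))).toReal ≤ Br T + 273 / 1000 * Qr T := by
  have h1 := (ENNReal.tendsto_toReal (HA_ne_top (far r))).comp (HA_tend (far r))
  have h2 := h1.const_mul c3
  refine le_of_tendsto h2 (eventually_atTop.2 ⟨T, fun T' hT' => ?_⟩)
  exact far_TA hT hT' hr

theorem HA_le_real (p : List V → Prop) : c3 * (ma (HA p)).toReal ≤ 1 := by
  have h1 := ENNReal.toReal_mono ENNReal.ofReal_ne_top (HA_le p)
  rw [ENNReal.toReal_ofReal (by have := c3_pos; positivity)] at h1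
  have h2 := mul_le_mul_of_nonneg_left h1 c3_pos.le
  rwa [mul_one_div_cancel c3_pos.ne'] at h2

theorem sum_div (g : ℕ → ℝ) (k : ℕ) (m : ℕ) :
    ∑ r ∈ Finset.range (k * m), g (r / k) = k * ∑ T ∈ Finset.range m, g T := by
  rcases Nat.eq_zero_or_pos k with rfl | hk
  · simp
  induction m with
  | zero => simp
  | succ m ih =>
    rw [Nat.mul_succ, Finset.sum_range_add, ih, Finset.sum_range_succ, mul_add]
    congr 1
    have : ∀ i ∈ Finset.range k, g ((k * m + i) / k) = g m := by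
      intro i hi
      rw [Finset.mem_range] at hi
      rw [Nat.mul_add_div hk, Nat.div_eq_of_lt hi, add_zero]
    rw [Finset.sum_congr rfl this, Finset.sum_const, Finset.card_range, nsmul_eq_mul]

theorem sum_div_le (g : ℕ → ℝ) (hg : ∀ n, 0 ≤ g n) (k N J : ℕ) (h : N ≤ k * J) :
    ∑ r ∈ Finset.range N, g (r / k) ≤ k * (g 0 + ∑ T ∈ Finset.range J, g (T + 1)) := by
  have h1 : ∑ r ∈ Finset.range N, g (r / k) ≤ ∑ r ∈ Finset.range (k * J), g (r / k) := by
    apply Finset.sum_le_sum_of_subset_of_nonneg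
    · intro x hx
      rw [Finset.mem_range] at *
      omega
    · intro i _ _
      exact hg _
  rw [sum_div g] at h1
  refine h1.trans (mul_le_mul_of_nonneg_left ?_ (Nat.cast_nonneg k))
  have h2 := Finset.sum_range_succ' g J
  have h3 := Finset.sum_range_succ g J
  have := hg J
  linarith

theorem sum_Q (J : ℕ) (hJ : 1 ≤ J) : ∑ T ∈ Finset.range J, Qr (T + 1) ≤
    6 + 6 * ∑ T ∈ Finset.range J, Br (T + 1) := by
  set h : ℕ → ℝ := fun T => if T = 0 then 1 / 2 else 1 / 12 * Qr T + Br T / 2 with hh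
  have h0 : h 0 = 1 / 2 := by simp [hh]
  have hs : ∀ T, h (T + 1) = 1 / 12 * Qr (T + 1) + Br (T + 1) / 2 := by
    intro T
    simp [hh]
  have hnn : ∀ T, 0 ≤ h T := by
    intro T
    match T with
    | 0 => rw [h0]; norm_num
    | T + 1 =>
      rw [hs]
      have := Qr_nonneg (T := T + 1) (by omega)
      have := Br_nonneg (T + 1)
      linarith
  have h1 : ∀ j ∈ Finset.range J, Qr (j + 1) ≤ h ((j + 1) / 6) := by
    intro j _
    rcases Nat.eq_zero_or_pos ((j + 1) / 6) with h2 | h2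
    · rw [h2, h0]
      exact Qr_le (by omega)
    · obtain ⟨m, hm⟩ : ∃ m, (j + 1) / 6 = m + 1 := ⟨(j + 1) / 6 - 1, by omega⟩
      rw [hm, hs]
      exact rec_Q (by omega) (by omega)
  have h2 : ∑ j ∈ Finset.range J, h ((j + 1) / 6) ≤ ∑ r ∈ Finset.range (J + 1), h (r / 6) := by
    rw [Finset.sum_range_succ' (fun r => h (r / 6))]
    have := hnn (0 / 6)
    linarith
  have h3 := sum_div_le h hnn 6 (J + 1) J (by omega)
  have h4 := Finset.sum_le_sum h1
  rw [h0] at h3
  simp only [hs] at h3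
  rw [Finset.sum_add_distrib, ← Finset.mul_sum, ← Finset.sum_div] at h3
  push_cast at h3
  linarith

theorem mu0_sq : mu0 * mu0 = 2 + Real.sqrt 2 := by
  unfold mu0
  exact Real.mul_self_sqrt (by positivity)

theorem Br_one : 29 / 100 ≤ Br 1 := by
  have hmem : ([(3, 0), (2, 0), (1, 0), (0, 0)] : List V) ∈ LK (Dm 1 .no .no) 0 := by
    have hLW : ([(3, 0), (2, 0), (1, 0), (0, 0)] : List V) ∈ LW (Dm 1 .no .no) := by
      refine ⟨⟨?_, by decide, ?_, by decide, ?_, by decide, ?_, by decide, rfl, rfl⟩, ?_⟩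
      · rw [adj_iff]; simp
      · refine ⟨by norm_num, by norm_num, trivial, trivial⟩
      · rw [adj_iff]; simp
      · refine ⟨by norm_num, by norm_num, trivial, trivial⟩
      · intro h
        have := h.2.1
        norm_num at this
    refine ⟨hLW, ?_⟩
    have := LW_cls le_rfl hLW
    simp only [List.headD_cons, ne_eq, not_true_eq_false, false_and, and_false, or_false] at this
    norm_num at this
    exact this
  have h1 : ma ((({[(3, 0), (2, 0), (1, 0), (0, 0)]} : Finset (List V))) : Set (List V)) ≤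
      ma (LK (Dm 1 .no .no) 0) := by
    apply ma_mono
    intro w hw
    rw [Finset.coe_singleton, Set.mem_singleton_iff] at hw
    rw [hw]
    exact hmem
  rw [ma_finset] at h1
  have h2 := ENNReal.toReal_mono ((idn le_rfl .no .no).ne_top LK_sub) h1
  rw [ENNReal.toReal_ofReal (ms_nonneg _)] at h2
  have h3 : Br 1 = (ma (LK (Dm 1 .no .no) 0)).toReal := rfl
  rw [h3]
  refine le_trans ?_ h2
  unfold ms
  rw [Finset.sum_singleton]
  unfold wt
  simp only [List.length_cons, List.length_nil]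
  norm_num
  rw [sq, mu0_sq]
  have hs : Real.sqrt 2 < 1.4143 := by
    rw [Real.sqrt_lt' (by norm_num)]
    norm_num
  rw [le_inv_comm₀ (by norm_num) (by positivity)]
  norm_num
  linarith

/-- **upper bound** -/
theorem upper (J : ℕ) (hJ : 1 ≤ J) : ∑ r ∈ Finset.range J, (ma (HA (far r))).toReal ≤
    250 * ∑ T ∈ Finset.range J, Br (T + 1) := by
  set g : ℕ → ℝ := fun T => if T = 0 then 1 else Br T + 273 / 1000 * Qr T with hg
  have g0 : g 0 = 1 := by simp [hg]
  have gs : ∀ T, g (T + 1) = Br (T + 1) + 273 / 1000 * Qr (T + 1) := by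
    intro T
    simp [hg]
  have gnn : ∀ T, 0 ≤ g T := by
    intro T
    match T with
    | 0 => rw [g0]; norm_num
    | T + 1 =>
      rw [gs]
      have := Qr_nonneg (T := T + 1) (by omega)
      have := Br_nonneg (T + 1)
      linarith
  have h1 : ∀ r ∈ Finset.range J, c3 * (ma (HA (far r))).toReal ≤ g (r / 8) := by
    intro r _
    rcases Nat.eq_zero_or_pos (r / 8) with h2 | h2
    · rw [h2, g0]
      exact HA_le_real _
    · obtain ⟨m, hm⟩ : ∃ m, r / 8 = m + 1 := ⟨r / 8 - 1, by omega⟩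
      rw [hm, gs]
      exact far_HA (by omega) (by omega)
  have h2 := sum_div_le g gnn 8 J J (by omega)
  have h3 := Finset.sum_le_sum h1
  rw [← Finset.mul_sum] at h3
  rw [g0] at h2
  simp only [gs] at h2
  rw [Finset.sum_add_distrib, ← Finset.mul_sum] at h2
  push_cast at h2
  have h4 := sum_Q J hJ
  have h5 : 29 / 100 ≤ ∑ T ∈ Finset.range J, Br (T + 1) := by
    refine Br_one.trans ?_
    have := Finset.single_le_sum (f := fun T => Br (T + 1)) (s := Finset.range J)
      (fun i _ => Br_nonneg _) (Finset.mem_range.2 (by omega : 0 < J))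
    simpa using this
  have h6 : 38 / 100 ≤ c3 := by
    rw [c3_eq]
    have := s8_ge
    linarith
  set U := ∑ T ∈ Finset.range J, Br (T + 1)
  set X := ∑ r ∈ Finset.range J, (ma (HA (far r))).toReal
  have hX : 0 ≤ X := Finset.sum_nonneg fun i _ => ENNReal.toReal_nonneg
  have h7 : 38 / 100 * X ≤ c3 * X := mul_le_mul_of_nonneg_right h6 hX
  linarith

end Pool.Agent.W832.HR
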