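import Pool.Agent.W832.HR.Trans

set_option autoImplicit false

/-! The theorem. -/

namespace Pool.Agent.W832.HR

open H978R2.Hex Pool.Agent.W818.TD Filter Topology
open scoped ENNReal

/-- The critical partition function. -/
noncomputable def Z (D : Set (ℤ × ℤ)) (a b : ℤ × ℤ) : ℝ≥0∞ :=
  ∑' l : Traj D a b, xc ^ (l.1.length - 1)

/-- the half-plane -/
def HP : Set (ℤ × ℤ) := {p | 1 ≤ p.1 - p.2}

/-- the strip with `2 T` levels -/
def Strip (T : ℕ) : Set (ℤ × ℤ) := {p | 1 ≤ p.1 - p.2 ∧ p.1 - p.2 ≤ 2 * T}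

/-- the critical mass of the walks crossing the strip -/
noncomputable def B (T : ℕ) : ℝ≥0∞ := ∑' x : ℤ, Z (Strip T) (1, 0) (2 * T + x, x)

/-- the critical boundary two-point function of the half-plane -/
noncomputable def a (j : ℤ) : ℝ≥0∞ := Z HP (1, 0) (1 + j, j)

/-- extent of a path: maximal distance from `(1, 0)` -/
def ext (l : List (ℤ × ℤ)) : ℕ :=
  (l.map fun v => max (v.1 - 1).natAbs v.2.natAbs).foldr max 0

noncomputable def U (J : ℕ) : ℝ≥0∞ := ∑ T ∈ Finset.range J, B (T + 1)

noncomputable def S (J : ℕ) : ℝ≥0∞ := ∑' j : ℤ, (min j.natAbs J : ℕ) * a j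

noncomputable def X (J : ℕ) : ℝ≥0∞ :=
  ∑' j : ℤ, ∑' l : Traj HP (1, 0) (1 + j, j), (min (ext l.1) J : ℕ) * xc ^ (l.1.length - 1)

theorem lt_ext {l : List (ℤ × ℤ)} {r : ℕ} :
    r < ext l ↔ ∃ v ∈ l, r < (v.1 - 1).natAbs ∨ r < v.2.natAbs := by
  unfold ext
  induction l with
  | nil => simp
  | cons b l ih =>
    simp only [List.map_cons, List.foldr_cons, lt_max_iff, ih, List.mem_cons, exists_eq_or_imp]

theorem min_sum (m J : ℕ) : ((min m J : ℕ) : ℝ≥0∞) =
    ∑ r ∈ Finset.range J, if r < m then 1 else 0 := by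
  rw [← Finset.sum_filter, Finset.sum_const, nsmul_eq_mul, mul_one]
  congr 1
  have : (Finset.range J).filter (fun r => r < m) = Finset.range (min m J) := by
    ext x
    simp only [Finset.mem_filter, Finset.mem_range, lt_min_iff]
    tauto
  rw [this, Finset.card_range]

open Classical in
theorem sub_ind {α : Type*} (A : Set α) (p : α → Prop) (f : α → ℝ≥0∞) :
    ∑' l : {l // l ∈ A ∧ p l}, f l = ∑' l : A, if p l then f l else 0 := by
  have h1 : ∑' l : {l // l ∈ A ∧ p l}, f l = ∑' x, ({l | l ∈ A ∧ p l} : Set α).indicator f x :=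
    tsum_subtype {l | l ∈ A ∧ p l} f
  rw [h1, tsum_subtype A (fun l => if p l then f l else 0)]
  refine tsum_congr fun x => ?_
  by_cases hA : x ∈ A
  · by_cases hp : p x
    · rw [Set.indicator_of_mem (show x ∈ {l | l ∈ A ∧ p l} from ⟨hA, hp⟩),
        Set.indicator_of_mem hA, if_pos hp]
    · rw [Set.indicator_of_notMem (show x ∉ {l | l ∈ A ∧ p l} from fun h => hp h.2),
        Set.indicator_of_mem hA, if_neg hp]
  · rw [Set.indicator_of_notMem (show x ∉ {l | l ∈ A ∧ p l} from fun h => hA h.1),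
      Set.indicator_of_notMem hA]

theorem sub_true {α : Type*} (A : Set α) (f : α → ℝ≥0∞) :
    ∑' l : {l // l ∈ A ∧ True}, f l = ∑' l : A, f l := by
  rw [sub_ind]
  simp

/-! ### bridges -/

theorem strip_eq (T : ℕ) : {q : V | Dm T .no .no q} = Strip T := by
  ext q
  unfold Dm Strip
  simp [Up, Lo]

theorem hp_eq : {q : V | Hp q} = HP := rfl

theorem B_eq {T : ℕ} (hT : 1 ≤ T) : ENNReal.ofReal (Br T) = xc * B T := by
  have h1 : LK (Dm T .no .no) 0 =
      ⋃ x : ℤ, WA (Dm T .no .no) (2 * (T : ℤ) + 1 + x, x) (fun _ => True) := by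
    ext w
    rw [Set.mem_iUnion]
    constructor
    · rintro ⟨hw, hk⟩
      have hpos : (w.headD (0, 0)).1 - (w.headD (0, 0)).2 = 2 * (T : ℤ) + 1 := by
        rcases LW_cls hT hw with b | b | b | b | b
        · omega
        · omega
        · exact b.1
        · exact absurd trivial b.1
        · exact absurd trivial b.1
      refine ⟨(w.headD (0, 0)).2, hw.1, ?_, trivial⟩
      apply Prod.ext
      · simp only; omega
      · rfl
    · rintro ⟨x, h1, h2, -⟩
      have hLW : w ∈ LW (Dm T .no .no) := by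
        refine ⟨h1, ?_⟩
        rw [h2]
        intro h
        have := h.2.1
        simp only at this
        omega
      refine ⟨hLW, ?_⟩
      have h3 := LW_cls hT hLW
      rw [h2] at h3
      simp only at h3
      rcases h3 with b | b | b | b | b
      · omega
      · omega
      · exact b.2
      · exact absurd trivial b.1
      · exact absurd trivial b.1
  have hd : Pairwise (Function.onFun Disjoint
      (fun x : ℤ => WA (Dm T .no .no) (2 * (T : ℤ) + 1 + x, x) (fun _ => True))) := by
    intro x y hxy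
    simp only [Function.onFun]
    rw [Set.disjoint_left]
    rintro w ⟨_, h1, _⟩ ⟨_, h2, _⟩
    rw [h1] at h2
    simp only [Prod.mk.injEq] at h2
    exact hxy h2.2
  have h2 : ENNReal.ofReal (Br T) = ma (LK (Dm T .no .no) 0) := by
    unfold Br mq
    rw [ENNReal.ofReal_toReal ((idn hT .no .no).ne_top LK_sub)]
  rw [h2, h1, ma_iUnion hd]
  unfold B
  rw [← ENNReal.tsum_mul_left]
  refine tsum_congr fun x => ?_
  rw [transfer (v := (2 * (T : ℤ) + x, x)) (fun h => by have := h.1; simp at this)]
  · rw [strip_eq]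
    exact congrArg (fun t => xc * t) (sub_true (Traj (Strip T) (1, 0) (2 * (T : ℤ) + x, x))
      (fun l : List (ℤ × ℤ) => xc ^ (l.length - 1)))
  · rw [adj_iff]
    simp only
    omega
  · rintro v ⟨a1, a2, -, -⟩ ha
    rw [adj_iff] at ha
    simp only at ha
    apply Prod.ext
    · simp only; omega
    · simp only; omega
  · intro h
    simp only [Prod.mk.injEq] at h
    omega
  · intro h
    simp only [Prod.mk.injEq] at h
    omega
  · intro h
    have := h.2.1
    simp only at this
    omega

/-! ### arcs -/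

theorem arc_transfer {j : ℤ} (hj : j ≠ 0) (p : List V → Prop) :
    ma (WA Hp (j, j) p) = xc * ∑' l : {l // l ∈ Traj HP (1, 0) (1 + j, j) ∧ p l},
      xc ^ (l.1.length - 1) := by
  rw [transfer (v := (1 + j, j)) (fun h => by unfold Hp at h; simp at h)]
  · rw [hp_eq]
  · rw [adj_iff]
    simp only
    omega
  · intro v hv ha
    unfold Hp at hv
    rw [adj_iff] at ha
    simp only at ha
    apply Prod.ext
    · simp only; omega
    · simp only; omega
  · intro h
    simp only [Prod.mk.injEq] at h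
    omega
  · intro h
    simp only [Prod.mk.injEq] at h
    omega
  · unfold Hp
    simp only
    omega

theorem head_Hp {w : List V} (h : w ∈ LW Hp) :
    (w.headD (0, 0)).1 = (w.headD (0, 0)).2 ∧ (w.headD (0, 0)).2 ≠ 0 := by
  have hb : Hp (1, 0) := by unfold Hp; simp
  obtain ⟨z, v, K, e, a1, a2, a3, a4, a5, a6⟩ := land_struct hb h.1 h.2
  have hz := h.2
  rw [e] at hz ⊢
  simp only [List.headD_cons] at hz ⊢
  have hv : Hp v := a4 v List.mem_cons_self
  have hz' : ¬ (1 ≤ z.1 - z.2) := hz
  have hv' : 1 ≤ v.1 - v.2 := hv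
  have ha := a1
  rw [adj_iff] at ha
  have h1 : z.1 = z.2 := by omega
  refine ⟨h1, ?_⟩
  intro h0
  have hz0 : z = (0, 0) := by
    apply Prod.ext
    · simp only; omega
    · simp only; omega
  have hv1 : v = (1, 0) := by
    apply Prod.ext
    · simp only; omega
    · simp only; omega
  have hK : K ≠ [] := fun e => a6 e hz0
  rw [List.getLast_cons hK] at a5
  have hmem : (1, 0) ∈ K := a5 ▸ List.getLast_mem hK
  rw [List.nodup_cons] at a3
  apply a3.1
  rw [hv1]
  exact List.mem_append_left _ hmem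

/-- arcs, sorted by their last vertex -/
theorem HA_sum (q : List V → Prop) (c : ℤ → Prop) [DecidablePred c] :
    ma (HA (fun w => c (w.headD (0, 0)).2 ∧ q (path w))) =
      ∑' j : ℤ, if c j then ma (WA Hp (j, j) q) else 0 := by
  have h1 : HA (fun w => c (w.headD (0, 0)).2 ∧ q (path w)) =
      ⋃ j : ℤ, {w | c j ∧ w ∈ WA Hp (j, j) q} := by
    ext w
    rw [Set.mem_iUnion]
    constructor
    · rintro ⟨hw, h2, h3⟩
      refine ⟨(w.headD (0, 0)).2, h2, hw.1, ?_, h3⟩
      apply Prod.ext
      · exact (head_Hp hw).1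
      · rfl
    · rintro ⟨j, h2, h3, h4, h5⟩
      refine ⟨⟨h3, ?_⟩, ?_, h5⟩
      · rw [h4]
        unfold Hp
        simp
      · rw [h4]
        exact h2
  rw [h1, ma_iUnion]
  · refine tsum_congr fun j => ?_
    by_cases hj : c j
    · rw [if_pos hj]
      congr 1
      ext w
      simp [hj]
    · rw [if_neg hj]
      have : {w | c j ∧ w ∈ WA Hp (j, j) q} = ∅ := by
        ext w
        simp [hj]
      rw [this, ma_empty]
  · intro x y hxy
    simp only [Function.onFun]
    rw [Set.disjoint_left]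
    rintro w ⟨_, _, h1, _⟩ ⟨_, _, h2, _⟩
    rw [h1] at h2
    simp only [Prod.mk.injEq] at h2
    exact hxy h2.2

theorem S_eq (J : ℕ) : xc * S J =
    ∑ r ∈ Finset.range J, ma (HA (fun w => r < ((w.headD (0, 0)).2).natAbs ∧ True)) := by
  have h1 : ∀ r : ℕ, ma (HA (fun w => r < ((w.headD (0, 0)).2).natAbs ∧ True)) =
      ∑' j : ℤ, if r < j.natAbs then xc * a j else 0 := by
    intro r
    rw [HA_sum (fun _ => True) (fun j => r < j.natAbs)]
    refine tsum_congr fun j => ?_
    by_cases hj : r < j.natAbs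
    · rw [if_pos hj, if_pos hj, arc_transfer (by rintro rfl; simp at hj)]
      exact congrArg (fun t => xc * t) (sub_true (Traj HP (1, 0) (1 + j, j))
        (fun l : List (ℤ × ℤ) => xc ^ (l.length - 1)))
    · rw [if_neg hj, if_neg hj]
  simp only [h1]
  unfold S
  rw [← ENNReal.tsum_mul_left, ← Summable.tsum_finsetSum (fun i _ => ENNReal.summable)]
  refine tsum_congr fun j => ?_
  rw [min_sum, Finset.sum_mul, Finset.mul_sum]
  refine Finset.sum_congr rfl fun r _ => ?_
  by_cases hj : r < j.natAbs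
  · rw [if_pos hj, if_pos hj, one_mul]
  · rw [if_neg hj, if_neg hj, zero_mul, mul_zero]

theorem X_le (J : ℕ) : xc * X J ≤ ∑ r ∈ Finset.range J, ma (HA (far r)) := by
  have h1 : ∀ r : ℕ, (∑' j : ℤ, xc * ∑' l : Traj HP (1, 0) (1 + j, j),
      (if r < ext l.1 then xc ^ (l.1.length - 1) else 0)) ≤ ma (HA (far r)) := by
    intro r
    have h2 : ma (HA (fun w => (w.headD (0, 0)).2 ≠ 0 ∧ r < ext (path w))) ≤ ma (HA (far r)) := by
      apply ma_mono
      rintro w ⟨hw, -, h3⟩
      refine ⟨hw, ?_⟩
      rw [lt_ext] at h3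
      obtain ⟨v, hv, h4⟩ := h3
      unfold path at hv
      rw [List.mem_reverse] at hv
      refine ⟨v, hv, ?_⟩
      rw [Int.abs_eq_natAbs, Int.abs_eq_natAbs]
      omega
    refine le_trans (le_of_eq ?_) h2
    rw [HA_sum (fun l => r < ext l) (fun j => j ≠ 0)]
    refine tsum_congr fun j => ?_
    by_cases hj : j = 0
    · subst hj
      rw [if_neg (by simp)]
      have : ∀ l : Traj HP (1, 0) (1 + (0 : ℤ), 0),
          (if r < ext l.1 then xc ^ (l.1.length - 1) else 0) = 0 := by
        rintro ⟨l, a1, a2, a3, a4, a5⟩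
        have hl : l = [(1, 0)] := by
          match l, a1, a2, a3 with
          | [b], a1, _, _ =>
            simp only [List.head?_cons, Option.some.injEq] at a1
            rw [a1]
          | b :: b' :: t, a1, a2, a3 =>
            exfalso
            simp only [List.head?_cons, Option.some.injEq] at a1
            rw [List.getLast?_eq_getLast_of_ne_nil (by simp), Option.some.injEq,
              List.getLast_cons (by simp)] at a2
            rw [List.nodup_cons] at a3
            apply a3.1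
            have h5 := List.getLast_mem (l := b' :: t) (by simp)
            rw [a2] at h5
            rw [a1]
            simpa using h5
        subst hl
        rw [if_neg (by simp [ext])]
      simp only [this]
      simp
    · rw [if_pos hj, arc_transfer hj, sub_ind (Traj HP (1, 0) (1 + j, j)) (fun l => r < ext l)
        (fun l => xc ^ (l.length - 1))]
      congr 1
      refine tsum_congr fun l => ?_
      by_cases hl : r < ext l.1
      · rw [if_pos hl, if_pos hl]
      · rw [if_neg hl, if_neg hl]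
  refine le_trans (le_of_eq ?_) (Finset.sum_le_sum fun r _ => h1 r)
  unfold X
  rw [← ENNReal.tsum_mul_left, ← Summable.tsum_finsetSum (fun i _ => ENNReal.summable)]
  refine tsum_congr fun j => ?_
  rw [← Finset.mul_sum, ← Summable.tsum_finsetSum (fun i _ => ENNReal.summable)]
  congr 1
  refine tsum_congr fun l => ?_
  rw [min_sum, Finset.sum_mul]
  refine Finset.sum_congr rfl fun r _ => ?_
  by_cases hl : r < ext l.1
  · rw [if_pos hl, if_pos hl, one_mul]
  · rw [if_neg hl, if_neg hl, zero_mul]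

theorem S_le_X (J : ℕ) : S J ≤ X J := by
  unfold S X
  refine ENNReal.tsum_le_tsum fun j => ?_
  unfold a Z
  rw [← ENNReal.tsum_mul_left]
  refine ENNReal.tsum_le_tsum fun l => ?_
  apply mul_le_mul_left
  have h1 : j.natAbs ≤ ext l.1 := by
    by_contra hc
    rw [not_le] at hc
    have hmem : (1 + j, j) ∈ l.1 := by
      have := l.2.2.1
      exact List.mem_of_getLast? this
    have h2 : ∀ r, r < j.natAbs → r < ext l.1 := by
      intro r hr
      rw [lt_ext]
      exact ⟨_, hmem, Or.inr hr⟩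
    exact absurd (h2 _ hc) (lt_irrefl _)
  exact_mod_cast min_le_min_right J h1

theorem U_eq (J : ℕ) : ENNReal.ofReal (∑ T ∈ Finset.range J, Br (T + 1)) = xc * U J := by
  rw [ENNReal.ofReal_sum_of_nonneg (fun i _ => Br_nonneg _)]
  unfold U
  rw [Finset.mul_sum]
  exact Finset.sum_congr rfl fun T _ => B_eq (by omega)

theorem sm_sym (r : ℕ) : ENNReal.ofReal (2 * sm r) ≤
    ma (HA (fun w => r < ((w.headD (0, 0)).2).natAbs ∧ True)) := by
  have h1 : ma (HA (fun w => (w.headD (0, 0)).2 < -(r : ℤ))) ≤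
      ma (HA (fun w => (r : ℤ) < (w.headD (0, 0)).2)) := by
    apply ma_sg_le
    rintro w ⟨hw, h2⟩
    have h3 := head_Hp hw
    have h4 : (w.map sg).headD (0, 0) = sg (w.headD (0, 0)) := head_sg hw.1
    refine ⟨⟨Val_sg (Om := Hp) (Om' := Hp) ?_ hw.1, ?_⟩, ?_⟩
    · intro v hv
      unfold Hp at *
      rw [sg_lev]
      exact hv
    · rw [h4]
      have := hw.2
      unfold Hp at *
      rw [sg_lev]
      exact this
    · change (r : ℤ) < ((w.map sg).headD (0, 0)).2
      rw [h4]
      unfold sg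
      simp only
      omega
  have h2 : ENNReal.ofReal (2 * sm r) = ma (HA (fun w => (w.headD (0, 0)).2 < -(r : ℤ))) +
      ma (HA (fun w => (w.headD (0, 0)).2 < -(r : ℤ))) := by
    have h3 : 0 ≤ sm r := ENNReal.toReal_nonneg
    rw [two_mul, ENNReal.ofReal_add h3 h3]
    unfold sm
    rw [ENNReal.ofReal_toReal (HA_ne_top _)]
  rw [h2]
  refine (add_le_add le_rfl h1).trans ?_
  rw [← ma_union]
  · apply ma_mono
    rintro w (⟨hw, h3⟩ | ⟨hw, h3⟩)
    · exact ⟨hw, by omega, trivial⟩
    · exact ⟨hw, by omega, trivial⟩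
  · rw [Set.disjoint_left]
    rintro w ⟨_, h3⟩ ⟨_, h4⟩
    omega

theorem U_lt_top (J : ℕ) : U J < ⊤ := by
  by_contra hc
  rw [not_lt, top_le_iff] at hc
  have h := U_eq J
  rw [hc, ENNReal.mul_top xc_ne_zero] at h
  exact ENNReal.ofReal_ne_top h

/-- **Theorem** -/
theorem final (J : ℕ) (hJ : 1 ≤ J) :
    U J ≤ 5 * S J ∧ S J ≤ X J ∧ X J ≤ 250 * U J ∧ U J < ⊤ := by
  refine ⟨?_, S_le_X J, ?_, U_lt_top J⟩
  · rw [← ENNReal.mul_le_mul_iff_right xc_ne_zero xc_ne_top, ← U_eq]
    have h1 := lower J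
    have h2 : ENNReal.ofReal (∑ T ∈ Finset.range J, Br (T + 1)) ≤
        ENNReal.ofReal (5 * ∑ r ∈ Finset.range J, 2 * sm r) := by
      apply ENNReal.ofReal_le_ofReal
      rw [← Finset.mul_sum]
      linarith
    refine h2.trans ?_
    rw [ENNReal.ofReal_mul (by norm_num), ENNReal.ofReal_sum_of_nonneg (fun i _ => by
      have : 0 ≤ sm i := ENNReal.toReal_nonneg
      linarith)]
    have e : xc * (5 * S J) = 5 * (xc * S J) := by ring
    rw [e, S_eq]
    have h5 : ENNReal.ofReal 5 = 5 := by norm_num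
    rw [h5]
    exact mul_le_mul_right (Finset.sum_le_sum fun r _ => sm_sym r) _
  · rw [← ENNReal.mul_le_mul_iff_right xc_ne_zero xc_ne_top]
    have e : xc * (250 * U J) = 250 * (xc * U J) := by ring
    rw [e, ← U_eq]
    refine (X_le J).trans ?_
    have h1 := ENNReal.ofReal_le_ofReal (upper J hJ)
    rw [ENNReal.ofReal_mul (by norm_num), ENNReal.ofReal_sum_of_nonneg
      (fun i _ => ENNReal.toReal_nonneg)] at h1
    have h5 : ENNReal.ofReal 250 = 250 := by norm_num
    rw [h5] at h1
    refine le_trans (le_of_eq ?_) h1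
    refine Finset.sum_congr rfl fun r _ => ?_
    rw [ENNReal.ofReal_toReal (HA_ne_top _)]

end Pool.Agent.W832.HR
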