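import Pool.Agent.W832.HR.AllScale
import Pool.Agent.W832.HR.Fin

set_option autoImplicit false

/-! Tightness of the width, in terms of trajectories. -/

namespace Pool.Agent.W832.HR

open H978R2.Hex Pool.Agent.W818.TD
open scoped ENNReal

/-- The lateral width of a path is at most `c`. -/
def Wid (l : List (ℤ × ℤ)) (c : ℝ) : Prop :=
  ∀ p ∈ l, ∀ q ∈ l, (((p.1 + 3 * p.2) - (q.1 + 3 * q.2) : ℤ) : ℝ) ≤ c

/-- The probability that the critical walk crossing the strip has width in `(ε T, k T]`. -/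
noncomputable def Pr (ε k : ℝ) (T : ℕ) : ℝ≥0∞ :=
  (∑' x : ℤ, ∑' l : {l // l ∈ Traj (Strip T) (1, 0) (2 * T + x, x) ∧
    ¬ Wid l (ε * T) ∧ Wid l (k * T)}, xc ^ (l.1.length - 1)) / B T

theorem Cr_eq {T : ℕ} (hT : 1 ≤ T) (p : List V → Prop) (hp : ∀ l, p l.reverse ↔ p l) :
    ma (Cr T p) = xc * ∑' x : ℤ, ∑' l : {l // l ∈ Traj (Strip T) (1, 0) (2 * T + x, x) ∧ p l},
      xc ^ (l.1.length - 1) := by
  have h1 : Cr T p = ⋃ x : ℤ, WA (Dm T .no .no) (2 * (T : ℤ) + 1 + x, x) p := by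
    ext w
    rw [Set.mem_iUnion]
    constructor
    · rintro ⟨hw, hk⟩
      rw [LK0_iff hT] at hw
      refine ⟨(w.headD (0, 0)).2, hw.1, ?_, ?_⟩
      · apply Prod.ext
        · simp only; omega
        · rfl
      · unfold path
        rw [hp]
        exact hk
    · rintro ⟨x, h1, h2, h3⟩
      refine ⟨?_, ?_⟩
      · rw [LK0_iff hT]
        refine ⟨h1, ?_⟩
        rw [h2]
        simp only
        omega
      · unfold path at h3
        rw [hp] at h3
        exact h3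
  have hd : Pairwise (Function.onFun Disjoint
      (fun x : ℤ => WA (Dm T .no .no) (2 * (T : ℤ) + 1 + x, x) p)) := by
    intro x y hxy
    simp only [Function.onFun]
    rw [Set.disjoint_left]
    rintro w ⟨_, h1, _⟩ ⟨_, h2, _⟩
    rw [h1] at h2
    simp only [Prod.mk.injEq] at h2
    exact hxy h2.2
  rw [h1, ma_iUnion hd, ← ENNReal.tsum_mul_left]
  refine tsum_congr fun x => ?_
  rw [transfer (v := (2 * (T : ℤ) + x, x)) (fun h => by have := h.1; simp at this)]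
  · rw [strip_eq]
  · rw [adj_iff]
    simp only
    omega
  · rintro v ⟨a1, a2, -, -⟩ ha
    rw [adj_iff] at ha
    simp only at ha
    apply Prod.ext
    · simp only; omega
    · simp only; omega
  · intro h
    simp only [Prod.mk.injEq] at h
    omega
  · intro h
    simp only [Prod.mk.injEq] at h
    omega
  · intro h
    have := h.2.1
    simp only at this
    omega

theorem Wid_rev {l : List V} {c : ℝ} : Wid l.reverse c ↔ Wid l c := by
  unfold Wid
  simp only [List.mem_reverse]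

theorem Pr_ge {T : ℕ} (hT : 1 ≤ T) {ε k η : ℝ}
    (h : (ma (Cr T (BadL ε k T))).toReal ≤ η * Br T) : ENNReal.ofReal (1 - η) ≤ Pr ε k T := by
  set g : List V → Prop := fun l => ¬ Wid l (ε * T) ∧ Wid l (k * T) with hg
  have hb : ∀ l, BadL ε k T l ↔ ¬ g l := by
    intro l
    rw [hg]
    unfold BadL
    change Wid l (ε * T) ∨ ¬ Wid l (k * T) ↔ _
    tauto
  have h1 : ma (LK (Dm T .no .no) 0) = ma (Cr T g) + ma (Cr T (BadL ε k T)) := by
    rw [← ma_union]
    · congr 1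
      ext w
      constructor
      · intro hw
        by_cases hc : g (w.tail.dropLast)
        · exact Or.inl ⟨hw, hc⟩
        · exact Or.inr ⟨hw, (hb _).2 hc⟩
      · rintro (hw | hw)
        · exact hw.1
        · exact hw.1
    · rw [Set.disjoint_left]
      rintro w ⟨_, h2⟩ ⟨_, h3⟩
      exact (hb _).1 h3 h2
  have h2 : Br T = (ma (Cr T g)).toReal + (ma (Cr T (BadL ε k T))).toReal := by
    rw [← ENNReal.toReal_add (Cr_ne_top hT _) (Cr_ne_top hT _), ← h1]
    rfl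
  have hB0 : 0 < Br T := (br_lower hT).1
  have h3 : (1 - η) * Br T ≤ (ma (Cr T g)).toReal := by linarith
  have h4 := Cr_eq hT g (fun l => by rw [hg]; simp only [Wid_rev])
  have h5 := B_eq hT
  unfold Pr
  have hxB : xc * B T ≠ 0 := by
    rw [← h5]
    simpa using hB0
  have hB1 : B T ≠ 0 := fun h => hxB (by rw [h, mul_zero])
  have hB2 : B T ≠ ⊤ := by
    intro h
    rw [h, ENNReal.mul_top xc_ne_zero] at h5
    exact ENNReal.ofReal_ne_top h5
  rw [ENNReal.le_div_iff_mul_le (Or.inl hB1) (Or.inl hB2),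
    ← ENNReal.mul_le_mul_iff_right xc_ne_zero xc_ne_top]
  rcases le_or_gt η 1 with hη | hη
  · have e : xc * (ENNReal.ofReal (1 - η) * B T) = ENNReal.ofReal (1 - η) * (xc * B T) := by ring
    rw [e, ← h5, ← ENNReal.ofReal_mul (by linarith), ← h4]
    rw [← ENNReal.ofReal_toReal (Cr_ne_top hT g)]
    exact ENNReal.ofReal_le_ofReal h3
  · rw [ENNReal.ofReal_of_nonpos (by linarith), zero_mul, mul_zero]
    exact zero_le

/-- **Theorem**, most scales -/
theorem final2 (η : ℝ) (hη : 0 < η) : ∃ C : ℝ, 0 < C ∧ ∀ n : ℕ,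
    ({i : ℕ | i < n ∧ ∃ T : ℕ, 2 ^ i ≤ T ∧ T < 2 ^ (i + 1) ∧ ∃ s : ℕ, 1 ≤ s ∧
      Pr (1 / (C * s)) (C * s) T < ENNReal.ofReal (1 - (1 / 2) ^ s)}.ncard : ℝ) ≤
      η * n + C := by
  classical
  obtain ⟨C, hC, h⟩ := tight η hη
  refine ⟨C, hC, fun n => le_trans ?_ (h n)⟩
  have : {i : ℕ | i < n ∧ ∃ T : ℕ, 2 ^ i ≤ T ∧ T < 2 ^ (i + 1) ∧ ∃ s : ℕ, 1 ≤ s ∧
      Pr (1 / (C * s)) (C * s) T < ENNReal.ofReal (1 - (1 / 2) ^ s)}.ncard ≤
      cnt (fun i => ∃ T : ℕ, 2 ^ i ≤ T ∧ T < 2 ^ (i + 1) ∧ ∃ s : ℕ, 1 ≤ s ∧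
      (1 / 2) ^ s * Br T < (ma (Cr T (BadL (1 / (C * s)) (C * s) T))).toReal) n := by
    unfold cnt
    rw [← Set.ncard_coe_finset]
    apply Set.ncard_le_ncard _ (Finset.finite_toSet _)
    rintro i ⟨h1, T, h2, h3, s, hs, h4⟩
    rw [Finset.coe_filter]
    refine ⟨Finset.mem_range.2 h1, T, h2, h3, s, hs, ?_⟩
    by_contra hc
    rw [not_lt] at hc
    exact absurd (Pr_ge (Nat.one_le_two_pow.trans h2) hc) (not_le.2 h4)
  exact_mod_cast this

/-- **Theorem**, all scales -/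
theorem final3 (T s : ℕ) (hT : 2 ≤ T) (hs : 1 ≤ s) :
    ENNReal.ofReal (1 - 1 / (T : ℝ) ^ s) ≤
      Pr (1 / (256 * s * Real.log T)) (256 * s * Real.log T) T :=
  Pr_ge (by omega) (all_scales hT hs)

end Pool.Agent.W832.HR
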