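import Pool.Agent.W832.HR.Arc

set_option autoImplicit false

/-! The flux identity: lower bound for the truncated mean displacement. -/

namespace Pool.Agent.W832.HR

open H978R2.Hex Pool.Agent.W818.TD
open scoped ENNReal

/-- mass of the arcs which end at distance more than `r` to the left -/
noncomputable def sm (r : ℕ) : ℝ := (ma (HA (fun w => (w.headD (0, 0)).2 < -(r : ℤ)))).toReal

/-- mass of the arcs in the strip with a wall -/
noncomputable def Fa (T n i : ℕ) : ℝ := (ma (Aj (Dm T (.I n) .no) (-((i : ℤ) + 1)))).toReal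

theorem Aj_sub {T : ℕ} {u l : Wall} {j : ℤ} : Aj (Dm T u l) j ⊆ LW (Dm T u l) := by
  rintro w ⟨h1, h2⟩
  refine ⟨h1, ?_⟩
  rw [h2]
  intro h
  have := h.1
  simp only at this
  omega

theorem Aj_fin {T : ℕ} (hT : 1 ≤ T) {u l : Wall} {j : ℤ} : ma (Aj (Dm T u l) j) ≠ ⊤ :=
  (idn hT u l).ne_top Aj_sub

theorem left_le {T : ℕ} (hT : 1 ≤ T) (n J : ℕ) :
    mq (Dm T (.I n) .no) (-3) ≤ ∑ i ∈ Finset.range J, Fa T n i + sm J := by
  have hsub : LK (Dm T (.I n) .no) (-3) ⊆
      (⋃ i ∈ Finset.range J, Aj (Dm T (.I n) .no) (-((i : ℤ) + 1))) ∪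
        HA (fun w => (w.headD (0, 0)).2 < -(J : ℤ)) := by
    rintro w ⟨hw, hk⟩
    have hpos : (w.headD (0, 0)).1 - (w.headD (0, 0)).2 = 0 ∧ (w.headD (0, 0)).2 ≤ -1 := by
      rcases LW_cls hT hw with a | a | a | a | a
      · omega
      · exact ⟨a.1, a.2.1⟩
      · omega
      · have := a.2.2.2.2
        simp only [ku] at this
        omega
      · exact absurd trivial a.1
    by_cases h : (w.headD (0, 0)).2 < -(J : ℤ)
    · right
      refine ⟨⟨Val_mono (fun v hv => Dm_Hp hv) hw.1, ?_⟩, h⟩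
      unfold Hp
      omega
    · left
      rw [Set.mem_iUnion₂]
      refine ⟨(-(w.headD (0, 0)).2 - 1).toNat, ?_, hw.1, ?_⟩
      · rw [Finset.mem_range]
        omega
      · apply Prod.ext
        · simp only
          omega
        · simp only
          omega
  have h1 := (ma_mono hsub).trans (ma_union_le _ _)
  have h2 := h1.trans (add_le_add (ma_biUnion_le _ _) le_rfl)
  have hf : ∀ i ∈ Finset.range J, ma (Aj (Dm T (.I n) .no) (-((i : ℤ) + 1))) ≠ ⊤ :=
    fun i _ => Aj_fin hT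
  have hs : ∑ i ∈ Finset.range J, ma (Aj (Dm T (.I n) .no) (-((i : ℤ) + 1))) ≠ ⊤ :=
    ENNReal.sum_ne_top.2 hf
  unfold mq Fa sm
  rw [← ENNReal.toReal_sum hf, ← ENNReal.toReal_add hs (HA_ne_top _)]
  exact ENNReal.toReal_mono (ENNReal.add_ne_top.2 ⟨hs, HA_ne_top _⟩) h2

theorem right_ge {T : ℕ} (hT : 1 ≤ T) (n : ℕ) :
    ∑ i ∈ Finset.range n, Fa T (n - 1 - i) i ≤ mq (Dm T (.I n) .no) 3 := by
  have hsub : (⋃ i ∈ Finset.range n, Aj (Dm T (.I n) .no) ((i : ℤ) + 1)) ⊆
      LK (Dm T (.I n) .no) 3 := by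
    intro w hw
    rw [Set.mem_iUnion₂] at hw
    obtain ⟨i, hi, hA⟩ := hw
    have hLW := Aj_sub hA
    refine ⟨hLW, ?_⟩
    have h2 := hA.2
    rcases LW_cls hT hLW with a | a | a | a | a
    · exact a.2.2
    · rw [h2] at a
      simp only at a
      omega
    · rw [h2] at a
      simp only at a
      omega
    · rw [h2] at a
      simp only at a
      omega
    · exact absurd trivial a.1
  have hdis : ((Finset.range n : Finset ℕ) : Set ℕ).PairwiseDisjoint
      (fun i => Aj (Dm T (.I n) .no) ((i : ℤ) + 1)) := by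
    intro i _ j _ hij
    simp only [Function.onFun]
    rw [Set.disjoint_left]
    rintro w ⟨_, h1⟩ ⟨_, h2⟩
    rw [h1] at h2
    simp only [Prod.mk.injEq] at h2
    omega
  have h1 := ma_mono hsub
  rw [ma_biUnion _ _ hdis] at h1
  have h2 : ∑ i ∈ Finset.range n, ma (Aj (Dm T (.I (n - 1 - i)) .no) (-((i : ℤ) + 1))) ≤
      ma (LK (Dm T (.I n) .no) 3) := by
    refine le_trans (Finset.sum_le_sum fun i hi => ?_) h1
    exact rev_le (Finset.mem_range.1 hi)
  unfold mq Fa
  rw [← ENNReal.toReal_sum (fun i _ => Aj_fin hT)]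
  exact ENNReal.toReal_mono ((idn hT _ _).ne_top LK_sub) h2

theorem reindex (F : ℕ → ℕ → ℝ) (J : ℕ) :
    ∑ n ∈ Finset.range J, ∑ i ∈ Finset.range (J - 1 - n), F n i =
      ∑ n ∈ Finset.range J, ∑ i ∈ Finset.range n, F (n - 1 - i) i := by
  induction J with
  | zero => simp
  | succ J ih =>
    rw [Finset.sum_range_succ (fun n => ∑ i ∈ Finset.range n, F (n - 1 - i) i), ← ih,
      Finset.sum_range_succ]
    have e0 : J + 1 - 1 - J = 0 := by omega
    rw [e0, Finset.range_zero, Finset.sum_empty, add_zero]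
    have e1 : ∀ n ∈ Finset.range J, ∑ i ∈ Finset.range (J + 1 - 1 - n), F n i =
        ∑ i ∈ Finset.range (J - 1 - n), F n i + F n (J - 1 - n) := by
      intro n hn
      rw [Finset.mem_range] at hn
      have : J + 1 - 1 - n = (J - 1 - n) + 1 := by omega
      rw [this, Finset.sum_range_succ]
    rw [Finset.sum_congr rfl e1, Finset.sum_add_distrib]
    congr 1
    rw [← Finset.sum_range_reflect]
    refine Finset.sum_congr rfl fun i hi => ?_
    rw [Finset.mem_range] at hi
    congr 1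
    omega

/-- **flux** -/
theorem flux {T J : ℕ} (hT : 1 ≤ T) (_hJ : 2 * J ≤ T + 1) :
    Real.sin (Real.pi / 8) * ∑ n ∈ Finset.range J, mq (Dm T (.I n) .no) 1 ≤
      Real.cos (Real.pi / 8) * ∑ r ∈ Finset.range J, sm r := by
  have h1 : ∀ n ∈ Finset.range J, Real.sin (Real.pi / 8) * mq (Dm T (.I n) .no) 1 ≤
      Real.cos (Real.pi / 8) * (∑ i ∈ Finset.range (J - 1 - n), Fa T n i + sm (J - 1 - n) -
        ∑ i ∈ Finset.range n, Fa T (n - 1 - i) i) := by
    intro n _
    rw [(id_I hT n).2]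
    apply mul_le_mul_of_nonneg_left _ c8_pos.le
    unfold rh al
    have h2 := left_le hT n (J - 1 - n)
    have h3 := right_ge hT n
    linarith
  rw [Finset.mul_sum]
  refine (Finset.sum_le_sum h1).trans ?_
  rw [← Finset.mul_sum]
  apply mul_le_mul_of_nonneg_left _ c8_pos.le
  rw [Finset.sum_sub_distrib, Finset.sum_add_distrib, reindex, Finset.sum_range_reflect sm J]
  linarith

theorem br_pair (J : ℕ) : ∑ T ∈ Finset.range (2 * J), Br (T + 1) ≤
    2 * ∑ n ∈ Finset.range J, Br (2 * n + 1) := by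
  induction J with
  | zero => simp
  | succ J ih =>
    have e : 2 * (J + 1) = 2 * J + 1 + 1 := by ring
    rw [e, Finset.sum_range_succ, Finset.sum_range_succ, Finset.sum_range_succ]
    have := Br_anti (T := 2 * J + 1) (T' := 2 * J + 1 + 1) (by omega) (by omega)
    linarith

theorem br_half (J : ℕ) : ∑ T ∈ Finset.range J, Br (T + 1) ≤
    2 * ∑ n ∈ Finset.range J, Br (2 * n + 1) := by
  refine le_trans ?_ (br_pair J)
  apply Finset.sum_le_sum_of_subset_of_nonneg
  · intro x hx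
    rw [Finset.mem_range] at *
    omega
  · intro i _ _
    exact Br_nonneg _

theorem c8_le : Real.cos (Real.pi / 8) * Real.cos (Real.pi / 8) ≤ 7 / 8 := by
  rw [c8sq]
  have := sqrt2_lt
  linarith

theorem s8_ge : 19 / 50 ≤ Real.sin (Real.pi / 8) := by
  have h1 := s8sq
  have h2 := sin8_pos
  have h3 : Real.sqrt 2 < 1.4143 := by
    rw [Real.sqrt_lt' (by norm_num)]
    norm_num
  by_contra hc
  rw [not_le] at hc
  nlinarith

/-- **lower bound**: the truncated mean displacement dominates the sum of the bridge masses -/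
theorem lower (J : ℕ) :
    1 / 10 * ∑ T ∈ Finset.range J, Br (T + 1) ≤ ∑ r ∈ Finset.range J, sm r := by
  rcases Nat.eq_zero_or_pos J with rfl | hJ
  · simp
  have hT : 1 ≤ 2 * J := by omega
  have h1 := flux (T := 2 * J) (J := J) hT (by omega)
  have h2 : ∑ n ∈ Finset.range J, Br (2 * n + 1) ≤
      2 * Real.cos (Real.pi / 8) * ∑ n ∈ Finset.range J, mq (Dm (2 * J) (.I n) .no) 1 := by
    rw [Finset.mul_sum]
    refine Finset.sum_le_sum fun n hn => ?_
    rw [Finset.mem_range] at hn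
    exact wall_ge (by omega)
  have h3 := br_half J
  have hc := c8_pos
  have hs := sin8_pos
  have hcc := c8_le
  have hss := s8_ge
  set X := ∑ n ∈ Finset.range J, mq (Dm (2 * J) (.I n) .no) 1
  set Y := ∑ r ∈ Finset.range J, sm r
  set B := ∑ n ∈ Finset.range J, Br (2 * n + 1)
  set U := ∑ T ∈ Finset.range J, Br (T + 1)
  set s := Real.sin (Real.pi / 8)
  set c := Real.cos (Real.pi / 8)
  have hU : 0 ≤ U := Finset.sum_nonneg fun i _ => Br_nonneg _
  have hY : 0 ≤ Y := Finset.sum_nonneg fun i _ => ENNReal.toReal_nonneg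
  -- U ≤ 2 B ≤ 4 c X, s X ≤ c Y, so s U ≤ 4 c c Y
  have h4 : s * U ≤ 4 * (c * c) * Y := by
    have h5 : U ≤ 4 * c * X := by linarith
    have h6 : s * U ≤ s * (4 * c * X) := mul_le_mul_of_nonneg_left h5 hs.le
    have h7 : s * (4 * c * X) = 4 * c * (s * X) := by ring
    have h8 : 4 * c * (s * X) ≤ 4 * c * (c * Y) := mul_le_mul_of_nonneg_left h1 (by positivity)
    nlinarith
  have h9 : 4 * (c * c) * Y ≤ 7 / 2 * Y := by nlinarith
  have h10 : 19 / 50 * U ≤ s * U := mul_le_mul_of_nonneg_right hss hU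
  linarith

end Pool.Agent.W832.HR
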