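import Pool.Agent.W832.HR.Meas
import Pool.Agent.H978R2.Hex.Potential

set_option autoImplicit false

/-! The identity of the critical observable in strips with walls; monotonicity. -/

namespace Pool.Agent.W832.HR

open H978R2.Hex Pool.Agent.W818.TD
open scoped ENNReal

theorem LW_land {T : ℕ} (hT : 1 ≤ T) {u l : Wall} {w : List V} (h : w ∈ LW (Dm T u l)) :
    ∃ z v K, w = z :: v :: (K ++ [(0, 0)]) ∧ LandD (Dm T u l) z v K := by
  obtain ⟨z, v, K, e, a1, a2, a3, a4, a5, a6⟩ := land_struct (base_Dm hT u l) h.1 h.2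
  refine ⟨z, v, K, e, a1, a2, a3, a4, a5, ?_, a6⟩
  have := h.2
  rw [e] at this
  exact this

/-- landing positions -/
theorem LW_cls {T : ℕ} (hT : 1 ≤ T) {u l : Wall} {w : List V} (h : w ∈ LW (Dm T u l)) :
    ((w.headD (0, 0)).1 - (w.headD (0, 0)).2 = 0 ∧ 1 ≤ (w.headD (0, 0)).2 ∧ W w = 3) ∨
    ((w.headD (0, 0)).1 - (w.headD (0, 0)).2 = 0 ∧ (w.headD (0, 0)).2 ≤ -1 ∧ W w = -3) ∨
    ((w.headD (0, 0)).1 - (w.headD (0, 0)).2 = 2 * (T : ℤ) + 1 ∧ W w = 0) ∨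
    (¬ Up u (w.headD (0, 0)) ∧ 1 ≤ (w.headD (0, 0)).1 - (w.headD (0, 0)).2 ∧
      (w.headD (0, 0)).1 - (w.headD (0, 0)).2 ≤ 2 * (T : ℤ) ∧ u ≠ .no ∧ W w = ku u) ∨
    (¬ Lo l (w.headD (0, 0)) ∧ 1 ≤ (w.headD (0, 0)).1 - (w.headD (0, 0)).2 ∧
      (w.headD (0, 0)).1 - (w.headD (0, 0)).2 ≤ 2 * (T : ℤ) ∧ l ≠ .no ∧ W w = -ku l) := by
  obtain ⟨z, v, K, rfl, hD⟩ := LW_land hT h
  exact cls hT hD

theorem rg_Dm {T : ℕ} (hT : 1 ≤ T) (u l : Wall) :
    ∀ w ∈ LW (Dm T u l), -3 ≤ W w ∧ W w ≤ 3 := by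
  intro w hw
  obtain ⟨z, v, K, rfl, hD⟩ := LW_land hT hw
  exact wind_range (good hT u l) hD

theorem idn_finite {T : ℕ} (hT : 1 ≤ T) {u l : Wall} (hu : u ≠ .no) (hl : l ≠ .no) :
    Idn (Dm T u l) := by
  obtain ⟨n, hn⟩ : ∃ n : ℤ, ∀ v, Dm T u l v → v.2 ≤ n := by
    match u, hu with
    | .I n, _ =>
      refine ⟨n, fun v hv => ?_⟩
      have h1 := hv.1
      have h2 := hv.2.2.1
      simp only [Up] at h2
      omega
    | .O n, _ => exact ⟨n, fun v hv => hv.2.2.1⟩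
  obtain ⟨m, hm⟩ : ∃ m : ℤ, ∀ v, Dm T u l v → m ≤ v.2 := by
    match l, hl with
    | .I n, _ => exact ⟨-(n : ℤ), fun v hv => hv.2.2.2⟩
    | .O n, _ =>
      refine ⟨-(n : ℤ) - T, fun v hv => ?_⟩
      have h1 := hv.2.1
      have h2 := hv.2.2.2
      simp only [Lo] at h2
      omega
  refine idn_fin (good hT u l) (Finset.Icc (1 + m) (2 * T + n) ×ˢ Finset.Icc m n) ?_
  intro v hv
  have h1 := hn v hv
  have h2 := hm v hv
  have h3 := hv.1
  have h4 := hv.2.1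
  rw [Finset.mem_product, Finset.mem_Icc, Finset.mem_Icc]
  omega

theorem sin_pi8_ne : Real.sin (Real.pi / 8) ≠ 0 := sin8_pos.ne'

theorem idn_lower {T : ℕ} (hT : 1 ≤ T) {u : Wall} (h1 : ∀ n, Idn (Dm T u (.I n)))
    (h2 : ∀ n, Idn (Dm T u (.O n))) : Idn (Dm T u .no) := by
  have key : ∀ (f : ℕ → Wall) (k0 : ℤ), (∀ n, Idn (Dm T u (f n))) → (∀ n, ku (f n) = -k0) →
      (∀ n v, Lo (f n) v → Lo (f (n + 1)) v) → (∀ v, ∃ n, Lo (f n) v) →
      ma (LW (Dm T u .no)) ≤ ENNReal.ofReal (1 / c3) ∧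
      ∑ k ∈ Finset.Icc (-3 : ℤ) 3,
      Real.sin ((k : ℝ) * (Real.pi / 8) - (k0 : ℝ) * (Real.pi / 8)) * mq (Dm T u .no) k =
      -Real.sin ((k0 : ℝ) * (Real.pi / 8)) := by
    intro f k0 hI hk hmono hex
    refine lim_sin (On := fun n => Dm T u (f n)) k0 ?_ ?_ hI ?_
    · rintro n v ⟨a1, a2, a3, a4⟩
      exact ⟨a1, a2, a3, hmono n v a4⟩
    · intro v
      constructor
      · rintro ⟨a1, a2, a3, a4⟩
        obtain ⟨n, hn⟩ := hex v
        exact ⟨n, a1, a2, a3, hn⟩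
      · rintro ⟨n, a1, a2, a3, a4⟩
        exact ⟨a1, a2, a3, trivial⟩
    · intro n w hw hOm
      obtain ⟨a1, a2, a3, a4⟩ := hOm
      rcases LW_cls hT hw with h | h | h | h | h
      · omega
      · omega
      · omega
      · exact absurd a3 h.1
      · rw [h.2.2.2.2, hk n, neg_neg]
  refine idn_of_two (-1) (-2) (rg_Dm hT u .no) ?_ (key (fun n => .I n) (-1) h1 (fun n => rfl) ?_ ?_)
    (key (fun n => .O n) (-2) h2 (fun n => rfl) ?_ ?_)
  · have : ((-1 : ℤ) : ℝ) * (Real.pi / 8) - ((-2 : ℤ) : ℝ) * (Real.pi / 8) = Real.pi / 8 := by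
      push_cast; ring
    rw [this]
    exact sin_pi8_ne
  · intro n v h
    simp only [Lo] at h ⊢
    push_cast
    omega
  · intro v
    refine ⟨(-v.2).toNat, ?_⟩
    simp only [Lo]
    omega
  · intro n v h
    simp only [Lo] at h ⊢
    push_cast
    omega
  · intro v
    refine ⟨(-(v.1 + v.2)).toNat, ?_⟩
    simp only [Lo]
    omega

theorem idn_upper {T : ℕ} (hT : 1 ≤ T) {l : Wall} (h1 : ∀ n, Idn (Dm T (.I n) l))
    (h2 : ∀ n, Idn (Dm T (.O n) l)) : Idn (Dm T .no l) := by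
  have key : ∀ (f : ℕ → Wall) (k0 : ℤ), (∀ n, Idn (Dm T (f n) l)) → (∀ n, ku (f n) = k0) →
      (∀ n v, Up (f n) v → Up (f (n + 1)) v) → (∀ v, ∃ n, Up (f n) v) →
      ma (LW (Dm T .no l)) ≤ ENNReal.ofReal (1 / c3) ∧
      ∑ k ∈ Finset.Icc (-3 : ℤ) 3,
      Real.sin ((k : ℝ) * (Real.pi / 8) - (k0 : ℝ) * (Real.pi / 8)) * mq (Dm T .no l) k =
      -Real.sin ((k0 : ℝ) * (Real.pi / 8)) := by
    intro f k0 hI hk hmono hex
    refine lim_sin (On := fun n => Dm T (f n) l) k0 ?_ ?_ hI ?_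
    · rintro n v ⟨a1, a2, a3, a4⟩
      exact ⟨a1, a2, hmono n v a3, a4⟩
    · intro v
      constructor
      · rintro ⟨a1, a2, a3, a4⟩
        obtain ⟨n, hn⟩ := hex v
        exact ⟨n, a1, a2, hn, a4⟩
      · rintro ⟨n, a1, a2, a3, a4⟩
        exact ⟨a1, a2, trivial, a4⟩
    · intro n w hw hOm
      obtain ⟨a1, a2, a3, a4⟩ := hOm
      rcases LW_cls hT hw with h | h | h | h | h
      · omega
      · omega
      · omega
      · rw [h.2.2.2.2, hk n]
      · exact absurd a4 h.1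
  refine idn_of_two 1 2 (rg_Dm hT .no l) ?_ (key (fun n => .I n) 1 h1 (fun n => rfl) ?_ ?_)
    (key (fun n => .O n) 2 h2 (fun n => rfl) ?_ ?_)
  · have : ((1 : ℤ) : ℝ) * (Real.pi / 8) - ((2 : ℤ) : ℝ) * (Real.pi / 8) = -(Real.pi / 8) := by
      push_cast; ring
    rw [this, Real.sin_neg]
    exact neg_ne_zero.2 sin_pi8_ne
  · intro n v h
    simp only [Up] at h ⊢
    push_cast
    omega
  · intro v
    refine ⟨(v.1 + v.2).toNat, ?_⟩
    simp only [Up]
    omega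
  · intro n v h
    simp only [Up] at h ⊢
    push_cast
    omega
  · intro v
    refine ⟨(v.2).toNat, ?_⟩
    simp only [Up]
    omega

/-- **the identity in all strips with walls** -/
theorem idn {T : ℕ} (hT : 1 ≤ T) (u l : Wall) : Idn (Dm T u l) := by
  have hI : ∀ (u : Wall), u ≠ .no → ∀ l, Idn (Dm T u l) := by
    intro u hu l
    match l with
    | .no =>
      exact idn_lower hT (fun n => idn_finite hT hu (by simp))
        (fun n => idn_finite hT hu (by simp))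
    | .I n => exact idn_finite hT hu (by simp)
    | .O n => exact idn_finite hT hu (by simp)
  match u with
  | .no => exact idn_upper hT (fun n => hI _ (by simp) l) (fun n => hI _ (by simp) l)
  | .I n => exact hI _ (by simp) l
  | .O n => exact hI _ (by simp) l

/-- classes without landings -/
theorem mq_zero {T : ℕ} (hT : 1 ≤ T) {u l : Wall} {k : ℤ} (h3 : k ≠ 3) (h3' : k ≠ -3)
    (h0 : k ≠ 0) (hu : u ≠ .no → k ≠ ku u) (hl : l ≠ .no → k ≠ -ku l) : mq (Dm T u l) k = 0 := by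
  have : LK (Dm T u l) k = ∅ := by
    rw [Set.eq_empty_iff_forall_notMem]
    rintro w ⟨hw, hk⟩
    rcases LW_cls hT hw with h | h | h | h | h
    · exact h3 (hk.symm.trans h.2.2)
    · exact h3' (hk.symm.trans h.2.2)
    · exact h0 (hk.symm.trans h.2)
    · exact hu h.2.2.2.1 (hk.symm.trans h.2.2.2.2)
    · exact hl h.2.2.2.1 (hk.symm.trans h.2.2.2.2)
  unfold mq
  rw [this, ma_empty]
  rfl

theorem Icc_sum (f : ℤ → ℝ) : ∑ k ∈ Finset.Icc (-3 : ℤ) 3, f k =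
    f (-3) + f (-2) + f (-1) + f 0 + f 1 + f 2 + f 3 := by
  have : Finset.Icc (-3 : ℤ) 3 = {-3, -2, -1, 0, 1, 2, 3} := by decide
  rw [this, Finset.sum_insert (by decide), Finset.sum_insert (by decide),
    Finset.sum_insert (by decide), Finset.sum_insert (by decide), Finset.sum_insert (by decide),
    Finset.sum_insert (by decide), Finset.sum_singleton]
  ring

/-- the two real identities -/
theorem Idn.re_im {Om : V → Prop} (h : Idn Om) :
    c3 * (mq Om 3 + mq Om (-3)) + mq Om 0 + Real.cos (Real.pi / 8) * (mq Om 1 + mq Om (-1)) +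
      Real.cos (Real.pi / 4) * (mq Om 2 + mq Om (-2)) = 1 ∧
    Real.cos (Real.pi / 8) * (mq Om 3 - mq Om (-3)) +
      Real.sin (Real.pi / 8) * (mq Om 1 - mq Om (-1)) +
      Real.sin (Real.pi / 4) * (mq Om 2 - mq Om (-2)) = 0 := by
  have h0 := h.eq 0
  have h1 := h.eq (Real.pi / 2)
  rw [Icc_sum] at h0 h1
  have s3 : Real.sin (3 * (Real.pi / 8)) = Real.cos (Real.pi / 8) := by
    rw [← Real.cos_pi_div_two_sub]
    congr 1
    ring
  have hc : ∀ x : ℝ, Real.sin (x - Real.pi / 2) = -Real.cos x := by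
    intro x
    rw [Real.sin_sub_pi_div_two]
  simp only [hc, Real.sin_pi_div_two] at h1
  simp only [sub_zero, Real.sin_zero, neg_zero] at h0
  have e1 : ((-3 : ℤ) : ℝ) * (Real.pi / 8) = -(3 * (Real.pi / 8)) := by push_cast; ring
  have e2 : ((-2 : ℤ) : ℝ) * (Real.pi / 8) = -(Real.pi / 4) := by push_cast; ring
  have e3 : ((-1 : ℤ) : ℝ) * (Real.pi / 8) = -(Real.pi / 8) := by push_cast; ring
  have e4 : ((0 : ℤ) : ℝ) * (Real.pi / 8) = 0 := by push_cast; ring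
  have e5 : ((1 : ℤ) : ℝ) * (Real.pi / 8) = Real.pi / 8 := by push_cast; ring
  have e6 : ((2 : ℤ) : ℝ) * (Real.pi / 8) = Real.pi / 4 := by push_cast; ring
  have e7 : ((3 : ℤ) : ℝ) * (Real.pi / 8) = 3 * (Real.pi / 8) := by push_cast; ring
  rw [e1, e2, e3, e4, e5, e6, e7] at h0 h1
  simp only [Real.sin_neg, Real.cos_neg, Real.sin_zero, Real.cos_zero, s3] at h0 h1
  unfold c3
  constructor
  · linarith
  · linarith

end Pool.Agent.W832.HR
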