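import Pool.Agent.W832.HR.Ext

set_option autoImplicit false

/-! Lower bound for the mass of the bridges: `1 / (4 T)`. -/

namespace Pool.Agent.W832.HR

open H978R2.Hex Pool.Agent.W818.TD
open scoped ENNReal

theorem val_suffix {D : V → Prop} : ∀ (L : List V) {s : List V}, 2 ≤ s.length →
    Val D (L ++ s) → Val D s
  | [], _, _, h => h
  | a :: L, s, hs, h => by
    apply val_suffix L hs
    have h2 : 2 ≤ (L ++ s).length := by
      rw [List.length_append]
      omega
    rw [List.cons_append] at h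
    generalize L ++ s = q at h h2 ⊢
    match q, h, h2 with
    | y :: x :: t, h, _ => exact h.2.2.2.2

theorem no_odd {T : ℕ} (hT : 1 ≤ T) : ∀ {w : List V},
    Val (fun v => 1 ≤ v.1 - v.2 ∧ v.1 - v.2 ≤ 2 * (T : ℤ) + 1) w →
    (w.headD (0, 0)).1 - (w.headD (0, 0)).2 ≤ 2 * (T : ℤ) → Val (Dm T .no .no) w
  | [], h, _ => h.elim
  | [_], h, _ => h.elim
  | [_, _], h, _ => h
  | z :: y :: x :: t, h, hz => by
    obtain ⟨h1, h2, h3, h4, h5⟩ := h
    simp only [List.headD_cons] at hz
    have hx : 1 ≤ x.1 - x.2 ∧ x.1 - x.2 ≤ 2 * (T : ℤ) + 1 ∨ y.1 - y.2 = 1 := by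
      match t, h5 with
      | [], h5 =>
        right
        rw [h5.1]
        simp
      | x' :: t', h5 =>
        match x', t', h5 with
        | x', [], h5 =>
          left
          have h6 := h5.2.2.1
          exact h6
        | x', x'' :: t'', h5 =>
          left
          exact h5.2.2.1
    have hadx : Adj x y := by
      have := (Val_chain h5).1
      exact (List.isChain_cons_cons.1 this).1
    have hy : y.1 - y.2 ≤ 2 * (T : ℤ) := by
      by_contra hc
      have h6 := h3.2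
      rw [adj_iff] at h1 hadx
      have hTT : (1 : ℤ) ≤ T := by exact_mod_cast hT
      apply h2
      apply Prod.ext
      · rcases hx with hx | hx
        · omega
        · omega
      · rcases hx with hx | hx
        · omega
        · omega
    refine ⟨h1, h2, ⟨h3.1, hy, trivial, trivial⟩, h4, ?_⟩
    exact no_odd hT h5 hy

theorem exists_top {T : ℕ} (hT : 1 ≤ T) {w : List V}
    (hw : w ∈ Ac (T + 1) .no .no \ Ac T .no .no) :
    ∃ v ∈ w.tail.dropLast, v.1 - v.2 = 2 * ((T : ℤ) + 1) := by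
  by_contra hc
  push Not at hc
  obtain ⟨⟨h1, h2⟩, h3⟩ := hw
  apply h3
  refine ⟨no_odd hT (Val_dom' h1 ?_) ?_, h2⟩
  · intro v hv
    have h4 := (Val_tail h1).2 v hv
    have h5 := hc v hv
    have h6 := h4.2.1
    push_cast at h6
    exact ⟨h4.1, by omega⟩
  · unfold Hp at h2
    omega

/-- cut of a walk at a vertex of the top level -/
theorem cut_mem {T : ℕ} (hT : 1 ≤ T) {z v : V} {L1 L2 : List V}
    (hw : Val (Dm T .no .no) (z :: (L1 ++ v :: (L2 ++ [(0, 0)]))))
    (hv : v.1 - v.2 = 2 * (T : ℤ)) :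
    (v + (1, 0)) :: v :: (L2 ++ [(0, 0)]) ∈ LK (Dm T .no .no) 0 := by
  have h1 : Val (Dm T .no .no) (v :: (L2 ++ [(0, 0)])) := by
    have e : z :: (L1 ++ v :: (L2 ++ [((0, 0) : V)])) = (z :: L1) ++ (v :: (L2 ++ [(0, 0)])) := rfl
    rw [e] at hw
    exact val_suffix _ (by simp) hw
  have hmem := (Val_tail hw).2
  have hnd := (Val_tail hw).1
  have e2 : (z :: (L1 ++ v :: (L2 ++ [((0, 0) : V)]))).tail.dropLast = L1 ++ v :: L2 := by
    rw [List.tail_cons]
    have : L1 ++ v :: (L2 ++ [((0, 0) : V)]) = (L1 ++ v :: L2) ++ [(0, 0)] := by simp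
    rw [this, List.dropLast_concat]
  rw [e2] at hmem
  rw [List.tail_cons] at hnd
  have hDv : Dm T .no .no v := hmem v (by simp)
  have hlev : ∀ x ∈ L2 ++ [((0, 0) : V)], x.1 - x.2 ≤ 2 * (T : ℤ) := by
    intro x hx
    rw [List.mem_append, List.mem_singleton] at hx
    rcases hx with hx | hx
    · exact (hmem x (by simp [hx])).2.1
    · rw [hx]
      simp only
      omega
  have hval : Val (Dm T .no .no) ((v + (1, 0)) :: v :: (L2 ++ [(0, 0)])) := by
    obtain ⟨x, t, hxt⟩ : ∃ x t, L2 ++ [((0, 0) : V)] = x :: t := by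
      match L2 with
      | [] => exact ⟨_, _, rfl⟩
      | a :: L => exact ⟨_, _, rfl⟩
    rw [hxt] at h1 hlev ⊢
    refine ⟨?_, ?_, hDv, ?_, h1⟩
    · rw [adj_iff]
      simp
    · intro e
      have := hlev x List.mem_cons_self
      rw [← e] at this
      simp only [Prod.fst_add, Prod.snd_add] at this
      omega
    · rw [hxt] at hnd
      have h2 := (List.nodup_append.1 hnd).2.1
      exact (List.nodup_cons.1 h2).1
  have hLW : (v + (1, 0)) :: v :: (L2 ++ [(0, 0)]) ∈ LW (Dm T .no .no) := by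
    refine ⟨hval, ?_⟩
    intro h
    have := h.2.1
    simp only [List.headD_cons, Prod.fst_add, Prod.snd_add] at this
    omega
  refine ⟨hLW, ?_⟩
  have h3 := LW_cls hT hLW
  simp only [List.headD_cons, Prod.fst_add, Prod.snd_add] at h3
  rcases h3 with b | b | b | b | b
  · omega
  · omega
  · exact b.2
  · exact absurd trivial b.1
  · exact absurd trivial b.1

theorem head_Hp' {w : List V} (h : w ∈ LW Hp) :
    (w.headD (0, 0)).1 = (w.headD (0, 0)).2 ∧ (w.headD (0, 0)).2 ≠ 0 := by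
  have hb : Hp (1, 0) := by unfold Hp; simp
  obtain ⟨z, v, K, e, a1, a2, a3, a4, a5, a6⟩ := land_struct hb h.1 h.2
  have hz := h.2
  rw [e] at hz ⊢
  simp only [List.headD_cons] at hz ⊢
  have hv : Hp v := a4 v List.mem_cons_self
  have hz' : ¬ (1 ≤ z.1 - z.2) := hz
  have hv' : 1 ≤ v.1 - v.2 := hv
  have ha := a1
  rw [adj_iff] at ha
  have h1 : z.1 = z.2 := by omega
  refine ⟨h1, ?_⟩
  intro h0
  have hz0 : z = (0, 0) := by
    apply Prod.ext
    · simp only; omega
    · simp only; omega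
  have hv1 : v = (1, 0) := by
    apply Prod.ext
    · simp only; omega
    · simp only; omega
  have hK : K ≠ [] := fun e => a6 e hz0
  rw [List.getLast_cons hK] at a5
  have hmem : (1, 0) ∈ K := a5 ▸ List.getLast_mem hK
  rw [List.nodup_cons] at a3
  apply a3.1
  rw [hv1]
  exact List.mem_append_left _ hmem

theorem arc_cut {T : ℕ} (hT : 1 ≤ T) {w : List V}
    (hw : w ∈ Ac (T + 1) .no .no \ Ac T .no .no) :
    ∃ (j : ℤ) (v : V) (L1 L2 : List V), w = (j, j) :: (L1 ++ v :: (L2 ++ [(0, 0)])) ∧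
      ((v + (1, 0)) :: v :: (L2 ++ [(0, 0)]) ∈ LK (Dm (T + 1) .no .no) 0) ∧
      ((v + (-j, -j) + (1, 0)) :: (v + (-j, -j)) ::
        ((L1.map (fun v => v + (-j, -j))).reverse ++ [(0, 0)]) ∈ LK (Dm (T + 1) .no .no) 0) := by
  obtain ⟨v, hv, hlev⟩ := exists_top hT hw
  have hT1 : 1 ≤ T + 1 := by omega
  have hAc := hw.1
  have hLW : w ∈ LW Hp := ⟨Val_mono (fun v hv => Dm_Hp hv) hAc.1, hAc.2⟩
  obtain ⟨hh1, hh2⟩ := head_Hp' hLW
  obtain ⟨L1, L2, hL⟩ := List.append_of_mem hv
  have hsh : w = (w.headD (0, 0)) :: (L1 ++ v :: (L2 ++ [(0, 0)])) := by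
    obtain ⟨-, -, -, M, hM⟩ := Val_chain hAc.1
    match M, hM with
    | [], hM =>
      rw [hM] at hv
      simp only [List.nil_append, List.tail_cons] at hv
      simp at hv
    | z :: M', hM =>
      have e1 : w = z :: ((M' ++ [(1, 0)]) ++ [(0, 0)]) := by
        rw [hM]
        simp
      have e2 : w.tail.dropLast = M' ++ [(1, 0)] := by
        rw [e1, List.tail_cons, List.dropLast_concat]
      rw [e2] at hL
      rw [hL] at e1
      conv_lhs => rw [e1]
      rw [e1]
      simp
  set j := (w.headD (0, 0)).2 with hj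
  have hz : w.headD (0, 0) = (j, j) := by
    apply Prod.ext
    · exact hh1
    · rfl
  rw [hz] at hsh
  refine ⟨j, v, L1, L2, hsh, ?_, ?_⟩
  · apply cut_mem (z := (j, j)) (L1 := L1) hT1
    · rw [← hsh]
      exact hAc.1
    · rw [hlev]
      push_cast
      ring
  · have hA : w ∈ Aj (Dm (T + 1) .no .no) (-(-j)) := ⟨hAc.1, by rw [hz, neg_neg]⟩
    have hr := rev_mem (D' := Dm (T + 1) .no .no) (fun v hv => hv.1) (by
      intro h0
      exact hh2 (by omega)) (by
      intro v hv
      refine ⟨?_, ?_, trivial, trivial⟩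
      · have := hv.1
        simp only [Prod.fst_add, Prod.snd_add]
        omega
      · have := hv.2.1
        simp only [Prod.fst_add, Prod.snd_add]
        omega) hA
    have e3 : rv (-j, -j) w = (-j, -j) :: ((L2.map (fun v => v + (-j, -j))).reverse ++
        (v + (-j, -j)) :: ((L1.map (fun v => v + (-j, -j))).reverse ++ [(0, 0)])) := by
      rw [hsh]
      unfold rv
      simp
    have hval := hr.1
    rw [e3] at hval
    apply cut_mem hT1 hval
    simp only [Prod.fst_add, Prod.snd_add]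
    push_cast
    omega

theorem arc_split {T : ℕ} (hT : 1 ≤ T) : ma (Ac (T + 1) .no .no \ Ac T .no .no) ≤
    ENNReal.ofReal mu0 * (ma (LK (Dm (T + 1) .no .no) 0) * ma (LK (Dm (T + 1) .no .no) 0)) := by
  set E := Ac (T + 1) .no .no \ Ac T .no .no with hE
  set BB := LK (Dm (T + 1) .no .no) 0 with hBB
  choose j v L1 L2 h1 h2 h3 using fun w : E => arc_cut hT w.2
  let f : E → BB × BB := fun w => (⟨_, h2 w⟩, ⟨_, h3 w⟩)
  have hf : Function.Injective f := by
    intro w w' h
    have e1 := congrArg (fun p : BB × BB => (p.1 : List V)) h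
    have e2 := congrArg (fun p : BB × BB => (p.2 : List V)) h
    simp only [f, List.cons.injEq] at e1 e2
    obtain ⟨-, a2, a3⟩ := e1
    obtain ⟨-, b2, b3⟩ := e2
    have hj : j w = j w' := by
      rw [a2] at b2
      have := congrArg Prod.fst (add_left_cancel b2)
      simp only at this
      omega
    rw [hj] at b3
    have b4 := List.reverse_injective (List.append_cancel_right b3)
    have b5 : L1 w = L1 w' :=
      List.map_injective_iff.2 (fun _ _ e => add_right_cancel e) b4
    have a4 : L2 w = L2 w' := List.append_cancel_right a3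
    apply Subtype.ext
    rw [h1 w, h1 w', hj, b5, a2, a4]
  have hwt : ∀ w : E, ENNReal.ofReal (wt w.1) = ENNReal.ofReal mu0 *
      (ENNReal.ofReal (wt (f w).1.1) * ENNReal.ofReal (wt (f w).2.1)) := by
    intro w
    rw [← ENNReal.ofReal_mul (wt_nonneg _), ← ENNReal.ofReal_mul mu0_pos.le]
    congr 1
    have hl := congrArg List.length (h1 w)
    simp only [List.length_cons, List.length_append, List.length_nil] at hl
    unfold wt
    simp only [f, List.length_cons, List.length_append, List.length_reverse, List.length_map,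
      List.length_nil]
    have e1 : w.1.length - 2 = (L1 w).length + (L2 w).length + 1 := by omega
    have e2 : (L2 w).length + (0 + 1) + 1 + 1 - 2 = (L2 w).length + 1 := by omega
    have e3 : (L1 w).length + (0 + 1) + 1 + 1 - 2 = (L1 w).length + 1 := by omega
    rw [e1, e2, e3, pow_succ, pow_succ, pow_succ, pow_add]
    have := mu0_pos.ne'
    field_simp
  unfold ma
  rw [tsum_congr hwt, ENNReal.tsum_mul_left]
  gcongr
  refine (ENNReal.tsum_comp_le_tsum_of_injective hf (fun p : BB × BB =>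
    ENNReal.ofReal (wt p.1.1) * ENNReal.ofReal (wt p.2.1))).trans (le_of_eq ?_)
  have h5 := ENNReal.tsum_prod (f := fun (p q : BB) =>
    ENNReal.ofReal (wt p.1) * ENNReal.ofReal (wt q.1))
  refine h5.trans ?_
  simp only [ENNReal.tsum_mul_left, ENNReal.tsum_mul_right]

theorem mu_c3 : mu0 * c3 ≤ 3 / 4 := by
  rw [c3_eq]
  have h1 := mu0_sq
  have h2 := s8sq
  have h3 := sin8_pos
  have h4 := mu0_pos
  have h5 := s2sq
  have h6 : (mu0 * Real.sin (Real.pi / 8)) * (mu0 * Real.sin (Real.pi / 8)) = 1 / 2 := by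
    have : (mu0 * Real.sin (Real.pi / 8)) * (mu0 * Real.sin (Real.pi / 8)) =
        (mu0 * mu0) * (Real.sin (Real.pi / 8) * Real.sin (Real.pi / 8)) := by ring
    rw [this, h1, h2]
    linarith
  nlinarith [mul_pos h4 h3]

theorem br_step {T : ℕ} (hT : 1 ≤ T) : Br T ≤ Br (T + 1) + 3 / 4 * (Br (T + 1) * Br (T + 1)) := by
  have hT1 : 1 ≤ T + 1 := by omega
  have h1 := arc_split hT
  have hB : ma (LK (Dm (T + 1) .no .no) 0) ≠ ⊤ := (idn hT1 .no .no).ne_top LK_sub
  have h2 := ENNReal.toReal_mono (ENNReal.mul_ne_top ENNReal.ofReal_ne_top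
    (ENNReal.mul_ne_top hB hB)) h1
  have s1 : Ac T .no .no ⊆ Ac (T + 1) .no .no := fun w hw =>
    ⟨Val_mono (fun v hv => Dm_mono (Nat.le_succ T) hv) hw.1, hw.2⟩
  rw [ma_diff s1 (Ac_ne_top hT1 _ _), Ac_ma hT, Ac_ma hT1, (strip_id hT).1, (strip_id hT1).1,
    ENNReal.toReal_mul, ENNReal.toReal_mul, ENNReal.toReal_ofReal mu0_pos.le] at h2
  have e1 : mq (Dm T .no .no) 3 = Ar T := rfl
  have e2 : mq (Dm (T + 1) .no .no) 3 = Ar (T + 1) := rfl
  have e3 : (ma (LK (Dm (T + 1) .no .no) 0)).toReal = Br (T + 1) := rfl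
  rw [e1, e2, e3] at h2
  have g1 := (strip_id hT).2
  have g2 := (strip_id hT1).2
  have h3 := mul_le_mul_of_nonneg_left h2 c3_pos.le
  have h4 : c3 * (mu0 * (Br (T + 1) * Br (T + 1))) ≤ 3 / 4 * (Br (T + 1) * Br (T + 1)) := by
    have := mul_le_mul_of_nonneg_right mu_c3 (mul_nonneg (Br_nonneg (T + 1)) (Br_nonneg (T + 1)))
    linarith
  linarith

/-- **lower bound** -/
theorem br_lower {T : ℕ} (hT : 1 ≤ T) : 0 < Br T ∧ 1 / Br T ≤ 4 * (T : ℝ) - 1 / 2 := by
  induction T, hT using Nat.le_induction with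
  | base =>
    have h := Br_one
    have h0 : 0 < Br 1 := by linarith
    refine ⟨h0, ?_⟩
    rw [div_le_iff₀ h0]
    push_cast
    linarith
  | succ T hT ih =>
    obtain ⟨h1, h2⟩ := ih
    have h3 := br_step hT
    have h4 : 0 < Br (T + 1) := by
      rcases (Br_nonneg (T + 1)).lt_or_eq with h | h
      · exact h
      · rw [← h] at h3
        linarith
    have h5 := Br_anti hT (Nat.le_succ T)
    refine ⟨h4, ?_⟩
    have h6 : 1 / Br (T + 1) ≤ 1 / Br T + 3 / 4 := by
      have h7 : 1 / Br (T + 1) - 1 / Br T = (Br T - Br (T + 1)) / (Br T * Br (T + 1)) := by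
        field_simp
      have h8 : (Br T - Br (T + 1)) / (Br T * Br (T + 1)) ≤ 3 / 4 := by
        rw [div_le_iff₀ (mul_pos h1 h4)]
        have : Br (T + 1) * Br (T + 1) ≤ Br T * Br (T + 1) :=
          mul_le_mul_of_nonneg_right h5 h4.le
        linarith
      linarith
    push_cast
    linarith

theorem Br_ge {T : ℕ} (hT : 1 ≤ T) : 1 / (4 * (T : ℝ)) ≤ Br T := by
  obtain ⟨h1, h2⟩ := br_lower hT
  have h3 : 1 / Br T ≤ 4 * (T : ℝ) := by linarith
  have hT' : (0 : ℝ) < 4 * T := by positivity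
  rw [div_le_iff₀ hT']
  rw [div_le_iff₀ h1] at h3
  linarith

end Pool.Agent.W832.HR
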