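import Pool.Agent.W832.HR.Dom

set_option autoImplicit false

/-! The critical measure on walks. -/

namespace Pool.Agent.W832.HR

open H978R2.Hex Pool.Agent.W818.TD MeasureTheory Filter Topology
open scoped ENNReal

/-- total critical weight of a set of walks -/
noncomputable def ma (A : Set (List V)) : ℝ≥0∞ := ∑' l : A, ENNReal.ofReal (wt l)

section meas

local instance instMS : MeasurableSpace (List V) := ⊤

/-- the critical measure -/
noncomputable def cm : Measure (List V) :=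
  Measure.sum (fun l => ENNReal.ofReal (wt l) • Measure.dirac l)

theorem ms_any (A : Set (List V)) : MeasurableSet A := trivial

theorem cm_apply (A : Set (List V)) : cm A = ma A := by
  unfold cm ma
  rw [Measure.sum_apply _ (ms_any A), tsum_subtype A (fun l => ENNReal.ofReal (wt l))]
  refine tsum_congr fun l => ?_
  rw [Measure.smul_apply, Measure.dirac_apply' _ (ms_any A), smul_eq_mul]
  by_cases h : l ∈ A
  · rw [Set.indicator_of_mem h, Set.indicator_of_mem h]
    simp
  · rw [Set.indicator_of_notMem h, Set.indicator_of_notMem h]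
    simp

theorem ma_mono {A B : Set (List V)} (h : A ⊆ B) : ma A ≤ ma B := by
  rw [← cm_apply, ← cm_apply]
  exact measure_mono h

theorem ma_empty : ma (∅ : Set (List V)) = 0 := by
  rw [← cm_apply, measure_empty]

theorem ma_union {A B : Set (List V)} (h : Disjoint A B) : ma (A ∪ B) = ma A + ma B := by
  rw [← cm_apply, ← cm_apply, ← cm_apply]
  exact measure_union h (ms_any B)

theorem ma_union_le (A B : Set (List V)) : ma (A ∪ B) ≤ ma A + ma B := by
  rw [← cm_apply, ← cm_apply, ← cm_apply]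
  exact measure_union_le A B

theorem ma_tendsto {A : ℕ → Set (List V)} (h : Monotone A) :
    Tendsto (fun n => ma (A n)) atTop (𝓝 (ma (⋃ n, A n))) := by
  have := tendsto_measure_iUnion_atTop (μ := cm) h
  rw [cm_apply] at this
  refine this.congr fun n => ?_
  simp only [Function.comp_apply, cm_apply]

theorem ma_iUnion {ι : Type*} [Countable ι] {A : ι → Set (List V)}
    (h : Pairwise (Function.onFun Disjoint A)) : ma (⋃ i, A i) = ∑' i, ma (A i) := by
  rw [← cm_apply, measure_iUnion h (fun i => ms_any _)]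
  simp only [cm_apply]

end meas

theorem ma_finset (F : Finset (List V)) : ma (F : Set (List V)) = ENNReal.ofReal (ms F) := by
  unfold ma ms
  rw [ENNReal.ofReal_sum_of_nonneg (fun l _ => wt_nonneg l)]
  exact F.tsum_subtype (fun l => ENNReal.ofReal (wt l))

theorem ma_le_of_inj {A B : Set (List V)} (f : List V → List V) (hi : Set.InjOn f A)
    (hm : ∀ l ∈ A, f l ∈ B) (hl : ∀ l ∈ A, (f l).length = l.length) : ma A ≤ ma B := by
  unfold ma
  let g : A → B := fun l => ⟨f l, hm l l.2⟩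
  have hg : Function.Injective g := by
    intro a b hab
    apply Subtype.ext
    exact hi a.2 b.2 (congrArg Subtype.val hab)
  refine le_trans (le_of_eq ?_) (ENNReal.tsum_comp_le_tsum_of_injective hg _)
  refine tsum_congr fun l => ?_
  simp only [g]
  unfold wt
  rw [hl l l.2]

theorem ma_split (A : Set (List V)) (p : List V → Prop) :
    ma A = ma {l ∈ A | p l} + ma {l ∈ A | ¬ p l} := by
  rw [← ma_union]
  · congr 1
    ext l
    simp only [Set.mem_union, Set.mem_ofPred_eq]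
    tauto
  · rw [Set.disjoint_left]
    rintro l ⟨_, h1⟩ ⟨_, h2⟩
    exact h2 h1

/-- walks which leave the domain -/
def LW (Om : V → Prop) : Set (List V) := {l | Val Om l ∧ ¬ Om (l.headD (0, 0))}

/-- walks which leave the domain with winding index `k` -/
def LK (Om : V → Prop) (k : ℤ) : Set (List V) := {l | l ∈ LW Om ∧ W l = k}

/-- mass of the walks which leave the domain with winding index `k` -/
noncomputable def mq (Om : V → Prop) (k : ℤ) : ℝ := (ma (LK Om k)).toReal

theorem mq_nonneg (Om : V → Prop) (k : ℤ) : 0 ≤ mq Om k := ENNReal.toReal_nonneg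

/-- `cos (3 π / 8)` -/
noncomputable def c3 : ℝ := Real.cos (3 * (Real.pi / 8))

theorem c3_pos : 0 < c3 := by
  unfold c3
  have hpi := Real.pi_pos
  apply Real.cos_pos_of_mem_Ioo
  constructor <;> linarith

/-- the identity of the critical observable -/
structure Idn (Om : V → Prop) : Prop where
  rg : ∀ l ∈ LW Om, -3 ≤ W l ∧ W l ≤ 3
  fi : ma (LW Om) ≤ ENNReal.ofReal (1 / c3)
  eq : ∀ θ : ℝ, ∑ k ∈ Finset.Icc (-3 : ℤ) 3,
    Real.sin ((k : ℝ) * (Real.pi / 8) - θ) * mq Om k = -Real.sin θ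

theorem cos_ge {k : ℤ} (h1 : -3 ≤ k) (h2 : k ≤ 3) : c3 ≤ Real.cos ((k : ℝ) * (Real.pi / 8)) := by
  unfold c3
  have hpi := Real.pi_pos
  have h1' : (-3 : ℝ) ≤ k := by exact_mod_cast h1
  have h2' : (k : ℝ) ≤ 3 := by exact_mod_cast h2
  rw [← Real.cos_abs ((k : ℝ) * (Real.pi / 8))]
  apply Real.cos_le_cos_of_nonneg_of_le_pi (abs_nonneg _) (by linarith)
  rw [abs_mul, abs_of_pos (by positivity : (0 : ℝ) < Real.pi / 8)]
  apply mul_le_mul_of_nonneg_right _ (by positivity)
  rw [abs_le]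
  exact ⟨h1', h2'⟩

theorem Idn.ne_top {Om : V → Prop} (h : Idn Om) {A : Set (List V)} (hA : A ⊆ LW Om) :
    ma A ≠ ⊤ :=
  ((ma_mono hA).trans_lt (h.fi.trans_lt ENNReal.ofReal_lt_top)).ne

theorem LK_sub {Om : V → Prop} {k : ℤ} : LK Om k ⊆ LW Om := fun _ h => h.1

theorem val_len {Om : V → Prop} {l : List V} (h : Val Om l) : 2 ≤ l.length := by
  match l, h with
  | [z, y], _ => simp
  | z :: y :: x :: t, _ => simp

theorem LW_fin {Om : V → Prop} (S : Finset V) (hS : ∀ v, Om v → v ∈ S) (n : ℕ)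
    (hn : S.card ≤ n) : LW Om = (LS Om n : Set (List V)) := by
  classical
  ext l
  rw [Finset.mem_coe, mem_LS]
  unfold LW
  simp only [Set.mem_ofPred_eq]
  constructor
  · rintro ⟨h1, h2⟩
    refine ⟨h1, ?_, h2⟩
    obtain ⟨t1, t2⟩ := Val_tail h1
    have h3 := val_len h1
    have hnd : (l.tail.dropLast).Nodup := t1.sublist (List.dropLast_sublist _)
    have hsub : (l.tail.dropLast).toFinset ⊆ S := by
      intro v hv
      rw [List.mem_toFinset] at hv
      exact hS _ (t2 v hv)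
    have hc := Finset.card_le_card hsub
    rw [List.toFinset_card_of_nodup hnd, List.length_dropLast, List.length_tail] at hc
    omega
  · rintro ⟨h1, _, h2⟩
    exact ⟨h1, h2⟩

theorem idn_fin {Om : V → Prop} (G : Good Om) (S : Finset V) (hS : ∀ v, Om v → v ∈ S) :
    Idn Om := by
  classical
  have hLW := LW_fin S hS S.card le_rfl
  have hid := ident_LS G S hS S.card le_rfl
  have hrg : ∀ l ∈ LW Om, -3 ≤ W l ∧ W l ≤ 3 := by
    intro l hl
    rw [hLW, Finset.mem_coe] at hl
    obtain ⟨z, v, K, rfl, hD⟩ := val_of_LS G hl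
    exact wind_range G hD
  have hmk : ∀ k, mq Om k = ∑ l ∈ (LS Om S.card).filter (fun l => W l = k), wt l := by
    intro k
    have e : LK Om k = ((LS Om S.card).filter (fun l => W l = k) : Set (List V)) := by
      ext l
      unfold LK
      simp only [Set.mem_ofPred_eq, hLW, Finset.mem_coe, Finset.mem_filter]
    unfold mq
    rw [e, ma_finset, ENNReal.toReal_ofReal (ms_nonneg _)]
    rfl
  have hsum : ∀ f : ℤ → ℝ, ∑ k ∈ Finset.Icc (-3 : ℤ) 3, f k * mq Om k =
      ∑ l ∈ LS Om S.card, f (W l) * wt l := by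
    intro f
    rw [← Finset.sum_fiberwise_of_maps_to (s := LS Om S.card) (t := Finset.Icc (-3 : ℤ) 3)
      (g := W)]
    · refine Finset.sum_congr rfl fun k _ => ?_
      rw [hmk, Finset.mul_sum]
      refine Finset.sum_congr rfl fun l hl => ?_
      rw [(Finset.mem_filter.1 hl).2]
    · intro l hl
      have : l ∈ LW Om := by rw [hLW]; exact hl
      rw [Finset.mem_Icc]
      exact hrg l this
  have hs := congrArg Complex.im hid
  have hc := congrArg Complex.re hid
  rw [Complex.im_sum] at hs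
  rw [Complex.re_sum] at hc
  have e1 : ∀ l : List V, (Complex.exp ((W l : ℂ) * (Real.pi / 8) * Complex.I) * (wt l : ℂ)).im =
      Real.sin ((W l : ℝ) * (Real.pi / 8)) * wt l := by
    intro l
    rw [Complex.im_mul_ofReal]
    have : ((W l : ℂ) * (Real.pi / 8) * Complex.I) =
        (((W l : ℝ) * (Real.pi / 8) : ℝ) : ℂ) * Complex.I := by
      push_cast; ring
    rw [this, Complex.exp_ofReal_mul_I_im]
  have e2 : ∀ l : List V, (Complex.exp ((W l : ℂ) * (Real.pi / 8) * Complex.I) * (wt l : ℂ)).re =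
      Real.cos ((W l : ℝ) * (Real.pi / 8)) * wt l := by
    intro l
    rw [Complex.re_mul_ofReal]
    have : ((W l : ℂ) * (Real.pi / 8) * Complex.I) =
        (((W l : ℝ) * (Real.pi / 8) : ℝ) : ℂ) * Complex.I := by
      push_cast; ring
    rw [this, Complex.exp_ofReal_mul_I_re]
  simp only [e1, Complex.one_im] at hs
  simp only [e2, Complex.one_re] at hc
  refine ⟨hrg, ?_, ?_⟩
  · rw [hLW, ma_finset]
    apply ENNReal.ofReal_le_ofReal
    rw [le_div_iff₀ c3_pos, ← hc]
    unfold ms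
    rw [Finset.sum_mul]
    refine Finset.sum_le_sum fun l hl => ?_
    have hl' : l ∈ LW Om := by rw [hLW]; exact hl
    rw [mul_comm]
    exact mul_le_mul_of_nonneg_right (cos_ge (hrg l hl').1 (hrg l hl').2) (wt_nonneg l)
  · intro θ
    rw [hsum (fun k => Real.sin ((k : ℝ) * (Real.pi / 8) - θ))]
    have e3 : ∀ l : List V, Real.sin ((W l : ℝ) * (Real.pi / 8) - θ) * wt l =
        Real.cos θ * (Real.sin ((W l : ℝ) * (Real.pi / 8)) * wt l) -
        Real.sin θ * (Real.cos ((W l : ℝ) * (Real.pi / 8)) * wt l) := by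
      intro l
      rw [Real.sin_sub]
      ring
    simp only [e3]
    rw [Finset.sum_sub_distrib, ← Finset.mul_sum, ← Finset.mul_sum, hs, hc]
    ring

theorem Val_dom' {Om Om' : V → Prop} : ∀ {l : List V}, Val Om l →
    (∀ v ∈ l.tail.dropLast, Om' v) → Val Om' l
  | [], h, _ => h.elim
  | [_], h, _ => h.elim
  | [_, _], h, _ => h
  | z :: y :: x :: t, h, hd => by
    obtain ⟨h1, h2, h3, h4, h5⟩ := h
    simp only [List.tail_cons] at hd
    rw [List.dropLast_cons_of_ne_nil (by simp)] at hd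
    refine ⟨h1, h2, hd y List.mem_cons_self, h4, Val_dom' h5 ?_⟩
    simp only [List.tail_cons]
    intro v hv
    exact hd v (List.mem_cons_of_mem _ hv)

theorem exists_common {On : ℕ → V → Prop} (hm : ∀ n v, On n v → On (n + 1) v) (L : List V)
    (h : ∀ v ∈ L, ∃ n, On n v) : ∃ n, ∀ v ∈ L, On n v := by
  have hm' : ∀ n m v, n ≤ m → On n v → On m v := by
    intro n m v hnm
    induction hnm with
    | refl => exact id
    | step _ ih => exact fun hv => hm _ _ (ih hv)
  induction L with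
  | nil => exact ⟨0, by simp⟩
  | cons a L ih =>
    obtain ⟨n, hn⟩ := ih (fun v hv => h v (List.mem_cons_of_mem _ hv))
    obtain ⟨m, hm2⟩ := h a List.mem_cons_self
    refine ⟨max n m, ?_⟩
    intro v hv
    rcases List.mem_cons.1 hv with rfl | hv
    · exact hm' m _ _ (le_max_right _ _) hm2
    · exact hm' n _ _ (le_max_left _ _) (hn v hv)

/-- exhaustion of a domain -/
theorem lim_sin {Om : V → Prop} {On : ℕ → V → Prop} (k0 : ℤ)
    (hm : ∀ n v, On n v → On (n + 1) v) (hun : ∀ v, Om v ↔ ∃ n, On n v)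
    (hI : ∀ n, Idn (On n))
    (hfar : ∀ n, ∀ l ∈ LW (On n), Om (l.headD (0, 0)) → W l = k0) :
    ma (LW Om) ≤ ENNReal.ofReal (1 / c3) ∧
    ∑ k ∈ Finset.Icc (-3 : ℤ) 3,
      Real.sin ((k : ℝ) * (Real.pi / 8) - (k0 : ℝ) * (Real.pi / 8)) * mq Om k =
      -Real.sin ((k0 : ℝ) * (Real.pi / 8)) := by
  have hsub : ∀ n v, On n v → Om v := fun n v h => (hun v).2 ⟨n, h⟩
  -- total mass
  have hmonoA : ∀ (p : List V → Prop), Monotone (fun n => {l | l ∈ LW (On n) ∧
      (¬ Om (l.headD (0, 0)) ∧ p l)}) := by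
    intro p
    apply monotone_nat_of_le_succ
    rintro n l ⟨⟨h1, h2⟩, h3, h4⟩
    exact ⟨⟨Val_mono (hm n) h1, fun h => h3 (hsub _ _ h)⟩, h3, h4⟩
  have hunA : ∀ (p : List V → Prop), (⋃ n, {l | l ∈ LW (On n) ∧
      (¬ Om (l.headD (0, 0)) ∧ p l)}) = {l | l ∈ LW Om ∧ p l} := by
    intro p
    ext l
    simp only [Set.mem_iUnion, Set.mem_ofPred_eq]
    constructor
    · rintro ⟨n, ⟨h1, h2⟩, h3, h4⟩
      exact ⟨⟨Val_mono (hsub n) h1, h3⟩, h4⟩
    · rintro ⟨⟨h1, h2⟩, h3⟩
      obtain ⟨n, hn⟩ := exists_common hm l.tail.dropLast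
        (fun v hv => (hun v).1 ((Val_tail h1).2 v hv))
      exact ⟨n, ⟨Val_dom' h1 hn, fun h => h2 (hsub _ _ h)⟩, h2, h3⟩
  have hbound : ma (LW Om) ≤ ENNReal.ofReal (1 / c3) := by
    have h1 := ma_tendsto (hmonoA (fun _ => True))
    rw [hunA] at h1
    have e : {l | l ∈ LW Om ∧ True} = LW Om := by
      ext l; simp
    rw [e] at h1
    refine le_of_tendsto h1 (Eventually.of_forall fun n => ?_)
    exact (ma_mono (fun l hl => hl.1)).trans (hI n).fi
  refine ⟨hbound, ?_⟩
  have hfin : ∀ k, ma (LK Om k) ≠ ⊤ := fun k =>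
    ((ma_mono LK_sub).trans_lt (hbound.trans_lt ENNReal.ofReal_lt_top)).ne
  -- limits
  have hlim : ∀ k, Tendsto (fun n => (ma {l | l ∈ LW (On n) ∧
      (¬ Om (l.headD (0, 0)) ∧ W l = k)}).toReal) atTop (𝓝 (mq Om k)) := by
    intro k
    have h1 := ma_tendsto (hmonoA (fun l => W l = k))
    rw [hunA] at h1
    exact (ENNReal.tendsto_toReal (hfin k)).comp h1
  have hsum := tendsto_finsetSum (Finset.Icc (-3 : ℤ) 3) (fun k _ =>
    (hlim k).const_mul (Real.sin ((k : ℝ) * (Real.pi / 8) - (k0 : ℝ) * (Real.pi / 8))))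
  refine tendsto_nhds_unique hsum ?_
  refine Tendsto.congr (f₁ := fun _ => -Real.sin ((k0 : ℝ) * (Real.pi / 8))) ?_
    tendsto_const_nhds
  intro n
  rw [← (hI n).eq ((k0 : ℝ) * (Real.pi / 8))]
  refine Finset.sum_congr rfl fun k _ => ?_
  by_cases hk : k = k0
  · rw [hk, sub_self, Real.sin_zero, zero_mul, zero_mul]
  · congr 2
    have : {l | l ∈ LW (On n) ∧ (¬ Om (l.headD (0, 0)) ∧ W l = k)} = LK (On n) k := by
      ext l
      unfold LK
      simp only [Set.mem_ofPred_eq]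
      constructor
      · rintro ⟨h1, h2, h3⟩
        exact ⟨h1, h3⟩
      · rintro ⟨h1, h3⟩
        exact ⟨h1, fun h => hk (h3.symm.trans (hfar n l h1 h)), h3⟩
    rw [this]
    rfl

theorem sin_comb (a b : ℝ) (hs : Real.sin (a - b) ≠ 0) (m s : ℝ)
    (ha : Real.cos a * s - Real.sin a * m = -Real.sin a)
    (hb : Real.cos b * s - Real.sin b * m = -Real.sin b) : m = 1 ∧ s = 0 := by
  have h1 : Real.sin (a - b) * (m - 1) = 0 := by
    rw [Real.sin_sub]
    linear_combination (-Real.cos b) * ha + Real.cos a * hb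
  have h2 : Real.sin (a - b) * s = 0 := by
    rw [Real.sin_sub]
    linear_combination (-Real.sin b) * ha + Real.sin a * hb
  rcases mul_eq_zero.1 h1 with h | h
  · exact absurd h hs
  rcases mul_eq_zero.1 h2 with h' | h'
  · exact absurd h' hs
  exact ⟨by linarith, h'⟩

theorem idn_of_two {Om : V → Prop} (k0 k1 : ℤ)
    (hrg : ∀ l ∈ LW Om, -3 ≤ W l ∧ W l ≤ 3)
    (hs : Real.sin ((k0 : ℝ) * (Real.pi / 8) - (k1 : ℝ) * (Real.pi / 8)) ≠ 0)
    (h0 : ma (LW Om) ≤ ENNReal.ofReal (1 / c3) ∧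
      ∑ k ∈ Finset.Icc (-3 : ℤ) 3,
      Real.sin ((k : ℝ) * (Real.pi / 8) - (k0 : ℝ) * (Real.pi / 8)) * mq Om k =
      -Real.sin ((k0 : ℝ) * (Real.pi / 8)))
    (h1 : ma (LW Om) ≤ ENNReal.ofReal (1 / c3) ∧
      ∑ k ∈ Finset.Icc (-3 : ℤ) 3,
      Real.sin ((k : ℝ) * (Real.pi / 8) - (k1 : ℝ) * (Real.pi / 8)) * mq Om k =
      -Real.sin ((k1 : ℝ) * (Real.pi / 8))) : Idn Om := by
  have key : ∀ θ : ℝ, ∑ k ∈ Finset.Icc (-3 : ℤ) 3,
      Real.sin ((k : ℝ) * (Real.pi / 8) - θ) * mq Om k =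
      Real.cos θ * (∑ k ∈ Finset.Icc (-3 : ℤ) 3, Real.sin ((k : ℝ) * (Real.pi / 8)) * mq Om k) -
      Real.sin θ * (∑ k ∈ Finset.Icc (-3 : ℤ) 3,
        Real.cos ((k : ℝ) * (Real.pi / 8)) * mq Om k) := by
    intro θ
    rw [Finset.mul_sum, Finset.mul_sum, ← Finset.sum_sub_distrib]
    refine Finset.sum_congr rfl fun k _ => ?_
    rw [Real.sin_sub]
    ring
  have h0' := h0.2
  have h1' := h1.2
  rw [key] at h0' h1'
  obtain ⟨hm, hs'⟩ := sin_comb _ _ hs _ _ h0' h1'
  refine ⟨hrg, h0.1, ?_⟩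
  intro θ
  rw [key, hm, hs']
  ring

end Pool.Agent.W832.HR
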