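import Pool.Agent.W832.HR.Fin2

set_option autoImplicit false

/-! Point-to-point partition functions: translation, reflection, concatenation. -/

namespace Pool.Agent.W832.HR

open H978R2.Hex Pool.Agent.W818.TD
open scoped ENNReal

theorem Z_le_of {D D' : Set V} {a b a' b' : V} (f : List V → List V)
    (hi : ∀ l ∈ Traj D a b, ∀ l' ∈ Traj D a b, f l = f l' → l = l')
    (h : ∀ l ∈ Traj D a b, f l ∈ Traj D' a' b') (hl : ∀ l ∈ Traj D a b, (f l).length = l.length) :
    Z D a b ≤ Z D' a' b' := by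
  unfold Z
  have hinj : Function.Injective (fun l : Traj D a b => (⟨f l.1, h l.1 l.2⟩ : Traj D' a' b')) := by
    rintro ⟨l, h1⟩ ⟨l', h1'⟩ e
    exact Subtype.ext (hi l h1 l' h1' (congrArg Subtype.val e))
  refine le_trans (le_of_eq ?_) (ENNReal.tsum_comp_le_tsum_of_injective hinj
    (fun l : Traj D' a' b' => xc ^ (l.1.length - 1)))
  refine tsum_congr fun l => ?_
  simp only
  rw [hl l.1 l.2]

theorem Z_mono {D D' : Set V} (h : D ⊆ D') (a b : V) : Z D a b ≤ Z D' a b :=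
  Z_le_of id (fun _ _ _ _ e => e)
    (fun _ hl => ⟨hl.1, hl.2.1, hl.2.2.1, hl.2.2.2.1, fun p hp => h (hl.2.2.2.2 p hp)⟩)
    (fun _ _ => rfl)

theorem traj_map {D D' : Set V} {a b a' b' : V} {g : V → V} (hg : ∀ p q, g p = g q → p = q)
    (hn : ∀ p q, Nbr p q → Nbr (g p) (g q)) (hD : ∀ p ∈ D, g p ∈ D') (ha : g a = a')
    (hb : g b = b') {l : List V} (hl : l ∈ Traj D a b) : l.map g ∈ Traj D' a' b' := by
  obtain ⟨h1, h2, h3, h4, h5⟩ := hl
  refine ⟨?_, ?_, h3.map (fun p q e => hg p q e), ?_, ?_⟩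
  · rw [List.head?_map, h1, Option.map_some, ha]
  · rw [List.getLast?_map, h2, Option.map_some, hb]
  · rw [List.isChain_map]
    exact h4.imp fun {p q} hpq => hn p q hpq
  · intro p hp
    rw [List.mem_map] at hp
    obtain ⟨q, hq, rfl⟩ := hp
    exact hD q (h5 q hq)

theorem Z_map {D D' : Set V} {a b a' b' : V} {g : V → V} (hg : ∀ p q, g p = g q → p = q)
    (hn : ∀ p q, Nbr p q → Nbr (g p) (g q)) (hD : ∀ p ∈ D, g p ∈ D') (ha : g a = a')
    (hb : g b = b') : Z D a b ≤ Z D' a' b' :=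
  Z_le_of (fun l => l.map g)
    (fun _ _ _ _ e => List.map_injective_iff.2 (fun p q e => hg p q e) e)
    (fun _ hl => traj_map hg hn hD ha hb hl) (fun _ _ => by simp)

theorem nbr_trans {p q t : V} (ht : Even (t.1 + t.2)) (h : Nbr p q) : Nbr (p + t) (q + t) := by
  rw [nbr_iff, adj_iff] at h ⊢
  rw [Int.even_iff] at ht
  simp only [Prod.fst_add, Prod.snd_add]
  omega

theorem Z_trans {D D' : Set V} {a b : V} (t : V) (ht : Even (t.1 + t.2))
    (hD : ∀ p ∈ D, p + t ∈ D') : Z D a b ≤ Z D' (a + t) (b + t) :=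
  Z_map (g := fun p => p + t) (fun _ _ e => add_right_cancel e) (fun _ _ h => nbr_trans ht h) hD
    rfl rfl

theorem nbr_sg {p q : V} (h : Nbr p q) : Nbr (sg p) (sg q) := nbr_iff.2 (sg_adj (nbr_iff.1 h))

/-- **concatenation** -/
theorem Z_concat {D1 D2 D : Set V} {a v v' b : V} (hn : Nbr v v') (hd : Disjoint D1 D2)
    (h1 : D1 ⊆ D) (h2 : D2 ⊆ D) : xc * (Z D1 a v * Z D2 v' b) ≤ Z D a b := by
  unfold Z
  have key : ∀ l ∈ Traj D1 a v, ∀ l' ∈ Traj D2 v' b, l ++ l' ∈ Traj D a b := by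
    rintro l ⟨a1, a2, a3, a4, a5⟩ l' ⟨b1, b2, b3, b4, b5⟩
    have hl : l ≠ [] := by rintro rfl; simp at a1
    have hl' : l' ≠ [] := by rintro rfl; simp at b1
    refine ⟨?_, ?_, ?_, ?_, ?_⟩
    · rw [List.head?_append_of_ne_nil _ hl, a1]
    · rw [List.getLast?_append_of_ne_nil _ hl', b2]
    · rw [List.nodup_append]
      refine ⟨a3, b3, ?_⟩
      intro p hp q hq e
      rw [e] at hp
      exact Set.disjoint_left.1 hd (a5 _ hp) (b5 _ hq)
    · rw [List.isChain_append]
      refine ⟨a4, b4, ?_⟩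
      intro x hx y hy
      rw [a2, Option.mem_def, Option.some.injEq] at hx
      rw [b1, Option.mem_def, Option.some.injEq] at hy
      rw [← hx, ← hy]
      exact hn
    · intro p hp
      rw [List.mem_append] at hp
      rcases hp with hp | hp
      · exact h1 (a5 p hp)
      · exact h2 (b5 p hp)
  have hinj : Function.Injective (fun x : Traj D1 a v × Traj D2 v' b =>
      (⟨x.1.1 ++ x.2.1, key _ x.1.2 _ x.2.2⟩ : Traj D a b)) := by
    rintro ⟨⟨l, hl⟩, ⟨m, hm⟩⟩ ⟨⟨l', hl'⟩, ⟨m', hm'⟩⟩ e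
    have e' : l ++ m = l' ++ m' := congrArg Subtype.val e
    rw [List.append_eq_append_iff] at e'
    rcases e' with ⟨c, e1, e2⟩ | ⟨c, e1, e2⟩
    · match c with
      | [] =>
        simp only [List.append_nil, List.nil_append] at e1 e2
        subst e1 e2
        rfl
      | p :: c =>
        exfalso
        refine Set.disjoint_left.1 hd (hl'.2.2.2.2 p ?_) (hm.2.2.2.2 p ?_)
        · rw [e1]; simp
        · rw [e2]; simp
    · match c with
      | [] =>
        simp only [List.append_nil, List.nil_append] at e1 e2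
        subst e1 e2
        rfl
      | p :: c =>
        exfalso
        refine Set.disjoint_left.1 hd (hl.2.2.2.2 p ?_) (hm'.2.2.2.2 p ?_)
        · rw [e1]; simp
        · rw [e2]; simp
  have e : xc * ((∑' l : Traj D1 a v, xc ^ (l.1.length - 1)) *
      (∑' l : Traj D2 v' b, xc ^ (l.1.length - 1))) =
      ∑' x : Traj D1 a v × Traj D2 v' b, xc ^ ((x.1.1 ++ x.2.1).length - 1) := by
    rw [ENNReal.tsum_prod', ← ENNReal.tsum_mul_right, ← ENNReal.tsum_mul_left]
    refine tsum_congr fun l => ?_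
    rw [← ENNReal.tsum_mul_left, ← ENNReal.tsum_mul_left]
    refine tsum_congr fun m => ?_
    have hl : 1 ≤ l.1.length := by
      have := l.2.1
      match l.1, this with
      | x :: s, _ => simp
    have hm : 1 ≤ m.1.length := by
      have := m.2.1
      match m.1, this with
      | x :: s, _ => simp
    rw [← pow_add, ← pow_succ', List.length_append]
    congr 1
    simp only
    omega
  rw [e]
  exact ENNReal.tsum_comp_le_tsum_of_injective hinj
    (fun l : Traj D a b => xc ^ (l.1.length - 1))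

/-- part of the strip with `2 T` levels -/
def SW (T : ℕ) (w : ℝ) : Set V :=
  {p | (1 ≤ p.1 - p.2 ∧ p.1 - p.2 ≤ 2 * T) ∧ |((p.1 + 3 * p.2 : ℤ) : ℝ)| ≤ w}

/-- partition function between opposite points of a rectangle with `4 n` levels -/
noncomputable def G (n : ℕ) (w : ℝ) : ℝ≥0∞ := Z (SW (2 * n) w) (1, 0) (3 * n, -n)

theorem G_mono {n : ℕ} {w w' : ℝ} (h : w ≤ w') : G n w ≤ G n w' :=
  Z_mono (fun p hp => (⟨hp.1, hp.2.trans h⟩ : p ∈ SW (2 * n) w')) _ _

/-- **supermultiplicativity** -/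
theorem G_add {n m : ℕ} {w : ℝ} : xc * (G n w * G m w) ≤ G (n + m) w := by
  unfold G
  have h1 : Z (SW (2 * m) w) (1, 0) (3 * m, -m) ≤
      Z {p | (4 * (n : ℤ) + 1 ≤ p.1 - p.2 ∧ p.1 - p.2 ≤ 4 * (n : ℤ) + 4 * m) ∧
        |((p.1 + 3 * p.2 : ℤ) : ℝ)| ≤ w} (1 + 3 * n, -n) (3 * ((n + m : ℕ) : ℤ), -((n + m : ℕ) : ℤ)) := by
    have h := Z_trans (D := SW (2 * m) w) (D' := {p | (4 * (n : ℤ) + 1 ≤ p.1 - p.2 ∧
        p.1 - p.2 ≤ 4 * (n : ℤ) + 4 * m) ∧ |((p.1 + 3 * p.2 : ℤ) : ℝ)| ≤ w}) (a := (1, 0))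
        (b := (3 * m, -m)) ((3 * n, -n) : V) (by
          rw [Int.even_iff]
          simp only
          omega) (by
          rintro p ⟨⟨a1, a2⟩, a3⟩
          refine ⟨⟨?_, ?_⟩, ?_⟩
          · simp only [Prod.fst_add, Prod.snd_add]; omega
          · simp only [Prod.fst_add, Prod.snd_add]; push_cast at a2 ⊢; omega
          · have : ((p + ((3 * n, -n) : V)).1 + 3 * (p + ((3 * n, -n) : V)).2) =
                p.1 + 3 * p.2 := by
              simp only [Prod.fst_add, Prod.snd_add]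
              ring
            rw [this]
            exact a3)
    refine h.trans (le_of_eq ?_)
    congr 1
    · apply Prod.ext
      · simp only [Prod.fst_add]
      · simp only [Prod.snd_add]; ring
    · apply Prod.ext
      · simp only [Prod.fst_add]; push_cast; ring
      · simp only [Prod.snd_add]; push_cast; ring
  refine le_trans (mul_le_mul_right (mul_le_mul_right h1 _) _) ?_
  apply Z_concat
  · unfold Nbr
    left
    simp only
    exact ⟨trivial, Or.inr (by ring)⟩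
  · rw [Set.disjoint_left]
    rintro p ⟨⟨a1, a2⟩, -⟩ ⟨⟨b1, b2⟩, -⟩
    push_cast at a2
    omega
  · rintro p ⟨⟨a1, a2⟩, a3⟩
    refine ⟨⟨a1, ?_⟩, a3⟩
    push_cast at a2 ⊢
    omega
  · rintro p ⟨⟨a1, a2⟩, a3⟩
    refine ⟨⟨by omega, ?_⟩, a3⟩
    push_cast at a2 ⊢
    omega

theorem xc_half : (1 / 2 : ℝ) ≤ mu0⁻¹ := by
  unfold mu0
  rw [one_div]
  apply inv_anti₀ (by positivity)
  rw [Real.sqrt_le_left (by norm_num)]
  have := sqrt2_lt
  linarith

theorem xc_le_one : xc ≤ 1 := by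
  rw [xc_eq]
  rw [ENNReal.ofReal_le_one]
  apply inv_le_one_of_one_le₀
  unfold mu0
  rw [Real.one_le_sqrt]
  have := Real.sqrt_nonneg 2
  linarith

/-- a straight piece -/
theorem G_one {w : ℝ} (hw : 3 ≤ w) : xc ^ 3 ≤ G 1 w := by
  have hm : ([((1, 0) : V), (2, 0), (3, 0), (3, -1)]) ∈
      Traj (SW (2 * 1) w) (1, 0) (3 * ((1 : ℕ) : ℤ), -((1 : ℕ) : ℤ)) := by
    refine ⟨rfl, by simp, by decide, ?_, ?_⟩
    · simp only [List.isChain_cons_cons, List.isChain_singleton, and_true]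
      refine ⟨Or.inl ⟨rfl, Or.inr (by norm_num)⟩, Or.inl ⟨rfl, Or.inr (by norm_num)⟩,
        Or.inr ⟨rfl, Or.inr ⟨by norm_num, by decide⟩⟩⟩
    · intro p hp
      simp only [List.mem_cons, List.not_mem_nil, or_false] at hp
      rcases hp with rfl | rfl | rfl | rfl <;> refine ⟨⟨by norm_num, by norm_num⟩, ?_⟩ <;>
        norm_num <;> linarith
  unfold G Z
  exact ENNReal.le_tsum (f := fun l : Traj (SW (2 * 1) w) (1, 0)
    (3 * ((1 : ℕ) : ℤ), -((1 : ℕ) : ℤ)) => xc ^ (l.1.length - 1))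
    (⟨_, hm⟩ : Traj (SW (2 * 1) w) (1, 0) (3 * ((1 : ℕ) : ℤ), -((1 : ℕ) : ℤ)))

/-- one double block -/
theorem G_double {T : ℕ} {w : ℝ} {x : ℤ} (hx : |((2 * T + 4 * x : ℤ) : ℝ)| ≤ w) :
    xc * (Z (SW T w) (1, 0) (2 * T + x, x) * Z (SW T w) (1, 0) (2 * T + x, x)) ≤
      G T (2 * w + 2) := by
  have h1 : Z (SW T w) (1, 0) (2 * T + x, x) ≤
      Z {p | (2 * (T : ℤ) + 1 ≤ p.1 - p.2 ∧ p.1 - p.2 ≤ 4 * (T : ℤ)) ∧
        |((p.1 + 3 * p.2 : ℤ) : ℝ)| ≤ 2 * w + 2} (1 + (2 * T + x), x) (3 * T, -T) := by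
    have h := Z_map (D := SW T w) (D' := {p | (2 * (T : ℤ) + 1 ≤ p.1 - p.2 ∧
        p.1 - p.2 ≤ 4 * (T : ℤ)) ∧ |((p.1 + 3 * p.2 : ℤ) : ℝ)| ≤ 2 * w + 2}) (a := (1, 0))
        (b := (2 * T + x, x)) (a' := (1 + (2 * T + x), x)) (b' := (3 * T, -T))
        (g := fun p => sg p + (2 * T + x, x)) (fun p q e => sg_inj (add_right_cancel e))
        (fun p q h => nbr_trans (by rw [Int.even_iff]; simp only; omega) (nbr_sg h)) (by
          rintro p ⟨⟨a1, a2⟩, a3⟩
          have hl := sg_lev p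
          refine ⟨⟨?_, ?_⟩, ?_⟩
          · simp only [Prod.fst_add, Prod.snd_add]; omega
          · simp only [Prod.fst_add, Prod.snd_add]; omega
          · have e : |(((sg p).1 + 3 * (sg p).2 : ℤ) : ℝ)| ≤ w + 2 := by
              have e1 : |(sg p).1 + 3 * (sg p).2| ≤ |p.1 + 3 * p.2| + 2 := by
                unfold sg
                simp only
                rcases abs_cases (p.1 + 3 * p.2) with h | h <;> rw [abs_le] <;> omega
              have e2 : |(((sg p).1 + 3 * (sg p).2 : ℤ) : ℝ)| ≤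
                  |((p.1 + 3 * p.2 : ℤ) : ℝ)| + 2 := by
                rw [← Int.cast_abs, ← Int.cast_abs]
                exact_mod_cast e1
              linarith
            have e3 : (((sg p + ((2 * T + x, x) : V)).1 + 3 * (sg p + ((2 * T + x, x) : V)).2 : ℤ)
                : ℝ) = (((sg p).1 + 3 * (sg p).2 : ℤ) : ℝ) + ((2 * T + 4 * x : ℤ) : ℝ) := by
              simp only [Prod.fst_add, Prod.snd_add]
              push_cast
              ring
            rw [e3]
            refine (abs_add_le _ _).trans ?_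
            linarith) (by
          rw [sg_base]
          apply Prod.ext
          · simp only [Prod.fst_add]
          · simp only [Prod.snd_add]; ring) (by
          unfold sg
          apply Prod.ext
          · simp only [Prod.fst_add]; omega
          · simp only [Prod.snd_add]; omega)
    exact h
  refine le_trans (mul_le_mul_right (mul_le_mul_right h1 _) _) ?_
  unfold G
  apply Z_concat
  · unfold Nbr
    left
    simp only
    exact ⟨trivial, Or.inr (by ring)⟩
  · rw [Set.disjoint_left]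
    rintro p ⟨⟨a1, a2⟩, -⟩ ⟨⟨b1, b2⟩, -⟩
    omega
  · have hw : 0 ≤ w := (abs_nonneg _).trans hx
    rintro p ⟨⟨a1, a2⟩, a3⟩
    refine ⟨⟨a1, ?_⟩, by linarith⟩
    push_cast
    omega
  · rintro p ⟨⟨a1, a2⟩, a3⟩
    refine ⟨⟨by omega, ?_⟩, a3⟩
    push_cast
    omega

end Pool.Agent.W832.HR
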