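import Pool.Agent.W832.HR.Rect

set_option autoImplicit false

/-! Point-to-point crossings of rectangles. -/

namespace Pool.Agent.W832.HR

open H978R2.Hex Pool.Agent.W818.TD
open scoped ENNReal

/-- sum over the crossings of small width to one point -/
noncomputable def fx (T : ℕ) (w : ℝ) (x : ℤ) : ℝ≥0∞ :=
  ∑' l : {l // l ∈ Traj (Strip T) (1, 0) (2 * T + x, x) ∧ Wid l w}, xc ^ (l.1.length - 1)

theorem mem_of_ends {D : Set V} {a b : V} {l : List V} (h : l ∈ Traj D a b) : a ∈ l ∧ b ∈ l := by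
  obtain ⟨h1, h2, -⟩ := h
  exact ⟨List.mem_of_mem_head? h1, List.mem_of_mem_getLast? h2⟩

theorem fx_le (T : ℕ) (w : ℝ) (x : ℤ) :
    fx T w x ≤ Z (SW T (w + 1)) (1, 0) (2 * T + x, x) := by
  unfold fx Z
  have hm : ∀ l, l ∈ Traj (Strip T) (1, 0) (2 * (T : ℤ) + x, x) ∧ Wid l w →
      l ∈ Traj (SW T (w + 1)) (1, 0) (2 * T + x, x) := by
    rintro l ⟨hl, hw⟩
    refine ⟨hl.1, hl.2.1, hl.2.2.1, hl.2.2.2.1, ?_⟩
    intro p hp
    refine ⟨hl.2.2.2.2 p hp, ?_⟩
    have h1 := hw p hp _ (mem_of_ends hl).1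
    have h2 := hw _ (mem_of_ends hl).1 p hp
    push_cast at h1 h2 ⊢
    rw [abs_le]
    constructor <;> linarith
  have hinj : Function.Injective (fun l : {l // l ∈ Traj (Strip T) (1, 0) (2 * (T : ℤ) + x, x) ∧
      Wid l w} => (⟨l.1, hm l.1 l.2⟩ : Traj (SW T (w + 1)) (1, 0) (2 * T + x, x))) := by
    rintro ⟨l, h1⟩ ⟨l', h1'⟩ e
    exact Subtype.ext (Subtype.mk.inj e)
  exact ENNReal.tsum_comp_le_tsum_of_injective hinj
    (fun l : Traj (SW T (w + 1)) (1, 0) (2 * (T : ℤ) + x, x) => xc ^ (l.1.length - 1))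

theorem fx_zero {T : ℕ} {w : ℝ} {x : ℤ} (h : ¬ |((2 * T + 4 * x : ℤ) : ℝ)| ≤ w + 1) :
    fx T w x = 0 := by
  unfold fx
  have : IsEmpty {l // l ∈ Traj (Strip T) (1, 0) (2 * (T : ℤ) + x, x) ∧ Wid l w} := by
    constructor
    rintro ⟨l, hl, hw⟩
    apply h
    have h1 := hw _ (mem_of_ends hl).2 _ (mem_of_ends hl).1
    have h2 := hw _ (mem_of_ends hl).1 _ (mem_of_ends hl).2
    push_cast at h1 h2 ⊢
    rw [abs_le]
    constructor <;> linarith
  exact tsum_empty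

/-- **one block** -/
theorem block {T : ℕ} (hT : 1 ≤ T) {w : ℝ} (hw : 0 ≤ w)
    (h : 1 / 2 * Br T ≤ (ma (Cr T (WidL w))).toReal) :
    ENNReal.ofReal ((Br T / (w + 3)) ^ 2) ≤ xc * G T (2 * w + 4) := by
  have hB0 : 0 < Br T := (br_lower hT).1
  have h1 : ma (Cr T (WidL w)) = xc * ∑' x : ℤ, fx T w x :=
    Cr_eq hT (WidL w) (fun l => Wid_rev (l := l) (c := w))
  have h2 : ENNReal.ofReal (1 / 2 * Br T) ≤ xc * ∑' x : ℤ, fx T w x := by
    rw [← h1, ← ENNReal.ofReal_toReal (Cr_ne_top hT (WidL w))]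
    exact ENNReal.ofReal_le_ofReal h
  set F : Finset ℤ := Finset.Icc ⌈(-(2 * T : ℝ) - w - 1) / 4⌉ ⌊(-(2 * T : ℝ) + w + 1) / 4⌋ with hF
  have hsum : ∑' x : ℤ, fx T w x = ∑ x ∈ F, fx T w x := by
    apply tsum_eq_sum
    intro x hx
    apply fx_zero
    intro hc
    apply hx
    rw [hF, Finset.mem_Icc]
    rw [abs_le] at hc
    push_cast at hc
    constructor
    · rw [Int.ceil_le]
      linarith
    · rw [Int.le_floor]
      linarith
  have hcard : (F.card : ℝ) ≤ (w + 3) / 2 := by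
    rw [hF, Int.card_Icc]
    have a1 := Int.floor_le ((-(2 * T : ℝ) + w + 1) / 4)
    have a2 := Int.le_ceil ((-(2 * T : ℝ) - w - 1) / 4)
    have a3 : ((⌊(-(2 * T : ℝ) + w + 1) / 4⌋ + 1 - ⌈(-(2 * T : ℝ) - w - 1) / 4⌉ : ℤ) : ℝ) ≤
        (w + 3) / 2 := by
      push_cast
      linarith
    have a4 : (((⌊(-(2 * T : ℝ) + w + 1) / 4⌋ + 1 - ⌈(-(2 * T : ℝ) - w - 1) / 4⌉).toNat : ℤ) : ℝ)
        ≤ (w + 3) / 2 := by
      rw [Int.toNat_eq_max]
      rcases max_cases (⌊(-(2 * T : ℝ) + w + 1) / 4⌋ + 1 - ⌈(-(2 * T : ℝ) - w - 1) / 4⌉) 0 with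
        hh | hh
      · rw [hh.1]; exact a3
      · rw [hh.1]; push_cast; linarith
    exact_mod_cast a4
  set A : ℝ := Br T / (w + 3) with hA
  have hA0 : 0 < A := by positivity
  obtain ⟨x, hx, hxA⟩ : ∃ x ∈ F, ENNReal.ofReal A ≤ xc * fx T w x := by
    by_contra hc
    push Not at hc
    have h3 : xc * ∑ x ∈ F, fx T w x ≤ (F.card : ℝ≥0∞) * ENNReal.ofReal A := by
      rw [Finset.mul_sum]
      refine (Finset.sum_le_card_nsmul F _ _ (fun x hx => (hc x hx).le)).trans ?_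
      rw [nsmul_eq_mul]
    have hFne : F.Nonempty := by
      rw [Finset.nonempty_iff_ne_empty]
      intro he
      rw [hsum, he] at h2
      simp only [Finset.sum_empty, mul_zero, nonpos_iff_eq_zero, ENNReal.ofReal_eq_zero] at h2
      linarith
    have h4 : xc * ∑ x ∈ F, fx T w x < ∑ x ∈ F, ENNReal.ofReal A := by
      rw [Finset.mul_sum]
      have hfin : ∑ x ∈ F, xc * fx T w x ≠ ⊤ := by
        rw [← Finset.mul_sum, ← hsum, ← h1]
        exact Cr_ne_top hT _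
      exact ENNReal.sum_lt_sum_of_nonempty hFne hc
    rw [Finset.sum_const, nsmul_eq_mul] at h4
    have h5 : (F.card : ℝ≥0∞) * ENNReal.ofReal A ≤ ENNReal.ofReal (1 / 2 * Br T) := by
      rw [← ENNReal.ofReal_natCast, ← ENNReal.ofReal_mul (Nat.cast_nonneg _)]
      apply ENNReal.ofReal_le_ofReal
      calc (F.card : ℝ) * A ≤ (w + 3) / 2 * A := mul_le_mul_of_nonneg_right hcard hA0.le
        _ = 1 / 2 * Br T := by rw [hA]; field_simp
    rw [hsum] at h2
    exact absurd (h2.trans_lt h4) (not_lt.2 h5)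
  have hxw : |((2 * T + 4 * x : ℤ) : ℝ)| ≤ w + 1 := by
    by_contra hc
    rw [fx_zero hc, mul_zero, nonpos_iff_eq_zero, ENNReal.ofReal_eq_zero] at hxA
    linarith
  have h6 := G_double hxw
  have h7 := fx_le T w x
  have h8 : ENNReal.ofReal A ≤ xc * Z (SW T (w + 1)) (1, 0) (2 * T + x, x) :=
    hxA.trans (mul_le_mul_right h7 _)
  have e : 2 * (w + 1) + 2 = 2 * w + 4 := by ring
  rw [e] at h6
  calc ENNReal.ofReal (A ^ 2) = ENNReal.ofReal A * ENNReal.ofReal A := by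
        rw [← ENNReal.ofReal_mul hA0.le, sq]
    _ ≤ (xc * Z (SW T (w + 1)) (1, 0) (2 * T + x, x)) *
        (xc * Z (SW T (w + 1)) (1, 0) (2 * T + x, x)) := mul_le_mul' h8 h8
    _ = xc * (xc * (Z (SW T (w + 1)) (1, 0) (2 * T + x, x) *
        Z (SW T (w + 1)) (1, 0) (2 * T + x, x))) := by ring
    _ ≤ _ := mul_le_mul_right h6 _

theorem wid_of_bad {T : ℕ} (hT : 1 ≤ T) {ε k : ℝ}
    (h : (ma (Cr T (BadL ε k T))).toReal ≤ 1 / 2 * Br T) :
    1 / 2 * Br T ≤ (ma (Cr T (WidL (k * T)))).toReal := by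
  have h1 : LK (Dm T .no .no) 0 ⊆ Cr T (WidL (k * T)) ∪ Cr T (BadL ε k T) := by
    intro w hw
    by_cases hc : WidL (k * T) (w.tail.dropLast)
    · exact Or.inl ⟨hw, hc⟩
    · exact Or.inr ⟨hw, Or.inr hc⟩
  have h2 := (ma_mono h1).trans (ma_union_le _ _)
  have f1 := Cr_ne_top hT (WidL (k * T))
  have f2 := Cr_ne_top hT (BadL ε k T)
  have h3 := ENNReal.toReal_mono (ENNReal.add_ne_top.2 ⟨f1, f2⟩) h2
  rw [ENNReal.toReal_add f1 f2] at h3
  have e : (ma (LK (Dm T .no .no) 0)).toReal = Br T := rfl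
  rw [e] at h3
  linarith

/-- normalised -/
noncomputable def gn (n : ℕ) (W : ℝ) : ℝ≥0∞ := xc * G n W

theorem gn_add (n m : ℕ) (W : ℝ) : gn n W * gn m W ≤ gn (n + m) W := by
  unfold gn
  calc xc * G n W * (xc * G m W) = xc * (xc * (G n W * G m W)) := by ring
    _ ≤ _ := mul_le_mul_right G_add _

theorem gn_mul (T : ℕ) (W : ℝ) : ∀ m : ℕ, gn T W ^ (m + 1) ≤ gn (T * (m + 1)) W
  | 0 => by simp
  | m + 1 => by
    rw [pow_succ]
    refine (mul_le_mul_left (gn_mul T W m) _).trans ((gn_add _ _ _).trans (le_of_eq ?_))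
    congr 1

theorem gn_one {W : ℝ} (hW : 3 ≤ W) : ENNReal.ofReal (1 / 16) ≤ gn 1 W := by
  have h1 := G_one hW
  unfold gn
  calc ENNReal.ofReal (1 / 16) ≤ ENNReal.ofReal (mu0⁻¹ ^ 4) := by
        apply ENNReal.ofReal_le_ofReal
        calc (1 / 16 : ℝ) = (1 / 2) ^ 4 := by norm_num
          _ ≤ _ := pow_le_pow_left₀ (by norm_num) xc_half 4
    _ = xc * xc ^ 3 := by
        rw [xc_eq, ← pow_succ', ENNReal.ofReal_pow (by have := xc_half; linarith)]
    _ ≤ _ := mul_le_mul_right h1 _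

theorem gn_rest {W : ℝ} (hW : 3 ≤ W) (a : ℕ) : ∀ q : ℕ,
    gn a W * ENNReal.ofReal (1 / 16) ^ q ≤ gn (a + q) W
  | 0 => by simp
  | q + 1 => by
    rw [pow_succ, ← mul_assoc]
    refine (mul_le_mul' (gn_rest hW a q) (gn_one hW)).trans ((gn_add _ _ _).trans (le_of_eq ?_))
    congr 1

/-- **chain of blocks** -/
theorem chain {W : ℝ} (hW : 3 ≤ W) {T m n : ℕ} (hm : 1 ≤ m) (hn : n / m = T) {c : ℝ} (hc : 0 ≤ c)
    (h : ENNReal.ofReal c ≤ gn T W) : ENNReal.ofReal (c ^ m * (1 / 16) ^ m) ≤ gn n W := by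
  obtain ⟨m', rfl⟩ : ∃ m', m = m' + 1 := ⟨m - 1, by omega⟩
  have h1 : n = T * (m' + 1) + n % (m' + 1) := by
    rw [← hn]
    have := Nat.div_add_mod n (m' + 1)
    rw [mul_comm] at this
    exact this.symm
  have h2 : n % (m' + 1) ≤ m' + 1 := (Nat.mod_lt _ (by omega)).le
  calc ENNReal.ofReal (c ^ (m' + 1) * (1 / 16) ^ (m' + 1))
      ≤ ENNReal.ofReal (c ^ (m' + 1) * (1 / 16) ^ (n % (m' + 1))) := by
        apply ENNReal.ofReal_le_ofReal
        apply mul_le_mul_of_nonneg_left _ (by positivity)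
        exact pow_le_pow_of_le_one (by norm_num) (by norm_num) h2
    _ = ENNReal.ofReal c ^ (m' + 1) * ENNReal.ofReal (1 / 16) ^ (n % (m' + 1)) := by
        rw [ENNReal.ofReal_mul (by positivity), ENNReal.ofReal_pow hc,
          ENNReal.ofReal_pow (by norm_num)]
    _ ≤ gn (T * (m' + 1)) W * ENNReal.ofReal (1 / 16) ^ (n % (m' + 1)) :=
        mul_le_mul_left ((pow_le_pow_left' h _).trans (gn_mul T W m')) _
    _ ≤ gn (T * (m' + 1) + n % (m' + 1)) W := gn_rest hW _ _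
    _ = gn n W := by rw [← h1]

/-- the point of the last level opposite to `(1, 0)` -/
def opp (L : ℕ) : V := (2 * L - (L / 2 : ℕ), -((L / 2 : ℕ) : ℤ))

/-- **lower bound in domains which contain a rectangle** -/
theorem Z_ge {L : ℕ} (hL : 2 ≤ L) {W : ℝ} (hW : 3 ≤ W) {D : Set V} (hD : SW L W ⊆ D) {c : ℝ}
    (h : ENNReal.ofReal c ≤ gn (L / 2) W) (hc : 0 ≤ c) :
    ENNReal.ofReal (c / 4) ≤ xc * Z D (1, 0) (opp L) := by
  refine le_trans ?_ (mul_le_mul_right (Z_mono hD _ _) _)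
  obtain ⟨n, hn⟩ : ∃ n, n = L / 2 := ⟨_, rfl⟩
  rw [← hn] at h
  rcases Nat.even_or_odd' L with ⟨k, hk | hk⟩
  · have hkn : k = n := by omega
    have e : Z (SW L W) (1, 0) (opp L) = G n W := by
      unfold G opp
      rw [hk, hkn]
      have : 2 * n / 2 = n := by omega
      rw [this]
      congr 1
      apply Prod.ext
      · simp only; push_cast; ring
      · rfl
    rw [e]
    refine le_trans ?_ h
    apply ENNReal.ofReal_le_ofReal
    linarith
  · have hkn : k = n := by omega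
    have hm : ([((1 + 3 * (n : ℤ), -(n : ℤ)) : V), (2 + 3 * (n : ℤ), -(n : ℤ))]) ∈
        Traj {p : V | p = (1 + 3 * (n : ℤ), -(n : ℤ)) ∨ p = (2 + 3 * (n : ℤ), -(n : ℤ))}
          (1 + 3 * (n : ℤ), -(n : ℤ)) (2 + 3 * (n : ℤ), -(n : ℤ)) := by
      refine ⟨rfl, by simp, ?_, ?_, ?_⟩
      · rw [List.nodup_cons]
        refine ⟨?_, List.nodup_singleton _⟩
        rw [List.mem_singleton, Prod.mk.injEq]
        omega
      · simp only [List.isChain_cons_cons, List.isChain_singleton, and_true]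
        exact Or.inl ⟨rfl, Or.inr (by simp only; ring)⟩
      · intro p hp
        simp only [List.mem_cons, List.not_mem_nil, or_false] at hp
        exact hp
    have h2 : xc ≤ Z {p : V | p = (1 + 3 * (n : ℤ), -(n : ℤ)) ∨ p = (2 + 3 * (n : ℤ), -(n : ℤ))}
        (1 + 3 * (n : ℤ), -(n : ℤ)) (2 + 3 * (n : ℤ), -(n : ℤ)) := by
      unfold Z
      have := ENNReal.le_tsum (f := fun l : Traj {p : V | p = (1 + 3 * (n : ℤ), -(n : ℤ)) ∨
        p = (2 + 3 * (n : ℤ), -(n : ℤ))} (1 + 3 * (n : ℤ), -(n : ℤ)) (2 + 3 * (n : ℤ), -(n : ℤ)) =>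
          xc ^ (l.1.length - 1)) ⟨_, hm⟩
      simpa using this
    have h3 : xc * (G n W * xc) ≤ Z (SW L W) (1, 0) (opp L) := by
      refine le_trans (mul_le_mul_right (mul_le_mul_right h2 _) _) ?_
      have e : opp L = (2 + 3 * (n : ℤ), -(n : ℤ)) := by
        unfold opp
        rw [← hn, hk, hkn]
        apply Prod.ext
        · simp only; push_cast; ring
        · rfl
      rw [e]
      unfold G
      apply Z_concat
      · unfold Nbr
        left
        simp only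
        exact ⟨trivial, Or.inr (by ring)⟩
      · rw [Set.disjoint_left]
        rintro p ⟨⟨a1, a2⟩, -⟩ hp
        rcases hp with rfl | rfl
        · simp only at a2; push_cast at a2; omega
        · simp only at a2; push_cast at a2; omega
      · rintro p ⟨⟨a1, a2⟩, a3⟩
        refine ⟨⟨a1, ?_⟩, a3⟩
        rw [hk, hkn]
        push_cast at a2 ⊢
        omega
      · intro p hp
        rcases hp with rfl | rfl
        · refine ⟨⟨?_, ?_⟩, ?_⟩
          · simp only; omega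
          · rw [hk, hkn]; simp only; push_cast; omega
          · have : ((1 + 3 * (n : ℤ) + 3 * -(n : ℤ) : ℤ) : ℝ) = 1 := by push_cast; ring
            simp only
            rw [this]
            norm_num
            linarith
        · refine ⟨⟨?_, ?_⟩, ?_⟩
          · simp only; omega
          · rw [hk, hkn]; simp only; push_cast; omega
          · have : ((2 + 3 * (n : ℤ) + 3 * -(n : ℤ) : ℤ) : ℝ) = 2 := by push_cast; ring
            simp only
            rw [this]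
            norm_num
            linarith
    have hx : ENNReal.ofReal (1 / 2) ≤ xc := by
      rw [xc_eq]
      exact ENNReal.ofReal_le_ofReal xc_half
    calc ENNReal.ofReal (c / 4) = ENNReal.ofReal (1 / 2) * ENNReal.ofReal (1 / 2) *
          ENNReal.ofReal c := by
          rw [← ENNReal.ofReal_mul (by norm_num), ← ENNReal.ofReal_mul (by norm_num)]
          congr 1
          ring
      _ ≤ xc * xc * gn n W := mul_le_mul' (mul_le_mul' hx hx) h
      _ = xc * (xc * (G n W * xc)) := by unfold gn; ring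
      _ ≤ _ := mul_le_mul_right h3 _

/-- the probability that the width is in `(ε L, k L]`, for the walk of `D` between opposite
points -/
noncomputable def PD (D : Set V) (ε k : ℝ) (L : ℕ) : ℝ≥0∞ :=
  (∑' l : {l // l ∈ Traj D (1, 0) (opp L) ∧ ¬ Wid l (ε * L) ∧ Wid l (k * L)},
    xc ^ (l.1.length - 1)) / Z D (1, 0) (opp L)

theorem tsum_split {D : Set V} {a b : V} (p : List V → Prop) :
    Z D a b = (∑' l : {l // l ∈ Traj D a b ∧ p l}, xc ^ (l.1.length - 1)) +
      ∑' l : {l // l ∈ Traj D a b ∧ ¬ p l}, xc ^ (l.1.length - 1) := by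
  unfold Z
  have e1 : ∀ A : Set (List V), ∑' l : A, xc ^ (l.1.length - 1) =
      ∑' l : List V, A.indicator (fun l => xc ^ (l.length - 1)) l := fun A =>
    tsum_subtype A (fun l : List V => xc ^ (l.length - 1))
  have h1 := e1 (Traj D a b)
  have h2 := e1 {l | l ∈ Traj D a b ∧ p l}
  have h3 := e1 {l | l ∈ Traj D a b ∧ ¬ p l}
  change ∑' l : {l // l ∈ Traj D a b ∧ p l}, xc ^ (l.1.length - 1) = _ at h2
  change ∑' l : {l // l ∈ Traj D a b ∧ ¬ p l}, xc ^ (l.1.length - 1) = _ at h3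
  rw [h1, h2, h3, ← ENNReal.tsum_add]
  refine tsum_congr fun l => ?_
  by_cases hl : l ∈ Traj D a b
  · by_cases hp : p l
    · rw [Set.indicator_of_mem hl, Set.indicator_of_mem (show l ∈ {l | l ∈ Traj D a b ∧ p l} from
        ⟨hl, hp⟩), Set.indicator_of_notMem (show l ∉ {l | l ∈ Traj D a b ∧ ¬ p l} from
        fun h => h.2 hp), add_zero]
    · rw [Set.indicator_of_mem hl, Set.indicator_of_notMem (show l ∉ {l | l ∈ Traj D a b ∧ p l} from
        fun h => hp h.2), Set.indicator_of_mem (show l ∈ {l | l ∈ Traj D a b ∧ ¬ p l} from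
        ⟨hl, hp⟩), zero_add]
  · rw [Set.indicator_of_notMem hl, Set.indicator_of_notMem (show l ∉ {l | l ∈ Traj D a b ∧ p l}
      from fun h => hl h.1), Set.indicator_of_notMem (show l ∉ {l | l ∈ Traj D a b ∧ ¬ p l} from
      fun h => hl h.1), zero_add]

/-- **probabilities** -/
theorem PD_ge {L : ℕ} (hL : 1 ≤ L) {D : Set V} (hD : D ⊆ Strip L) {δ ε k η : ℝ} (hδ : 0 < δ)
    (hZ : ENNReal.ofReal δ ≤ xc * Z D (1, 0) (opp L))
    (h : (ma (Cr L (BadL ε k L))).toReal ≤ η * δ) : ENNReal.ofReal (1 - η) ≤ PD D ε k L := by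
  set g : List V → Prop := fun l => ¬ Wid l (ε * L) ∧ Wid l (k * L) with hg
  have hb : ∀ l, ¬ g l ↔ BadL ε k L l := by
    intro l
    rw [hg]
    unfold BadL
    change _ ↔ Wid l (ε * L) ∨ ¬ Wid l (k * L)
    tauto
  have hopp : opp L = (2 * (L : ℤ) + -((L / 2 : ℕ) : ℤ), -((L / 2 : ℕ) : ℤ)) := rfl
  have h1 : xc * ∑' l : {l // l ∈ Traj D (1, 0) (opp L) ∧ ¬ g l}, xc ^ (l.1.length - 1) ≤
      ma (Cr L (BadL ε k L)) := by
    rw [Cr_eq hL (BadL ε k L) (fun l => by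
      unfold BadL
      change Wid l.reverse _ ∨ ¬ Wid l.reverse _ ↔ Wid l _ ∨ ¬ Wid l _
      rw [Wid_rev, Wid_rev])]
    apply mul_le_mul_right
    refine le_trans ?_ (ENNReal.le_tsum (-((L / 2 : ℕ) : ℤ)))
    have hm : ∀ l, l ∈ Traj D (1, 0) (opp L) ∧ ¬ g l → l ∈ Traj (Strip L) (1, 0)
        (2 * (L : ℤ) + -((L / 2 : ℕ) : ℤ), -((L / 2 : ℕ) : ℤ)) ∧ BadL ε k L l := by
      rintro l ⟨h1, h2⟩
      refine ⟨?_, (hb l).1 h2⟩
      rw [hopp] at h1
      exact ⟨h1.1, h1.2.1, h1.2.2.1, h1.2.2.2.1, fun p hp => hD (h1.2.2.2.2 p hp)⟩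
    have hinj : Function.Injective (fun l : {l // l ∈ Traj D (1, 0) (opp L) ∧ ¬ g l} =>
        (⟨l.1, hm l.1 l.2⟩ : {l // l ∈ Traj (Strip L) (1, 0)
        (2 * (L : ℤ) + -((L / 2 : ℕ) : ℤ), -((L / 2 : ℕ) : ℤ)) ∧ BadL ε k L l})) := by
      rintro ⟨l, h1⟩ ⟨l', h1'⟩ e
      exact Subtype.ext (Subtype.mk.inj e)
    exact ENNReal.tsum_comp_le_tsum_of_injective hinj (fun l : {l // l ∈ Traj (Strip L) (1, 0)
        (2 * (L : ℤ) + -((L / 2 : ℕ) : ℤ), -((L / 2 : ℕ) : ℤ)) ∧ BadL ε k L l} =>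
        xc ^ (l.1.length - 1))
  have h2 := tsum_split (D := D) (a := (1, 0)) (b := opp L) g
  set Zg := ∑' l : {l // l ∈ Traj D (1, 0) (opp L) ∧ g l}, xc ^ (l.1.length - 1) with hZg
  set Zb := ∑' l : {l // l ∈ Traj D (1, 0) (opp L) ∧ ¬ g l}, xc ^ (l.1.length - 1) with hZb
  have hPD : PD D ε k L = Zg / Z D (1, 0) (opp L) := rfl
  rw [hPD]
  have h3 : xc * Zb ≤ ENNReal.ofReal η * (xc * Z D (1, 0) (opp L)) := by
    rcases le_or_gt η 0 with h0 | h0
    · have : (ma (Cr L (BadL ε k L))).toReal = 0 := by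
        apply le_antisymm _ ENNReal.toReal_nonneg
        exact h.trans (mul_nonpos_of_nonpos_of_nonneg h0 hδ.le)
      have h4 : ma (Cr L (BadL ε k L)) = 0 := by
        rcases (ENNReal.toReal_eq_zero_iff _).1 this with h5 | h5
        · exact h5
        · exact absurd h5 (Cr_ne_top hL _)
      rw [h4] at h1
      exact h1.trans zero_le
    · calc xc * Zb ≤ ma (Cr L (BadL ε k L)) := h1
        _ = ENNReal.ofReal (ma (Cr L (BadL ε k L))).toReal :=
            (ENNReal.ofReal_toReal (Cr_ne_top hL _)).symm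
        _ ≤ ENNReal.ofReal (η * δ) := ENNReal.ofReal_le_ofReal h
        _ = ENNReal.ofReal η * ENNReal.ofReal δ := ENNReal.ofReal_mul h0.le
        _ ≤ _ := mul_le_mul_right hZ _
  have hZ0 : Z D (1, 0) (opp L) ≠ 0 := by
    intro h0
    rw [h0, mul_zero, nonpos_iff_eq_zero, ENNReal.ofReal_eq_zero] at hZ
    linarith
  have hZt : Z D (1, 0) (opp L) ≠ ⊤ := by
    intro ht
    have h4 : xc * Z D (1, 0) (opp L) ≤ xc * B L := by
      apply mul_le_mul_right
      refine (Z_mono hD _ _).trans ?_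
      unfold B
      exact ENNReal.le_tsum (f := fun x : ℤ => Z (Strip L) (1, 0) (2 * (L : ℤ) + x, x))
        (-((L / 2 : ℕ) : ℤ))
    rw [ht, ENNReal.mul_top xc_ne_zero, ← B_eq hL] at h4
    exact absurd h4 (not_le.2 ENNReal.ofReal_lt_top)
  have h5 : Zb ≤ ENNReal.ofReal η * Z D (1, 0) (opp L) := by
    rw [← ENNReal.mul_le_mul_iff_right xc_ne_zero xc_ne_top]
    refine h3.trans (le_of_eq ?_)
    ring
  rw [ENNReal.le_div_iff_mul_le (Or.inl hZ0) (Or.inl hZt)]
  rcases le_or_gt η 0 with h0 | h0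
  · have hZb0 : Zb = 0 := by
      rw [ENNReal.ofReal_of_nonpos h0, zero_mul, nonpos_iff_eq_zero] at h5
      exact h5
    have hη1 : (ma (Cr L (BadL ε k L))).toReal = 0 := by
      apply le_antisymm _ ENNReal.toReal_nonneg
      exact h.trans (mul_nonpos_of_nonpos_of_nonneg h0 hδ.le)
    rw [hη1] at h
    have hη : η = 0 := by
      by_contra hne
      have : η < 0 := lt_of_le_of_ne h0 hne
      have := mul_neg_of_neg_of_pos this hδ
      linarith
    rw [hη, sub_zero, ENNReal.ofReal_one, one_mul, h2, hZb0, add_zero]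
  · rcases le_or_gt η 1 with hη | hη
    · have h6 : ENNReal.ofReal (1 - η) + ENNReal.ofReal η = 1 := by
        rw [← ENNReal.ofReal_add (by linarith) h0.le]
        simp
      have h7 : ENNReal.ofReal (1 - η) * Z D (1, 0) (opp L) +
          ENNReal.ofReal η * Z D (1, 0) (opp L) = Zg + Zb := by
        rw [← add_mul, h6, one_mul]
        exact h2
      have hZbt : Zb ≠ ⊤ := by
        intro ht
        rw [ht, add_top] at h2
        exact hZt h2
      have h8 : ENNReal.ofReal (1 - η) * Z D (1, 0) (opp L) + Zb ≤ Zg + Zb := by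
        rw [← h7]
        exact add_le_add_right h5 _
      exact (ENNReal.add_le_add_iff_right hZbt).1 h8
    · rw [ENNReal.ofReal_of_nonpos (by linarith), zero_mul]
      exact zero_le

end Pool.Agent.W832.HR
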