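import Pool.Agent.W832.HR.RectB

set_option autoImplicit false

/-! Point-to-point crossings of rectangles, all scales. -/

namespace Pool.Agent.W832.HR

open H978R2.Hex Pool.Agent.W818.TD
open scoped ENNReal

theorem gn_mono {n : ℕ} {W W' : ℝ} (h : W ≤ W') : gn n W ≤ gn n W' := by
  unfold gn
  exact mul_le_mul_right (G_mono h) _

/-- straight path -/
theorem gn_straight {W : ℝ} (hW : 3 ≤ W) {n : ℕ} (hn : 1 ≤ n) :
    ENNReal.ofReal ((1 / 16) ^ n) ≤ gn n W := by
  obtain ⟨q, rfl⟩ : ∃ q, n = 1 + q := ⟨n - 1, by omega⟩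
  rw [ENNReal.ofReal_pow (by norm_num), pow_add, pow_one]
  exact (mul_le_mul_left (gn_one hW) _).trans (gn_rest hW 1 q)

/-- one block of height `T`, all scales -/
theorem gn_block {T : ℕ} (hT : 2 ≤ T) :
    ENNReal.ofReal (1 / (T : ℝ) ^ 28) ≤ gn T (512 * Real.log T * T + 4) := by
  have hT1 : 1 ≤ T := by omega
  have hlog := log_ge hT
  have hTr : (2 : ℝ) ≤ T := by exact_mod_cast hT
  have h1 := all_scales (s := 1) hT le_rfl
  have hBr := Br_ge hT1
  have hB0 : 0 < Br T := (br_lower hT1).1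
  have h2 : (ma (Cr T (BadL (1 / (256 * ((1 : ℕ) : ℝ) * Real.log T))
      (256 * ((1 : ℕ) : ℝ) * Real.log T) T))).toReal ≤ 1 / 2 * Br T := by
    refine h1.trans (mul_le_mul_of_nonneg_right ?_ hB0.le)
    rw [pow_one]
    exact one_div_le_one_div_of_le (by norm_num) hTr
  have h3 := wid_of_bad hT1 h2
  have h4 := block hT1 (w := 256 * ((1 : ℕ) : ℝ) * Real.log T * T) (by positivity) h3
  have e : 2 * (256 * ((1 : ℕ) : ℝ) * Real.log T * T) + 4 = 512 * Real.log T * T + 4 := by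
    push_cast
    ring
  rw [e] at h4
  refine le_trans (ENNReal.ofReal_le_ofReal ?_) h4
  have hlT : Real.log T ≤ T := (Real.log_le_sub_one_of_pos (by linarith)).trans (by linarith)
  have h5 : 1 / (T : ℝ) ^ 14 ≤ Br T / (256 * ((1 : ℕ) : ℝ) * Real.log T * T + 3) := by
    rw [le_div_iff₀ (by positivity)]
    have h6 : 256 * ((1 : ℕ) : ℝ) * Real.log T * T + 3 ≤ 257 * (T : ℝ) ^ 2 := by
      push_cast
      nlinarith
    have h7 : 1 / (T : ℝ) ^ 14 * (256 * ((1 : ℕ) : ℝ) * Real.log T * T + 3) ≤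
        1 / (T : ℝ) ^ 14 * (257 * (T : ℝ) ^ 2) :=
      mul_le_mul_of_nonneg_left h6 (by positivity)
    refine h7.trans (le_trans ?_ hBr)
    have h8 : (2048 : ℝ) ≤ (T : ℝ) ^ 11 := by
      calc (2048 : ℝ) = 2 ^ 11 := by norm_num
        _ ≤ (T : ℝ) ^ 11 := pow_le_pow_left₀ (by norm_num) hTr 11
    have h9 : 1 / (T : ℝ) ^ 14 * (257 * (T : ℝ) ^ 2) = 257 / (T : ℝ) ^ 12 := by
      field_simp
    rw [h9, div_le_div_iff₀ (by positivity) (by positivity)]
    have h10 : (T : ℝ) ^ 12 = (T : ℝ) ^ 11 * T := by ring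
    rw [h10]
    nlinarith
  calc 1 / (T : ℝ) ^ 28 = (1 / (T : ℝ) ^ 14) ^ 2 := by
        rw [div_pow, one_pow, ← pow_mul]
    _ ≤ _ := pow_le_pow_left₀ (by positivity) h5 2

/-- lower bound for the rectangle, all scales -/
theorem gn_all {ρ : ℝ} (hρ : 0 < ρ) {L : ℕ} (hL : 2 ≤ L) {W : ℝ} (hW : ρ * L + 3 ≤ W) :
    ENNReal.ofReal ((1 / (L : ℝ) ^ 32) ^ ⌈512 * Real.log L / ρ⌉₊) ≤ gn (L / 2) W := by
  have hlog := log_ge hL
  have hLr : (2 : ℝ) ≤ L := by exact_mod_cast hL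
  have hW3 : 3 ≤ W := by
    have : 0 ≤ ρ * L := by positivity
    linarith
  set m : ℕ := ⌈512 * Real.log L / ρ⌉₊ with hm
  have hm0 : 512 * Real.log L / ρ ≤ m := Nat.le_ceil _
  have hmpos : 1 ≤ m := by
    have : 0 < (m : ℝ) := lt_of_lt_of_le (by positivity) hm0
    exact_mod_cast this
  have hmr : (1 : ℝ) ≤ m := by exact_mod_cast hmpos
  have h16 : (1 / (L : ℝ) ^ 4) ≤ 1 / 16 := by
    apply one_div_le_one_div_of_le (by norm_num)
    calc (16 : ℝ) = 2 ^ 4 := by norm_num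
      _ ≤ (L : ℝ) ^ 4 := pow_le_pow_left₀ (by norm_num) hLr 4
  obtain ⟨T, hT⟩ : ∃ T, T = (L / 2) / m := ⟨_, rfl⟩
  rcases Nat.lt_or_ge T 2 with hT2 | hT2
  · have hn1 : 1 ≤ L / 2 := by omega
    refine le_trans (ENNReal.ofReal_le_ofReal ?_) (gn_straight hW3 hn1)
    have h1 : L / 2 ≤ 2 * m := by
      have := Nat.lt_mul_div_succ (L / 2) (by omega : 0 < m)
      rw [← hT] at this
      have h2 : m * (T + 1) ≤ m * 2 := Nat.mul_le_mul_left _ (by omega)
      omega
    have h2 : ((1 : ℝ) / 16) ^ (2 * m) ≤ (1 / 16) ^ (L / 2) :=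
      pow_le_pow_of_le_one (by norm_num) (by norm_num) h1
    refine le_trans ?_ h2
    rw [pow_mul]
    apply pow_le_pow_left₀ (by positivity)
    calc 1 / (L : ℝ) ^ 32 ≤ 1 / (L : ℝ) ^ 8 := by
          apply one_div_le_one_div_of_le (by positivity)
          exact pow_le_pow_right₀ (by linarith) (by norm_num)
      _ = (1 / (L : ℝ) ^ 4) ^ 2 := by
          rw [div_pow, one_pow, ← pow_mul]
      _ ≤ _ := pow_le_pow_left₀ (by positivity) h16 2
  · have hTL : T * (2 * m) ≤ L := by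
      have h1 : T * m ≤ L / 2 := by
        rw [hT]
        exact Nat.div_mul_le_self _ _
      have h2 : T * (2 * m) = 2 * (T * m) := by ring
      omega
    have hTLr : (T : ℝ) * (2 * m) ≤ L := by exact_mod_cast hTL
    have hTr : (2 : ℝ) ≤ T := by exact_mod_cast hT2
    have hTL1 : (T : ℝ) ≤ L := by nlinarith
    have hlogT : Real.log T ≤ Real.log L := Real.log_le_log (by linarith) hTL1
    have hlog2 := log_ge hT2
    have hblk : 512 * Real.log T * T + 4 ≤ W := by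
      have h1 : 512 * Real.log L ≤ ρ * m := by
        rw [div_le_iff₀ hρ] at hm0
        linarith
      have h2 : 512 * Real.log T * T * 2 ≤ ρ * L := by
        have h3 : 512 * Real.log T * T * 2 ≤ (ρ * m) * T * 2 := by
          apply mul_le_mul_of_nonneg_right _ (by norm_num)
          apply mul_le_mul_of_nonneg_right _ (by linarith)
          linarith
        have h4 : (ρ * m) * T * 2 = ρ * (T * (2 * m)) := by ring
        have h5 : ρ * (T * (2 * m)) ≤ ρ * L := mul_le_mul_of_nonneg_left hTLr hρ.le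
        linarith
      have h6 : 1 ≤ Real.log T * T := by nlinarith
      linarith
    have h1 : ENNReal.ofReal (1 / (T : ℝ) ^ 28) ≤ gn T W :=
      (gn_block hT2).trans (gn_mono hblk)
    have h2 := chain hW3 hmpos hT.symm (by positivity) h1
    refine le_trans (ENNReal.ofReal_le_ofReal ?_) h2
    rw [← mul_pow]
    apply pow_le_pow_left₀ (by positivity)
    calc 1 / (L : ℝ) ^ 32 = 1 / (L : ℝ) ^ 28 * (1 / (L : ℝ) ^ 4) := by
          rw [one_div_mul_one_div, ← pow_add]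
      _ ≤ 1 / (T : ℝ) ^ 28 * (1 / 16) := by
          apply mul_le_mul _ h16 (by positivity) (by positivity)
          apply one_div_le_one_div_of_le (by positivity)
          exact pow_le_pow_left₀ (by linarith) hTL1 28

theorem pow_exp {L : ℕ} (hL : 2 ≤ L) (j : ℕ) :
    (1 / (L : ℝ) ^ j) = Real.exp (-(j * Real.log L)) := by
  have hLr : (0 : ℝ) < L := by
    have : (2 : ℝ) ≤ L := by exact_mod_cast hL
    linarith
  rw [Real.exp_neg, Real.exp_nat_mul, Real.exp_log hLr, one_div]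

/-- the tails of the width, at all scales -/
theorem tail_all {L : ℕ} (hL2 : 2 ≤ L) {A : ℝ} (hA : 0 < A) :
    (ma (Cr L (BadL (1 / (32 * A + 112)) (32 * A + 112) L))).toReal ≤ Real.exp (-A) := by
  have hL : 1 ≤ L := by omega
  set N : ℕ := ⌈2 * A + 6⌉₊ with hN
  have hN1 : 2 * A + 6 ≤ N := Nat.le_ceil _
  have hN2 : (N : ℝ) < 2 * A + 6 + 1 := Nat.ceil_lt_add_one (by positivity)
  have hNpos : 1 ≤ N := by
    have : 0 < (N : ℝ) := lt_of_lt_of_le (by positivity) hN1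
    exact_mod_cast this
  have hNr : (1 : ℝ) ≤ N := by exact_mod_cast hNpos
  have hsub : Cr L (BadL (1 / (32 * A + 112)) (32 * A + 112) L) ⊆
      Cr L (BadL (1 / (16 * (N : ℝ))) (8 * ((N : ℝ) + 1)) L) := by
    apply Cr_sub
    · apply one_div_le_one_div_of_le (by positivity)
      linarith
    · linarith
  have h3 := (ENNReal.toReal_mono (Cr_ne_top hL _) (ma_mono hsub)).trans (bad_le N hL hNpos)
  refine h3.trans ?_
  have hB2 : 4 * (1 / 2 : ℝ) ^ N * Br (L / 2) ≤ 4 * (1 / 2 : ℝ) ^ N := mul_le_of_le_one_right (by positivity) (Br_le_one (by omega))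
  have hQ := Qr_le hL
  have c1 : 11 * (3 / 5 : ℝ) ^ N * Qr L ≤ 11 * (3 / 5 : ℝ) ^ N * (1 / 2) :=
    mul_le_mul_of_nonneg_left hQ (by positivity)
  have c2 : (1 / 2 : ℝ) ^ N ≤ (3 / 5) ^ N := pow_le_pow_left₀ (by norm_num) (by norm_num) N
  have c3 : (3 / 5 : ℝ) ^ N ≤ Real.exp (-(A + 3)) := by
    have h1 : (3 / 5 : ℝ) ≤ Real.exp (-(1 / 2)) := by
      rw [Real.exp_neg]
      rw [le_inv_comm₀ (by norm_num) (Real.exp_pos _)]
      refine exp_half.trans (le_of_eq ?_)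
      norm_num
    calc (3 / 5 : ℝ) ^ N ≤ (Real.exp (-(1 / 2))) ^ N := pow_le_pow_left₀ (by norm_num) h1 N
      _ = Real.exp (N * (-(1 / 2))) := by rw [Real.exp_nat_mul]
      _ ≤ _ := by
        apply Real.exp_le_exp.2
        linarith
  have c4 : Real.exp (-(A + 3)) = Real.exp (-A) * Real.exp (-3) := by
    rw [← Real.exp_add]
    congr 1
    ring
  have c5 : Real.exp (-3) ≤ 1 / 10 := by
    rw [Real.exp_neg, inv_le_comm₀ (Real.exp_pos _) (by norm_num)]
    have h1 := Real.exp_one_gt_d9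
    have h2 : Real.exp 3 = Real.exp 1 ^ 3 := by
      rw [← Real.exp_nat_mul]
      norm_num
    rw [h2]
    calc ((1 : ℝ) / 10)⁻¹ ≤ 2.7 ^ 3 := by norm_num
      _ ≤ _ := pow_le_pow_left₀ (by norm_num) (by linarith) 3
  have c6 : Real.exp (-(A + 3)) ≤ Real.exp (-A) * (1 / 10) := by
    rw [c4]
    exact mul_le_mul_of_nonneg_left c5 (Real.exp_pos _).le
  have := Real.exp_pos (-A)
  linarith

/-- **Theorem**, all scales -/
theorem rect_all (ρ : ℝ) (hρ : 0 < ρ) : ∃ C : ℝ, 0 < C ∧ ∀ L : ℕ, 2 ≤ L → ∀ D : Set V,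
    SW L (ρ * L + 3) ⊆ D → D ⊆ Strip L →
    ENNReal.ofReal (Real.exp (-(C * Real.log L ^ 2))) ≤ Z D (1, 0) (opp L) ∧
    ∀ s : ℕ, 1 ≤ s → ENNReal.ofReal (1 - Real.exp (-(s * Real.log L ^ 2))) ≤
      PD D (1 / (C * s * Real.log L ^ 2)) (C * s * Real.log L ^ 2) L := by
  set C0 : ℝ := 16384 / ρ + 68 with hC0
  have hC0p : 0 < C0 := by positivity
  refine ⟨32 * C0 + 480, by positivity, ?_⟩
  intro L hL D hD1 hD2
  have hlog := log_ge hL
  have hLr : (2 : ℝ) ≤ L := by exact_mod_cast hL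
  set lam := Real.log L with hlam
  have hl2 : 1 / 4 ≤ lam ^ 2 := by nlinarith
  have hl3 : lam ≤ 2 * lam ^ 2 := by nlinarith
  set m : ℕ := ⌈512 * Real.log L / ρ⌉₊ with hm
  have hm1 : (m : ℝ) < 512 * Real.log L / ρ + 1 := Nat.ceil_lt_add_one (by positivity)
  have g1 := gn_all hρ hL (W := ρ * L + 3) le_rfl
  have g2 := Z_ge hL (by
    have : 0 ≤ ρ * L := by positivity
    linarith) hD1 g1 (by positivity)
  have g3 : Real.exp (-(C0 * lam ^ 2)) ≤ (1 / (L : ℝ) ^ 32) ^ m / 4 := by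
    have e1 : (1 / (L : ℝ) ^ 2) ≤ 1 / 4 := by
      apply one_div_le_one_div_of_le (by norm_num)
      nlinarith
    have e2 : (1 / (L : ℝ) ^ 32) ^ m * (1 / (L : ℝ) ^ 2) ≤ (1 / (L : ℝ) ^ 32) ^ m / 4 := by
      rw [div_eq_mul_one_div ((1 / (L : ℝ) ^ 32) ^ m) 4]
      exact mul_le_mul_of_nonneg_left e1 (by positivity)
    refine le_trans ?_ e2
    rw [pow_exp hL, pow_exp hL, ← Real.exp_nat_mul, ← Real.exp_add]
    apply Real.exp_le_exp.2
    push_cast
    rw [← hlam]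
    have e3 : (m : ℝ) * (32 * lam) ≤ (512 * lam / ρ + 1) * (32 * lam) :=
      mul_le_mul_of_nonneg_right hm1.le (by positivity)
    have e4 : (512 * lam / ρ + 1) * (32 * lam) = 16384 / ρ * lam ^ 2 + 32 * lam := by
      field_simp
      ring
    have e5 : C0 * lam ^ 2 = 16384 / ρ * lam ^ 2 + 68 * lam ^ 2 := by
      rw [hC0]
      ring
    rw [e5]
    linarith
  have g4 : ENNReal.ofReal (Real.exp (-(C0 * lam ^ 2))) ≤ xc * Z D (1, 0) (opp L) :=
    (ENNReal.ofReal_le_ofReal g3).trans g2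
  constructor
  · have g5 : xc * Z D (1, 0) (opp L) ≤ Z D (1, 0) (opp L) :=
      mul_le_of_le_one_left zero_le xc_le_one
    refine le_trans (ENNReal.ofReal_le_ofReal (Real.exp_le_exp.2 ?_)) (g4.trans g5)
    nlinarith
  · intro s hs
    have hs' : (1 : ℝ) ≤ s := by exact_mod_cast hs
    apply PD_ge (by omega) hD2 (Real.exp_pos _) g4
    rw [← Real.exp_add]
    set A : ℝ := s * lam ^ 2 + C0 * lam ^ 2 with hA
    have hAp : 0 < A := by positivity
    have e1 : -(s * lam ^ 2) + -(C0 * lam ^ 2) = -A := by rw [hA]; ring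
    rw [e1]
    refine le_trans ?_ (tail_all (L := L) hL hAp)
    apply ENNReal.toReal_mono (Cr_ne_top (by omega) _)
    apply ma_mono
    have hsl : lam ^ 2 ≤ s * lam ^ 2 := by nlinarith
    have hA2 : 32 * A + 112 ≤ (32 * C0 + 480) * s * lam ^ 2 := by
      have h1 : C0 * lam ^ 2 ≤ C0 * (s * lam ^ 2) := mul_le_mul_of_nonneg_left hsl hC0p.le
      have h2 : (32 * C0 + 480) * s * lam ^ 2 = 32 * (C0 * (s * lam ^ 2)) + 480 * (s * lam ^ 2) := by
        ring
      rw [h2, hA]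
      linarith
    apply Cr_sub
    · exact one_div_le_one_div_of_le (by positivity) hA2
    · exact hA2

end Pool.Agent.W832.HR
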