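import Mathlib

set_option autoImplicit false

/-! Counting of bad scales. -/

namespace Pool.Agent.W832.HR

open Finset

open Classical in
/-- number of indices below `n` with the property `p` -/
noncomputable def cnt (p : ℕ → Prop) (n : ℕ) : ℕ := ((range n).filter p).card

theorem cnt_zero (p : ℕ → Prop) : cnt p 0 = 0 := by
  classical
  unfold cnt
  simp

theorem cnt_succ_of {p : ℕ → Prop} {n : ℕ} (h : p n) : cnt p (n + 1) = cnt p n + 1 := by
  classical
  unfold cnt
  rw [range_add_one, filter_insert, if_pos h, card_insert_of_notMem (by simp)]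

theorem cnt_succ_not {p : ℕ → Prop} {n : ℕ} (h : ¬ p n) : cnt p (n + 1) = cnt p n := by
  classical
  unfold cnt
  rw [range_add_one, filter_insert, if_neg h]

theorem cnt_mono {p q : ℕ → Prop} (h : ∀ i, p i → q i) (n : ℕ) : cnt p n ≤ cnt q n := by
  classical
  unfold cnt
  apply card_le_card
  intro x hx
  rw [mem_filter] at *
  exact ⟨hx.1, h x hx.2⟩

theorem cnt_le_succ (p : ℕ → Prop) (n : ℕ) : cnt p n ≤ cnt p (n + 1) := by
  by_cases h : p n
  · rw [cnt_succ_of h]; omega
  · rw [cnt_succ_not h]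

theorem cnt_le (p : ℕ → Prop) (n : ℕ) : cnt p n ≤ n := by
  classical
  unfold cnt
  exact (card_filter_le _ _).trans (by simp)

theorem cnt_or (p q : ℕ → Prop) (n : ℕ) : cnt (fun i => p i ∨ q i) n ≤ cnt p n + cnt q n := by
  classical
  unfold cnt
  refine le_trans (le_of_eq (congrArg Finset.card ?_)) (card_union_le _ _)
  ext x
  simp only [mem_filter, mem_union]
  tauto

theorem cnt_shift (p : ℕ → Prop) (n : ℕ) : cnt (fun i => 1 ≤ i ∧ p (i - 1)) n ≤ cnt p n := by
  classical
  induction n with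
  | zero => simp [cnt_zero]
  | succ n ih =>
    match n with
    | 0 =>
      rw [cnt_succ_not (by simp), cnt_zero]
      omega
    | n + 1 =>
      have key : ∀ m, cnt (fun i => 1 ≤ i ∧ p (i - 1)) (m + 1) ≤ cnt p m := by
        intro m
        induction m with
        | zero =>
          rw [cnt_succ_not (by simp), cnt_zero]
          omega
        | succ m ihm =>
          by_cases h : p m
          · rw [cnt_succ_of (by simpa using h), cnt_succ_of h]
            omega
          · rw [cnt_succ_not (by simpa using h), cnt_succ_not h]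
            exact ihm
      exact (key (n + 1)).trans (cnt_le_succ p (n + 1))

theorem cnt_lt (i1 n : ℕ) : cnt (fun i => i < i1) n ≤ min n i1 := by
  induction n with
  | zero => simp [cnt_zero]
  | succ n ih =>
    by_cases h : n < i1
    · rw [cnt_succ_of (p := fun i => i < i1) h]
      omega
    · rw [cnt_succ_not (p := fun i => i < i1) h]
      omega

/-- blocks of length `m` -/
theorem cnt_div (p : ℕ → Prop) (m : ℕ) (hm : 1 ≤ m) (n : ℕ) :
    cnt (fun i => p (i / m)) (m * n) ≤ m * cnt p n := by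
  classical
  induction n with
  | zero => simp [cnt_zero]
  | succ n ih =>
    have key : ∀ r, r ≤ m → cnt (fun i => p (i / m)) (m * n + r) ≤
        m * cnt p n + (if p n then r else 0) := by
      intro r
      induction r with
      | zero => intro _; simpa using ih
      | succ r ihr =>
        intro hr
        have h1 := ihr (by omega)
        have e : (m * n + r) / m = n := by
          rw [Nat.mul_add_div (by omega), Nat.div_eq_of_lt (by omega), add_zero]
        by_cases h : p n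
        · rw [if_pos h] at h1 ⊢
          have h2 : cnt (fun i => p (i / m)) (m * n + r + 1) =
              cnt (fun i => p (i / m)) (m * n + r) + 1 := cnt_succ_of (by rw [e]; exact h)
          rw [← add_assoc, h2]
          omega
        · rw [if_neg h] at h1 ⊢
          have h2 : cnt (fun i => p (i / m)) (m * n + r + 1) =
              cnt (fun i => p (i / m)) (m * n + r) := cnt_succ_not (by rw [e]; exact h)
          rw [← add_assoc, h2]
          exact h1
    have h3 := key m le_rfl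
    rw [Nat.mul_succ]
    by_cases h : p n
    · rw [if_pos h] at h3
      rw [cnt_succ_of h, Nat.mul_succ]
      exact h3
    · rw [if_neg h] at h3
      rw [cnt_succ_not h]
      exact h3

theorem cnt_anti {p : ℕ → Prop} {n n' : ℕ} (h : n ≤ n') : cnt p n ≤ cnt p n' := by
  induction h with
  | refl => exact le_rfl
  | step _ ih => exact ih.trans (cnt_le_succ _ _)

theorem cntA {y : ℕ → ℝ} {K : ℝ} (hK : 1 ≤ K)
    (hd : ∀ i, y (i + 1) ≤ y i) (n : ℕ) :
    K ^ (cnt (fun i => K * y (i + 1) < y i) n) * y n ≤ y 0 := by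
  induction n with
  | zero => simp [cnt_zero]
  | succ n ih =>
    by_cases h : K * y (n + 1) < y n
    · rw [cnt_succ_of (p := fun i => K * y (i + 1) < y i) h]
      calc K ^ (cnt (fun i => K * y (i + 1) < y i) n + 1) * y (n + 1)
          = K ^ (cnt (fun i => K * y (i + 1) < y i) n) * (K * y (n + 1)) := by ring
        _ ≤ K ^ (cnt (fun i => K * y (i + 1) < y i) n) * y n :=
          mul_le_mul_of_nonneg_left h.le (by positivity)
        _ ≤ y 0 := ih
    · rw [cnt_succ_not (p := fun i => K * y (i + 1) < y i) h]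
      exact (mul_le_mul_of_nonneg_left (hd n) (by positivity)).trans ih

theorem cntB {y q : ℕ → ℝ} {Lb : ℝ} (hLb : 1 ≤ Lb) (hy : ∀ i, 0 < y i)
    (hd : ∀ i, y (i + 1) ≤ y i) (hq : ∀ i, 0 ≤ q i)
    (hr : ∀ i, Lb * q (i + 1) ≤ q i + Lb * (y i / 2)) (n : ℕ) :
    Lb ^ (cnt (fun i => Lb * y i < q i) n) * (q n + y n) ≤ (5 / 2) ^ n * (q 0 + y 0) := by
  have hLb0 : 0 < Lb := by linarith
  induction n with
  | zero => simp [cnt_zero]
  | succ n ih =>
    have h1 := hr n
    have h2 := hd n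
    have h3 := hy n
    have h4 := hq n
    by_cases h : Lb * y n < q n
    · rw [cnt_succ_of (p := fun i => Lb * y i < q i) h]
      have h5 : Lb * (q (n + 1) + y (n + 1)) ≤ 5 / 2 * (q n + y n) := by
        have h6 : Lb * y (n + 1) ≤ Lb * y n := mul_le_mul_of_nonneg_left h2 hLb0.le
        nlinarith
      calc Lb ^ (cnt (fun i => Lb * y i < q i) n + 1) * (q (n + 1) + y (n + 1))
          = Lb ^ (cnt (fun i => Lb * y i < q i) n) * (Lb * (q (n + 1) + y (n + 1))) := by ring
        _ ≤ Lb ^ (cnt (fun i => Lb * y i < q i) n) * (5 / 2 * (q n + y n)) :=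
          mul_le_mul_of_nonneg_left h5 (by positivity)
        _ = 5 / 2 * (Lb ^ (cnt (fun i => Lb * y i < q i) n) * (q n + y n)) := by ring
        _ ≤ 5 / 2 * ((5 / 2) ^ n * (q 0 + y 0)) := by linarith
        _ = (5 / 2) ^ (n + 1) * (q 0 + y 0) := by ring
    · rw [cnt_succ_not (p := fun i => Lb * y i < q i) h]
      have h5 : q (n + 1) + y (n + 1) ≤ 5 / 2 * (q n + y n) := by
        have h6 : q (n + 1) ≤ q n + y n / 2 := by
          have h7 : Lb * q (n + 1) ≤ Lb * (q n + y n / 2) := by nlinarith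
          exact le_of_mul_le_mul_left h7 hLb0
        linarith
      calc Lb ^ (cnt (fun i => Lb * y i < q i) n) * (q (n + 1) + y (n + 1))
          ≤ Lb ^ (cnt (fun i => Lb * y i < q i) n) * (5 / 2 * (q n + y n)) :=
          mul_le_mul_of_nonneg_left h5 (by positivity)
        _ = 5 / 2 * (Lb ^ (cnt (fun i => Lb * y i < q i) n) * (q n + y n)) := by ring
        _ ≤ 5 / 2 * ((5 / 2) ^ n * (q 0 + y 0)) := by linarith
        _ = (5 / 2) ^ (n + 1) * (q 0 + y 0) := by ring

/-- choice of the ratio of the scales -/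
theorem exists_ratio (p : ℕ) : ∃ m : ℕ, 1 ≤ m ∧
    (3 * (2 : ℝ) ^ m) ^ p ≤ (5 / 3) ^ (2 ^ m - 1) := by
  have h1 := tendsto_pow_const_div_const_pow_of_one_lt p (r := (5 / 3 : ℝ)) (by norm_num)
  have h2 : Filter.Tendsto (fun m : ℕ => 2 ^ m) Filter.atTop Filter.atTop :=
    tendsto_pow_atTop_atTop_of_one_lt (by norm_num)
  have h3 := h1.comp h2
  have h4 : 0 < 1 / ((5 / 3 : ℝ) * 3 ^ p) := by positivity
  obtain ⟨m, hm1, hm⟩ := ((Filter.eventually_ge_atTop 1).and
    (h3.eventually (gt_mem_nhds h4))).exists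
  refine ⟨m, hm1, ?_⟩
  simp only [Function.comp_apply] at hm
  rw [div_lt_div_iff₀ (by positivity) (by positivity), one_mul] at hm
  have e : (5 / 3 : ℝ) ^ (2 ^ m) = (5 / 3) * (5 / 3) ^ (2 ^ m - 1) := by
    rw [← pow_succ']
    congr 1
    have := Nat.one_le_two_pow (n := m)
    omega
  rw [e] at hm
  rw [mul_pow]
  push_cast at hm
  nlinarith

/-- **bad scales are rare** -/
theorem rare {y q : ℕ → ℝ} {m p : ℕ} (hm : 1 ≤ m)
    (hmp : (3 * (2 : ℝ) ^ m) ^ p ≤ (5 / 3) ^ (2 ^ m - 1))
    (hy : ∀ i, 0 < y i) (hd : ∀ i, y (i + 1) ≤ y i) (hy0 : y 0 ≤ 1)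
    (hlow : ∀ i, 1 / (4 * ((2 : ℝ) ^ m) ^ i) ≤ y i) (hq : ∀ i, 0 ≤ q i) (hq0 : q 0 ≤ 1 / 2)
    (hr : ∀ i, q (i + 1) ≤ (3 / 5) ^ (2 ^ m - 1) * q i + y i / 2) (n : ℕ) :
    p * cnt (fun i => (1 ≤ i ∧ ((2 : ℝ) ^ m) ^ p * y i < y (i - 1)) ∨
      (((2 : ℝ) ^ m) ^ p * y (i + 1) < y i ∨ (5 / 3) ^ (2 ^ m - 1) * y i < q i)) n ≤
      3 * n + 5 := by
  have hM : (2 : ℝ) ≤ 2 ^ m := by
    calc (2 : ℝ) = 2 ^ 1 := by norm_num
      _ ≤ 2 ^ m := pow_le_pow_right₀ (by norm_num) hm
  set M : ℝ := 2 ^ m with hMdef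
  have hM1 : 1 < M := by linarith
  set A := cnt (fun i => M ^ p * y (i + 1) < y i) n with hA
  set C := cnt (fun i => (5 / 3) ^ (2 ^ m - 1) * y i < q i) n with hC
  -- first count
  have a1 := cntA (y := y) (K := M ^ p) (one_le_pow₀ hM1.le) hd n
  have a2 : p * A ≤ n + 2 := by
    by_contra hc
    rw [not_le] at hc
    have h1 : M ^ (n + 2) < M ^ (p * A) := pow_lt_pow_right₀ hM1 hc
    have h2 : (M ^ p) ^ A = M ^ (p * A) := by rw [← pow_mul]
    rw [← hA, h2] at a1
    have h3 := hlow n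
    have h4 : M ^ (p * A) * (1 / (4 * M ^ n)) ≤ 1 :=
      (mul_le_mul_of_nonneg_left h3 (by positivity)).trans (a1.trans hy0)
    rw [mul_one_div, div_le_one (by positivity)] at h4
    have h5 : M ^ (n + 2) = M ^ n * (M * M) := by ring
    have h6 : 4 ≤ M * M := by nlinarith
    have h7 : 0 < M ^ n := by positivity
    nlinarith
  -- second count
  have hLb : (1 : ℝ) ≤ (5 / 3) ^ (2 ^ m - 1) := one_le_pow₀ (by norm_num)
  have hLl : (5 / 3 : ℝ) ^ (2 ^ m - 1) * (3 / 5) ^ (2 ^ m - 1) = 1 := by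
    rw [← mul_pow]
    norm_num
  have b1 := cntB (y := y) (q := q) hLb hy hd hq (by
    intro i
    have h1 := mul_le_mul_of_nonneg_left (hr i) (by linarith : (0 : ℝ) ≤ (5 / 3) ^ (2 ^ m - 1))
    rw [mul_add, ← mul_assoc, hLl, one_mul] at h1
    exact h1) n
  have b2 : p * C ≤ n + 1 := by
    by_contra hc
    rw [not_le] at hc
    have h1 : (3 * M) ^ (n + 1) < (3 * M) ^ (p * C) := pow_lt_pow_right₀ (by linarith) hc
    have h2 : (3 * M) ^ (p * C) ≤ ((5 / 3 : ℝ) ^ (2 ^ m - 1)) ^ C := by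
      rw [pow_mul]
      exact pow_le_pow_left₀ (by positivity) hmp C
    rw [← hC] at b1
    have h3 := hlow n
    have h4 : (3 * M) ^ (p * C) * (1 / (4 * M ^ n)) ≤ (5 / 2) ^ n * (3 / 2) := by
      have h5 : (3 * M) ^ (p * C) * (1 / (4 * M ^ n)) ≤
          ((5 / 3 : ℝ) ^ (2 ^ m - 1)) ^ C * (q n + y n) := by
        apply mul_le_mul h2 _ (by positivity) (by positivity)
        have := hq n
        linarith
      refine h5.trans (b1.trans ?_)
      apply mul_le_mul_of_nonneg_left _ (by positivity)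
      linarith
    rw [mul_one_div, div_le_iff₀ (by positivity)] at h4
    have h6 : (5 / 2 : ℝ) ^ n * (3 / 2) * (4 * M ^ n) = 6 * (5 / 2 * M) ^ n := by
      rw [mul_pow]
      ring
    rw [h6] at h4
    have h7 : (5 / 2 * M) ^ n ≤ (3 * M) ^ n := pow_le_pow_left₀ (by positivity) (by linarith) n
    have h8 : (3 * M) ^ (n + 1) = (3 * M) ^ n * (3 * M) := by ring
    have h9 : 0 < (3 * M) ^ n := by positivity
    nlinarith
  have c1 := cnt_or (fun i => 1 ≤ i ∧ M ^ p * y i < y (i - 1))
    (fun i => M ^ p * y (i + 1) < y i ∨ (5 / 3) ^ (2 ^ m - 1) * y i < q i) n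
  have c2 := cnt_or (fun i => M ^ p * y (i + 1) < y i)
    (fun i => (5 / 3) ^ (2 ^ m - 1) * y i < q i) n
  have c3 : cnt (fun i => 1 ≤ i ∧ M ^ p * y i < y (i - 1)) n ≤ A := by
    refine (cnt_mono ?_ n).trans (cnt_shift (fun i => M ^ p * y (i + 1) < y i) n)
    rintro i ⟨h1, h2⟩
    refine ⟨h1, ?_⟩
    have : i - 1 + 1 = i := by omega
    rw [this]
    exact h2
  have c4 := c1.trans (add_le_add c3 c2)
  have c5 := Nat.mul_le_mul_left p c4
  refine c5.trans ?_
  have : p * (A + (A + C)) = p * A + (p * A + p * C) := by ring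
  rw [← hA, ← hC, this]
  omega

end Pool.Agent.W832.HR
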