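import Pool.Agent.W832.HR.Contr

set_option autoImplicit false

/-! Reflection of the strip; triangles. -/

namespace Pool.Agent.W832.HR

open H978R2.Hex Pool.Agent.W818.TD
open scoped ENNReal

/-- the reflection which fixes the first edge -/
def sg (v : V) : V := ((v.1 - v.2) + -((v.1 + v.2) / 2), -((v.1 + v.2) / 2))

theorem sg_lev (v : V) : (sg v).1 - (sg v).2 = v.1 - v.2 := by
  unfold sg
  simp only
  omega

theorem sg_sg (v : V) : sg (sg v) = v := by
  unfold sg
  apply Prod.ext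
  · simp only; omega
  · simp only; omega

theorem sg_inj {v w : V} (h : sg v = sg w) : v = w := by
  rw [← sg_sg v, h, sg_sg]

theorem sg_adj {p q : V} (h : Adj p q) : Adj (sg p) (sg q) := by
  rw [adj_iff] at *
  unfold sg
  simp only
  omega

theorem sg_base : sg (1, 0) = (1, 0) := by decide
theorem sg_zero : sg (0, 0) = (0, 0) := by decide

theorem Up_sg {u : Wall} {v : V} : Up u v ↔ Lo u (sg v) := by
  match u with
  | .no => simp [Up, Lo]
  | .I n =>
    simp only [Up, Lo, sg]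
    omega
  | .O n =>
    simp only [Up, Lo, sg]
    omega

theorem Lo_sg {u : Wall} {v : V} : Lo u v ↔ Up u (sg v) := by
  rw [Up_sg, sg_sg]

theorem Dm_sg {T : ℕ} {u l : Wall} {v : V} : Dm T u l v ↔ Dm T l u (sg v) := by
  unfold Dm
  rw [sg_lev, ← Up_sg, ← Lo_sg]
  tauto

theorem Val_sg {Om Om' : V → Prop} (h : ∀ v, Om v → Om' (sg v)) :
    ∀ {w : List V}, Val Om w → Val Om' (w.map sg)
  | [], hl => hl.elim
  | [_], hl => hl.elim
  | [z, y], hl => by
    obtain ⟨rfl, rfl⟩ := hl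
    exact ⟨sg_base, sg_zero⟩
  | z :: y :: x :: t, hl => by
    obtain ⟨h1, h2, h3, h4, h5⟩ := hl
    refine ⟨sg_adj h1, fun e => h2 (sg_inj e), h _ h3, ?_, Val_sg h h5⟩
    intro hm
    have : sg y ∈ (x :: t).map sg := hm
    rw [List.mem_map] at this
    obtain ⟨a, ha, e⟩ := this
    exact h4 (sg_inj e ▸ ha)

theorem head_sg {Om : V → Prop} {w : List V} (h : Val Om w) :
    (w.map sg).headD (0, 0) = sg (w.headD (0, 0)) := by
  match w, h with
  | z :: y :: t, _ => simp
  | [_], h => exact h.elim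

theorem map_sg_inj {A : Set (List V)} : Set.InjOn (fun w : List V => w.map sg) A := by
  intro a _ b _ h
  exact List.map_injective_iff.2 (fun _ _ e => sg_inj e) h

theorem ma_sg_le {A B : Set (List V)} (h : ∀ w ∈ A, w.map sg ∈ B) : ma A ≤ ma B :=
  ma_le_of_inj (fun w => w.map sg) map_sg_inj h (fun w _ => by simp)

theorem map_sg_sg (w : List V) : (w.map sg).map sg = w := by
  rw [List.map_map]
  conv_rhs => rw [← List.map_id w]
  apply List.map_congr_left
  intro v _
  exact sg_sg v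

/-- the two walls of a triangle receive the same mass -/
theorem tri_sym (n : ℕ) : mq (Dm (2 * n + 1) (.I n) (.I n)) 1 =
    mq (Dm (2 * n + 1) (.I n) (.I n)) (-1) := by
  have hT : 1 ≤ 2 * n + 1 := by omega
  have key : ∀ k : ℤ, (k = 1 ∨ k = -1) →
      ma (LK (Dm (2 * n + 1) (.I n) (.I n)) k) ≤ ma (LK (Dm (2 * n + 1) (.I n) (.I n)) (-k)) := by
    intro k hk
    apply ma_sg_le
    rintro w ⟨hw, hwk⟩
    have hLW : w.map sg ∈ LW (Dm (2 * n + 1) (.I n) (.I n)) := by
      refine ⟨Val_sg (fun v hv => Dm_sg.1 hv) hw.1, ?_⟩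
      rw [head_sg hw.1, ← Dm_sg]
      exact hw.2
    refine ⟨hLW, ?_⟩
    have c1 := LW_cls hT hw
    have c2 := LW_cls hT hLW
    rw [head_sg hw.1] at c2
    generalize w.headD (0, 0) = z at c1 c2
    simp only [Up, Lo, ku, sg, ne_eq, reduceCtorEq, not_false_eq_true, true_and] at c1 c2
    push_cast at c1 c2
    rcases hk with rfl | rfl
    · omega
    · omega
  unfold mq
  congr 1
  apply le_antisymm
  · exact key 1 (Or.inl rfl)
  · have := key (-1) (Or.inr rfl)
    rwa [neg_neg] at this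

/-- mass received by the wall of a triangle -/
theorem tri_wall (n : ℕ) :
    Br (2 * n + 1) ≤ 2 * Real.cos (Real.pi / 8) * mq (Dm (2 * n + 1) (.I n) (.I n)) 1 := by
  have hT : 1 ≤ 2 * n + 1 := by omega
  obtain ⟨h1, -⟩ := (idn hT (.I n) (.I n)).re_im
  obtain ⟨h3, h4⟩ := strip_id hT
  have z2 : mq (Dm (2 * n + 1) (.I n) (.I n)) 2 = 0 :=
    mq_zero hT (by norm_num) (by norm_num) (by norm_num) (by simp [ku]) (by simp [ku])
  have z4 : mq (Dm (2 * n + 1) (.I n) (.I n)) (-2) = 0 :=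
    mq_zero hT (by norm_num) (by norm_num) (by norm_num) (by simp [ku]) (by simp [ku])
  have z0 : mq (Dm (2 * n + 1) (.I n) (.I n)) 0 = 0 := by
    have : LK (Dm (2 * n + 1) (.I n) (.I n)) 0 = ∅ := by
      rw [Set.eq_empty_iff_forall_notMem]
      rintro w ⟨hw, hk⟩
      obtain ⟨z, v, K, rfl, hD⟩ := LW_land hT hw
      have c1 := cls hT hD
      have hv := hD.h5 v List.mem_cons_self
      have ha := adj_levs hD.h2
      unfold Dm at hv
      simp only [Up, Lo, ku, ne_eq, reduceCtorEq, not_false_eq_true, true_and] at c1 hv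
      push_cast at c1 hv
      omega
    unfold mq
    rw [this, ma_empty]
    rfl
  have m1 := mq_mono hT hT (u := .I n) (l := .I n) (u' := .no) (l' := .no) (k := 3)
    (fun v hv => ⟨hv.1, hv.2.1, trivial, trivial⟩) (Or.inl rfl)
  have m2 := mq_mono hT hT (u := .I n) (l := .I n) (u' := .no) (l' := .no) (k := -3)
    (fun v hv => ⟨hv.1, hv.2.1, trivial, trivial⟩) (Or.inr (Or.inl rfl))
  rw [z0, z2, z4, ← tri_sym n] at h1
  rw [h3] at m2
  have m1' : mq (Dm (2 * n + 1) (.I n) (.I n)) 3 ≤ Ar (2 * n + 1) := m1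
  have hc := c3_pos
  nlinarith

/-- the wall of a strip receives at least as much -/
theorem wall_ge {T n : ℕ} (h : 2 * n + 1 ≤ T) :
    Br (2 * n + 1) ≤ 2 * Real.cos (Real.pi / 8) * mq (Dm T (.I n) .no) 1 := by
  have hT : 1 ≤ 2 * n + 1 := by omega
  have hT' : 1 ≤ T := by omega
  have hh : ((2 * n + 1 : ℕ) : ℤ) ≤ T := by exact_mod_cast h
  refine (tri_wall n).trans ?_
  apply mul_le_mul_of_nonneg_left _ (by have := c8_pos; positivity)
  unfold mq
  apply ENNReal.toReal_mono ((idn hT' (.I n) .no).ne_top LK_sub)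
  apply ma_mono
  rintro w ⟨hw, hk⟩
  have hsub : ∀ v, Dm (2 * n + 1) (.I n) (.I n) v → Dm T (.I n) .no v := by
    rintro v ⟨a1, a2, a3, a4⟩
    exact ⟨a1, by omega, a3, trivial⟩
  refine ⟨⟨Val_mono hsub hw.1, ?_⟩, hk⟩
  intro hD
  have c1 := LW_cls hT hw
  have h3 := hD.2.2.1
  rcases c1 with a | a | a | a | a
  · omega
  · omega
  · omega
  · exact a.1 h3
  · have := a.2.2.2.2
    simp only [ku] at this
    omega

end Pool.Agent.W832.HR
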