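import Pool.Agent.W832.HR.Width
import Pool.Agent.W832.HR.Scale

set_option autoImplicit false

/-! Tightness of the width of the crossings of strips at most scales. -/

namespace Pool.Agent.W832.HR

open H978R2.Hex Pool.Agent.W818.TD
open scoped ENNReal

/-- narrow or wide crossings -/
def BadL (ε k : ℝ) (T : ℕ) (l : List V) : Prop := WidL (ε * T) l ∨ ¬ WidL (k * T) l

theorem WidL_mono {c d : ℝ} (h : c ≤ d) {l : List V} (hl : WidL c l) : WidL d l :=
  fun v hv v' hv' => (hl v hv v' hv').trans h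

/-- every crossing has width at least one -/
theorem width_one {T : ℕ} (hT : 1 ≤ T) {w : List V} (hw : w ∈ LK (Dm T .no .no) 0) {c : ℝ}
    (h : WidL c w.tail.dropLast) : 1 ≤ c := by
  have h1 := (LK0_iff hT).1 hw
  have hsh := val_shape' h1.1 (z := w.headD (0, 0)) rfl (by
    intro e
    have := h1.2
    rw [e] at this
    simp only at this
    omega)
  obtain ⟨y, t, e, ha, hy, M, hM⟩ := hsh
  have e2 : w.tail.dropLast = y :: t := by
    rw [e, List.tail_cons]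
    have : y :: (t ++ [((0, 0) : V)]) = (y :: t) ++ [(0, 0)] := rfl
    rw [this, List.dropLast_concat]
  have hch := (Val_chain h1.1).1
  have hlev := h1.2
  match t, e2, e, hM with
  | [], e2, e, hM =>
    exfalso
    have hy1 : y = (1, 0) := by
      have := congrArg List.reverse hM
      simp at this
      exact this.1
    have had := adj_levs ha
    rw [hy1] at had
    simp only at had
    omega
  | x :: t, e2, e, hM =>
    have hyx : Adj x y := by
      rw [e] at hch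
      exact (List.isChain_cons_cons.1 (List.isChain_cons_cons.1 hch).2).1
    rw [e2] at h
    have a1 := h y (by simp) x (by simp)
    have a2 := h x (by simp) y (by simp)
    rw [adj_iff] at hyx
    by_contra hc
    rw [not_le] at hc
    have b1 : (y.1 + 3 * y.2) - (x.1 + 3 * x.2) < 1 := by
      have : (((y.1 + 3 * y.2) - (x.1 + 3 * x.2) : ℤ) : ℝ) < ((1 : ℤ) : ℝ) := by
        push_cast at a1 ⊢
        linarith
      exact_mod_cast this
    have b2 : (x.1 + 3 * x.2) - (y.1 + 3 * y.2) < 1 := by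
      have : (((x.1 + 3 * x.2) - (y.1 + 3 * y.2) : ℤ) : ℝ) < ((1 : ℤ) : ℝ) := by
        push_cast at a2 ⊢
        linarith
      exact_mod_cast this
    omega

theorem Cr_sub {T : ℕ} {ε k ε' k' : ℝ} (hε : ε' ≤ ε) (hk : k ≤ k') :
    Cr T (BadL ε' k' T) ⊆ Cr T (BadL ε k T) := by
  rintro w ⟨hw, hp⟩
  refine ⟨hw, ?_⟩
  have hT0 : (0 : ℝ) ≤ T := Nat.cast_nonneg T
  rcases hp with hp | hp
  · exact Or.inl (WidL_mono (mul_le_mul_of_nonneg_right hε hT0) hp)
  · exact Or.inr (fun h => hp (WidL_mono (mul_le_mul_of_nonneg_right hk hT0) h))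

/-- bound for the narrow and wide crossings -/
theorem bad_le {T N : ℕ} (m : ℕ) (hT : 1 ≤ T) (hN : 1 ≤ N) :
    (ma (Cr T (BadL (1 / (16 * N)) (8 * (m + 1)) T))).toReal ≤
      4 * (1 / 2) ^ N * Br (T / 2) + 11 * (3 / 5) ^ m * Qr T := by
  have hsub : Cr T (BadL (1 / (16 * N)) (8 * (m + 1)) T) ⊆
      Cr T (WidL ((T : ℝ) / (16 * N))) ∪ Cr T (fun l => ¬ WidL (8 * ((m + 1) * T : ℕ)) l) := by
    rintro w ⟨hw, hp⟩
    rcases hp with hp | hp
    · left
      refine ⟨hw, WidL_mono (le_of_eq ?_) hp⟩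
      ring
    · right
      refine ⟨hw, fun h => hp (WidL_mono (le_of_eq ?_) h)⟩
      push_cast
      ring
  have a1 := (ma_mono hsub).trans (ma_union_le _ _)
  have f1 := Cr_ne_top hT (WidL ((T : ℝ) / (16 * N)))
  have f2 := Cr_ne_top hT (fun l => ¬ WidL (8 * ((m + 1) * T : ℕ)) l)
  have a2 := ENNReal.toReal_mono (ENNReal.add_ne_top.2 ⟨f1, f2⟩) a1
  rw [ENNReal.toReal_add f1 f2] at a2
  have a4 := wide_le hT m
  have a3 : (ma (Cr T (WidL ((T : ℝ) / (16 * N))))).toReal ≤ 4 * (1 / 2) ^ N * Br (T / 2) := by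
    by_cases hTN : 16 * N ≤ T
    · exact narrow_le hN hTN
    · have he : Cr T (WidL ((T : ℝ) / (16 * N))) = ∅ := by
        rw [Set.eq_empty_iff_forall_notMem]
        rintro w ⟨hw, hp⟩
        have h1 := width_one hT hw hp
        rw [le_div_iff₀ (by positivity), one_mul] at h1
        apply hTN
        exact_mod_cast h1
      rw [he, ma_empty, ENNReal.toReal_zero]
      have := Br_nonneg (T / 2)
      positivity
  linarith

theorem Qr_block {M T : ℕ} (hM : 1 ≤ M) (h : M ≤ T) : Qr T ≤ Qr M + Br M / 2 := by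
  have h1 := rh_strip hM h T
  have h2 := mul_le_mul_of_nonneg_left (I_mono hM h).1 c3_pos.le
  unfold Qr
  linarith

theorem Qr_rec {M T : ℕ} (hM : 1 ≤ M) (hT : 1 ≤ T) :
    Qr (M * T) ≤ (3 / 5) ^ (M - 1) * Qr T + Br T / 2 := by
  have h1 := rh_strip hT (Nat.le_mul_of_pos_left T hM : T ≤ M * T) (M * T)
  have h2 := contr_pow hT T (M - 1)
  have e : T + (M - 1) * T = M * T := by
    obtain ⟨a, rfl⟩ : ∃ a, M = a + 1 := ⟨M - 1, by omega⟩
    rw [Nat.add_sub_cancel]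
    ring
  rw [e] at h2
  have h3 := mul_le_mul_of_nonneg_left h2 c3_pos.le
  unfold Qr
  linarith

/-- **most scales are regular** -/
theorem scales (η : ℝ) (hη : 0 < η) : ∃ A C : ℝ, 1 ≤ A ∧ ∀ n : ℕ,
    (cnt (fun i => ∃ T : ℕ, 2 ^ i ≤ T ∧ T < 2 ^ (i + 1) ∧
      ¬ (Qr T ≤ A * Br T ∧ Br (T / 2) ≤ A * Br T)) n : ℝ) ≤ η * n + C := by
  obtain ⟨p, hp⟩ := exists_nat_ge (3 / η)
  have hp0 : 0 < (p : ℝ) := lt_of_lt_of_le (by positivity) hp
  obtain ⟨m, hm, hmp⟩ := exists_ratio p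
  set M : ℕ := 2 ^ m with hM
  have hM2 : 2 ≤ M := by
    calc 2 = 2 ^ 1 := by norm_num
      _ ≤ 2 ^ m := Nat.pow_le_pow_right (by norm_num) hm
  have hMk : ∀ k, 1 ≤ M ^ k := fun k => Nat.one_le_pow _ _ (by omega)
  set y : ℕ → ℝ := fun k => Br (M ^ k) with hy
  set q : ℕ → ℝ := fun k => Qr (M ^ k) with hq
  have hMr : ((M : ℕ) : ℝ) = 2 ^ m := by rw [hM]; push_cast; rfl
  have hrare := rare (y := y) (q := q) (m := m) (p := p) hm hmp
    (fun i => (br_lower (hMk i)).1)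
    (fun i => Br_anti (hMk i) (Nat.pow_le_pow_right (by omega) (Nat.le_succ i)))
    (by
      have := Br_le_one (hMk 0)
      exact this)
    (fun i => by
      have := Br_ge (hMk i)
      rw [← hMr]
      push_cast at this
      exact this)
    (fun i => Qr_nonneg (hMk i)) (Qr_le (hMk 0))
    (fun i => by
      have := Qr_rec (M := M) (T := M ^ i) (by omega) (hMk i)
      have e : M * M ^ i = M ^ (i + 1) := by ring
      rw [e] at this
      exact this)
  set P : ℕ → Prop := fun i => (1 ≤ i ∧ ((2 : ℝ) ^ m) ^ p * y i < y (i - 1)) ∨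
      (((2 : ℝ) ^ m) ^ p * y (i + 1) < y i ∨ (5 / 3) ^ (2 ^ m - 1) * y i < q i) with hP
  set K : ℝ := ((2 : ℝ) ^ m) ^ p with hK
  set L : ℝ := (5 / 3) ^ (2 ^ m - 1) with hL
  have hK1 : 1 ≤ K := one_le_pow₀ (one_le_pow₀ (by norm_num))
  have hL1 : 1 ≤ L := one_le_pow₀ (by norm_num)
  set A : ℝ := (L + 1 / 2) * K + K * K with hA
  have hKK : 1 ≤ K * K := by nlinarith
  refine ⟨A, 8 * m / p + m, by
    rw [hA]
    have : 0 ≤ (L + 1 / 2) * K := by positivity
    linarith, ?_⟩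
  intro n
  have hsub : ∀ i, (∃ T : ℕ, 2 ^ i ≤ T ∧ T < 2 ^ (i + 1) ∧
      ¬ (Qr T ≤ A * Br T ∧ Br (T / 2) ≤ A * Br T)) → P (i / m) ∨ i < m := by
    rintro i ⟨T, hT1, hT2, hT3⟩
    by_contra hc
    push Not at hc
    obtain ⟨hc1, hc2⟩ := hc
    have hk1 : 1 ≤ i / m := by
      rw [Nat.one_le_div_iff (by omega)]
      exact hc2
    rw [hP] at hc1
    simp only [not_or, not_and, not_lt] at hc1
    obtain ⟨c1, c2, c3⟩ := hc1
    have c1' := c1 hk1
    set k := i / m with hk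
    have hkl : M ^ k ≤ T := by
      refine le_trans ?_ hT1
      rw [hM, ← pow_mul]
      exact Nat.pow_le_pow_right (by norm_num) (Nat.mul_div_le i m)
    have hku : T ≤ M ^ (k + 1) := by
      refine hT2.le.trans ?_
      rw [hM, ← pow_mul]
      apply Nat.pow_le_pow_right (by norm_num)
      have := Nat.lt_mul_div_succ i (by omega : 0 < m)
      exact this
    have hTpos : 1 ≤ T := (hMk k).trans hkl
    have hbT : y (k + 1) ≤ Br T := Br_anti hTpos hku
    have hb0 : 0 < Br T := (br_lower hTpos).1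
    have d1 : Qr T ≤ ((L + 1 / 2) * K) * Br T := by
      have e1 := Qr_block (hMk k) hkl
      have e2 : Qr (M ^ k) ≤ L * y k := c3
      have e3 : y k ≤ K * y (k + 1) := c2
      have e4 : Br (M ^ k) = y k := rfl
      rw [e4] at e1
      have e5 : y k ≤ K * Br T := e3.trans (mul_le_mul_of_nonneg_left hbT (by positivity))
      calc Qr T ≤ (L + 1 / 2) * y k := by linarith
        _ ≤ (L + 1 / 2) * (K * Br T) := mul_le_mul_of_nonneg_left e5 (by positivity)
        _ = ((L + 1 / 2) * K) * Br T := by ring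
    have d2 : Br (T / 2) ≤ (K * K) * Br T := by
      have e0 : M ^ (k - 1) ≤ T / 2 := by
        rw [Nat.le_div_iff_mul_le (by norm_num)]
        refine le_trans ?_ hkl
        have : M ^ k = M ^ (k - 1) * M := by
          rw [← pow_succ]
          congr 1
          omega
        rw [this]
        exact Nat.mul_le_mul_left _ hM2
      have e1 : Br (T / 2) ≤ y (k - 1) := Br_anti (hMk (k - 1)) e0
      have e3 : y k ≤ K * y (k + 1) := c2
      have e5 : y k ≤ K * Br T := e3.trans (mul_le_mul_of_nonneg_left hbT (by positivity))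
      calc Br (T / 2) ≤ K * y k := e1.trans c1'
        _ ≤ K * (K * Br T) := mul_le_mul_of_nonneg_left e5 (by positivity)
        _ = (K * K) * Br T := by ring
    apply hT3
    constructor
    · refine d1.trans (mul_le_mul_of_nonneg_right ?_ hb0.le)
      rw [hA]
      linarith
    · refine d2.trans (mul_le_mul_of_nonneg_right ?_ hb0.le)
      rw [hA]
      have : 0 ≤ (L + 1 / 2) * K := by positivity
      linarith
  have hcnt := (cnt_mono hsub n).trans (cnt_or (fun i => P (i / m)) (fun i => i < m) n)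
  have hc1 : cnt (fun i => i < m) n ≤ m := (cnt_lt m n).trans (min_le_right _ _)
  have hc2 : cnt (fun i => P (i / m)) n ≤ m * cnt P (n / m + 1) := by
    refine (cnt_anti ?_).trans (cnt_div P m hm (n / m + 1))
    exact (Nat.lt_mul_div_succ n (by omega)).le
  have hc3 := hrare (n / m + 1)
  have hc4 : (m : ℝ) * cnt P (n / m + 1) ≤ (3 * n + 8 * m) / p := by
    rw [le_div_iff₀ hp0]
    have h1 : (p : ℝ) * cnt P (n / m + 1) ≤ 3 * ((n / m : ℕ) + 1) + 5 := by exact_mod_cast hc3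
    have h2 : (m : ℝ) * ((n / m : ℕ) : ℝ) ≤ n := by
      exact_mod_cast Nat.mul_div_le n m
    have h3 := mul_le_mul_of_nonneg_left h1 (Nat.cast_nonneg (α := ℝ) m)
    nlinarith
  have hc5 : (cnt (fun i => ∃ T : ℕ, 2 ^ i ≤ T ∧ T < 2 ^ (i + 1) ∧
      ¬ (Qr T ≤ A * Br T ∧ Br (T / 2) ≤ A * Br T)) n : ℝ) ≤ m * cnt P (n / m + 1) + m := by
    exact_mod_cast hcnt.trans (add_le_add hc2 hc1)
  have hc6 : (3 * (n : ℝ) + 8 * m) / p ≤ η * n + 8 * m / p := by
    rw [add_div]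
    have h1 : 3 * (n : ℝ) / p ≤ η * n := by
      rw [div_le_iff₀ hp0]
      rw [div_le_iff₀ hη] at hp
      have : (0 : ℝ) ≤ n := Nat.cast_nonneg n
      nlinarith
    linarith
  linarith

/-- tails at a regular scale -/
theorem tails (A : ℝ) (hA : 1 ≤ A) : ∃ C : ℝ, 0 < C ∧ ∀ T : ℕ, 1 ≤ T → Qr T ≤ A * Br T →
    Br (T / 2) ≤ A * Br T → ∀ s : ℕ, 1 ≤ s →
      (ma (Cr T (BadL (1 / (C * s)) (C * s) T))).toReal ≤ (1 / 2) ^ s * Br T := by
  obtain ⟨a, ha⟩ := exists_pow_lt_of_lt_one (by positivity : 0 < 1 / (44 * A))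
    (by norm_num : (3 / 5 : ℝ) < 1)
  obtain ⟨b, hb⟩ := exists_pow_lt_of_lt_one (by positivity : 0 < 1 / (16 * A))
    (by norm_num : (1 / 2 : ℝ) < 1)
  rw [lt_div_iff₀ (by positivity)] at ha hb
  have hb1 : 1 ≤ b := by
    rcases Nat.eq_zero_or_pos b with rfl | h
    · simp only [pow_zero, one_mul] at hb
      linarith
    · exact h
  have ha2 : (3 / 5 : ℝ) ^ a ≤ 1 / 2 := by
    have : (3 / 5 : ℝ) ^ a * 44 ≤ (3 / 5) ^ a * (44 * A) := by
      apply mul_le_mul_of_nonneg_left _ (by positivity)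
      linarith
    linarith
  refine ⟨16 * b + 8 * (a + 1), by positivity, ?_⟩
  intro T hT h1 h2 s hs
  have hs' : (1 : ℝ) ≤ s := by exact_mod_cast hs
  have hB := Br_nonneg T
  have hsub : Cr T (BadL (1 / ((16 * (b : ℝ) + 8 * (a + 1)) * s))
      ((16 * (b : ℝ) + 8 * (a + 1)) * s) T) ⊆
      Cr T (BadL (1 / (16 * ((b * s : ℕ) : ℝ))) (8 * (((a * s : ℕ) : ℝ) + 1)) T) := by
    apply Cr_sub
    · have hbs : (0 : ℝ) < 16 * ((b * s : ℕ) : ℝ) := by
        have : 1 ≤ b * s := Nat.mul_pos hb1 hs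
        have : (1 : ℝ) ≤ ((b * s : ℕ) : ℝ) := by exact_mod_cast this
        linarith
      apply one_div_le_one_div_of_le hbs
      push_cast
      have : (0 : ℝ) ≤ 8 * (a + 1) * s := by positivity
      nlinarith
    · push_cast
      have : (0 : ℝ) ≤ 16 * b * s := by positivity
      nlinarith
  have hfin := Cr_ne_top hT (BadL (1 / (16 * ((b * s : ℕ) : ℝ))) (8 * (((a * s : ℕ) : ℝ) + 1)) T)
  have h3 := (ENNReal.toReal_mono hfin (ma_mono hsub)).trans
    (bad_le (a * s) hT (Nat.mul_pos hb1 hs : 1 ≤ b * s))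
  refine h3.trans ?_
  obtain ⟨r, rfl⟩ : ∃ r, s = r + 1 := ⟨s - 1, by omega⟩
  have e1 : 4 * (1 / 2 : ℝ) ^ (b * (r + 1)) * Br (T / 2) ≤ 1 / 4 * (1 / 2) ^ r * Br T := by
    have c1 : (1 / 2 : ℝ) ^ (b * (r + 1)) ≤ (1 / 2) ^ b * (1 / 2) ^ r := by
      rw [← pow_add]
      apply pow_le_pow_of_le_one (by norm_num) (by norm_num)
      nlinarith
    have c2 : 4 * (1 / 2 : ℝ) ^ (b * (r + 1)) * Br (T / 2) ≤
        4 * ((1 / 2) ^ b * (1 / 2) ^ r) * (A * Br T) := by
      apply mul_le_mul _ h2 (Br_nonneg _) (by positivity)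
      linarith
    refine c2.trans ?_
    have c3 : 4 * ((1 / 2 : ℝ) ^ b * (1 / 2) ^ r) * (A * Br T) =
        ((1 / 2) ^ b * (16 * A)) * (1 / 4 * (1 / 2) ^ r * Br T) := by ring
    rw [c3]
    have c4 : 0 ≤ 1 / 4 * (1 / 2 : ℝ) ^ r * Br T := by positivity
    nlinarith
  have e2 : 11 * (3 / 5 : ℝ) ^ (a * (r + 1)) * Qr T ≤ 1 / 4 * (1 / 2) ^ r * Br T := by
    have c1 : (3 / 5 : ℝ) ^ (a * (r + 1)) ≤ (3 / 5) ^ a * (1 / 2) ^ r := by
      have : a * (r + 1) = a + a * r := by ring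
      rw [this, pow_add, pow_mul]
      apply mul_le_mul_of_nonneg_left _ (by positivity)
      exact pow_le_pow_left₀ (by positivity) ha2 r
    have c2 : 11 * (3 / 5 : ℝ) ^ (a * (r + 1)) * Qr T ≤
        11 * ((3 / 5) ^ a * (1 / 2) ^ r) * (A * Br T) := by
      apply mul_le_mul _ h1 (Qr_nonneg hT) (by positivity)
      linarith
    refine c2.trans ?_
    have c3 : 11 * ((3 / 5 : ℝ) ^ a * (1 / 2) ^ r) * (A * Br T) =
        ((3 / 5) ^ a * (44 * A)) * (1 / 4 * (1 / 2) ^ r * Br T) := by ring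
    rw [c3]
    have c4 : 0 ≤ 1 / 4 * (1 / 2 : ℝ) ^ r * Br T := by positivity
    nlinarith
  have e3 : (1 / 2 : ℝ) ^ (r + 1) * Br T = 1 / 4 * (1 / 2) ^ r * Br T +
      1 / 4 * (1 / 2) ^ r * Br T := by
    rw [pow_succ]
    ring
  rw [e3]
  exact add_le_add e1 e2

/-- **tightness with exponential tails at most scales** -/
theorem tight (η : ℝ) (hη : 0 < η) : ∃ C : ℝ, 0 < C ∧ ∀ n : ℕ,
    (cnt (fun i => ∃ T : ℕ, 2 ^ i ≤ T ∧ T < 2 ^ (i + 1) ∧ ∃ s : ℕ, 1 ≤ s ∧
      (1 / 2) ^ s * Br T < (ma (Cr T (BadL (1 / (C * s)) (C * s) T))).toReal) n : ℝ) ≤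
      η * n + C := by
  obtain ⟨A, C, hA, h⟩ := scales η hη
  obtain ⟨C', hC', h'⟩ := tails A hA
  set D := max C C' with hD
  have hD0 : 0 < D := lt_of_lt_of_le hC' (le_max_right _ _)
  refine ⟨D, hD0, fun n => ?_⟩
  have hsub : ∀ i, (∃ T : ℕ, 2 ^ i ≤ T ∧ T < 2 ^ (i + 1) ∧ ∃ s : ℕ, 1 ≤ s ∧
      (1 / 2) ^ s * Br T < (ma (Cr T (BadL (1 / (D * s)) (D * s) T))).toReal) →
      (∃ T : ℕ, 2 ^ i ≤ T ∧ T < 2 ^ (i + 1) ∧
      ¬ (Qr T ≤ A * Br T ∧ Br (T / 2) ≤ A * Br T)) := by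
    rintro i ⟨T, h1, h2, s, hs, h3⟩
    refine ⟨T, h1, h2, ?_⟩
    rintro ⟨h4, h5⟩
    have hT : 1 ≤ T := Nat.one_le_two_pow.trans h1
    have h6 := h' T hT h4 h5 s hs
    have hs' : (0 : ℝ) < s := by exact_mod_cast hs
    have hsub2 : Cr T (BadL (1 / (D * s)) (D * s) T) ⊆
        Cr T (BadL (1 / (C' * s)) (C' * s) T) := by
      have hDC : C' * s ≤ D * s := mul_le_mul_of_nonneg_right (le_max_right _ _) hs'.le
      apply Cr_sub
      · exact one_div_le_one_div_of_le (by positivity) hDC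
      · exact hDC
    have h7 := ENNReal.toReal_mono (Cr_ne_top hT _) (ma_mono hsub2)
    linarith
  have h8 : (cnt (fun i => ∃ T : ℕ, 2 ^ i ≤ T ∧ T < 2 ^ (i + 1) ∧ ∃ s : ℕ, 1 ≤ s ∧
      (1 / 2) ^ s * Br T < (ma (Cr T (BadL (1 / (D * s)) (D * s) T))).toReal) n : ℝ) ≤
      (cnt (fun i => ∃ T : ℕ, 2 ^ i ≤ T ∧ T < 2 ^ (i + 1) ∧
      ¬ (Qr T ≤ A * Br T ∧ Br (T / 2) ≤ A * Br T)) n : ℝ) := by
    exact_mod_cast cnt_mono hsub n
  have h9 := h n
  have h10 : C ≤ D := le_max_left _ _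
  linarith

end Pool.Agent.W832.HR
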