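import Pool.Agent.W832.HR.Ext

set_option autoImplicit false

/-! Transfer to trajectories (forward lists of vertices). -/

namespace Pool.Agent.W832.HR

open H978R2.Hex Pool.Agent.W818.TD Filter Topology
open scoped ENNReal

/-- Adjacency in the honeycomb lattice (brick-wall coordinates). -/
def Nbr (p q : ℤ × ℤ) : Prop :=
  (p.2 = q.2 ∧ (p.1 - q.1 = 1 ∨ q.1 - p.1 = 1)) ∨
    (p.1 = q.1 ∧ ((q.2 = p.2 + 1 ∧ Even (p.1 + p.2)) ∨ (p.2 = q.2 + 1 ∧ Even (q.1 + q.2))))

/-- The self-avoiding trajectories from `a` to `b` in `D`, as lists of vertices. -/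
def Traj (D : Set (ℤ × ℤ)) (a b : ℤ × ℤ) : Set (List (ℤ × ℤ)) :=
  {l | l.head? = some a ∧ l.getLast? = some b ∧ l.Nodup ∧ l.IsChain Nbr ∧ ∀ p ∈ l, p ∈ D}

/-- The critical fugacity `1 / μ`. -/
noncomputable def xc : ℝ≥0∞ := ENNReal.ofReal (1 / Real.sqrt (2 + Real.sqrt 2))

theorem nbr_iff {p q : V} : Nbr p q ↔ Adj p q := by
  rw [adj_iff]
  unfold Nbr
  rw [Int.even_iff, Int.even_iff]
  omega

theorem xc_eq : xc = ENNReal.ofReal (mu0⁻¹) := by
  unfold xc mu0
  rw [one_div]

theorem xc_ne_zero : xc ≠ 0 := by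
  rw [xc_eq]
  have := mu0_pos
  simp only [ne_eq, ENNReal.ofReal_eq_zero, not_le]
  positivity

theorem xc_ne_top : xc ≠ ⊤ := by
  rw [xc_eq]
  exact ENNReal.ofReal_ne_top

/-- forward path of a reversed walk -/
def path (w : List V) : List V := w.tail.dropLast.reverse

/-- reversed walk of a forward path -/
def back (z : V) (l : List V) : List V := z :: (l.reverse ++ [(0, 0)])

theorem path_back (z : V) (l : List V) : path (back z l) = l := by
  unfold path back
  simp

theorem val_shape {D : V → Prop} {w : List V} (hw : Val D w) {z : V} (hz : w.headD (0, 0) = z)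
    (hz1 : z ≠ (1, 0)) : ∃ y t, w = z :: y :: (t ++ [(0, 0)]) ∧ Adj y z ∧ D y ∧
      ∃ M, y :: t = M ++ [(1, 0)] := by
  obtain ⟨i1, i2, i3, M, i4⟩ := Val_chain hw
  match M, i4 with
  | [], i4 =>
    rw [i4] at hz
    simp only [List.nil_append, List.headD_cons] at hz
    exact absurd hz.symm hz1
  | a :: M', i4 =>
    have ha : a = z := by
      rw [i4] at hz
      simpa using hz
    subst ha
    have e1 : M' ++ [((1, 0) : V), (0, 0)] = (M' ++ [(1, 0)]) ++ [(0, 0)] := by simp
    obtain ⟨y, t, hyt⟩ : ∃ y t, M' ++ [((1, 0) : V)] = y :: t := by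
      match M' with
      | [] => exact ⟨_, _, rfl⟩
      | a :: M'' => exact ⟨_, _, rfl⟩
    have hw2 : w = a :: y :: (t ++ [(0, 0)]) := by
      rw [i4, List.cons_append, e1, hyt, List.cons_append]
    refine ⟨y, t, hw2, ?_, ?_, M', hyt.symm⟩
    · rw [hw2] at i1
      exact (List.isChain_cons_cons.1 i1).1
    · apply i3
      rw [hw2, List.tail_cons]
      have : y :: (t ++ [((0, 0) : V)]) = (y :: t) ++ [(0, 0)] := rfl
      rw [this, List.dropLast_concat]
      exact List.mem_cons_self

/-- walks of `D` which end at `z` -/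
def WA (D : V → Prop) (z : V) (p : List V → Prop) : Set (List V) :=
  {w | Val D w ∧ w.headD (0, 0) = z ∧ p (path w)}

theorem path_mem {D : V → Prop} {z v : V}
    (hu : ∀ v', D v' → Adj v' z → v' = v) (hz1 : z ≠ (1, 0)) {w : List V}
    (hw : Val D w) (hz : w.headD (0, 0) = z) :
    path w ∈ Traj {p | D p} (1, 0) v ∧ back z (path w) = w ∧ w.length = (path w).length + 2 := by
  obtain ⟨y, t, e, ha, hy, M, hM⟩ := val_shape hw hz hz1
  have hyv : y = v := hu y hy ha
  subst hyv
  obtain ⟨i1, i2, i3, -⟩ := Val_chain hw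
  have e2 : w.tail.dropLast = y :: t := by
    rw [e, List.tail_cons]
    have : y :: (t ++ [((0, 0) : V)]) = (y :: t) ++ [(0, 0)] := rfl
    rw [this, List.dropLast_concat]
  have e3 : path w = (y :: t).reverse := by
    unfold path
    rw [e2]
  refine ⟨⟨?_, ?_, ?_, ?_, ?_⟩, ?_, ?_⟩
  · rw [e3, hM]
    simp
  · rw [e3, List.getLast?_reverse]
    rfl
  · rw [e3, List.nodup_reverse, ← e2]
    exact i2.sublist (List.dropLast_sublist _)
  · rw [e3, List.isChain_reverse, ← e2]
    refine (List.IsChain.dropLast i1.tail).imp fun {a b} hab => ?_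
    exact nbr_iff.2 hab
  · intro p hp
    rw [e3, List.mem_reverse, ← e2] at hp
    exact i3 p hp
  · unfold back
    rw [e3, List.reverse_reverse, e]
    rfl
  · rw [e3, e]
    simp

theorem back_mem {D : V → Prop} (h0 : ¬ D (0, 0)) {z v : V} (hzv : Adj v z) (hz0 : z ≠ (0, 0))
    (hzD : ¬ D z) {l : List V} (hl : l ∈ Traj {p | D p} (1, 0) v) :
    Val D (back z l) ∧ (back z l).headD (0, 0) = z := by
  obtain ⟨a1, a2, a3, a4, a5⟩ := hl
  refine ⟨?_, rfl⟩
  obtain ⟨s, hs⟩ : ∃ s, l = (1, 0) :: s := by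
    match l, a1 with
    | a :: s, a1 =>
      simp only [List.head?_cons, Option.some.injEq] at a1
      exact ⟨s, by rw [a1]⟩
  apply Val_of
  · unfold back
    rw [List.isChain_cons]
    constructor
    · intro y hy
      have : (l.reverse ++ [((0, 0) : V)]).head? = some v := by
        have hne : l.reverse ≠ [] := by rw [hs]; simp
        rw [List.head?_append_of_ne_nil _ hne, List.head?_reverse, a2]
      rw [this, Option.mem_def, Option.some.injEq] at hy
      rw [← hy]
      exact hzv
    · rw [List.isChain_append]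
      refine ⟨?_, List.isChain_singleton _, ?_⟩
      · rw [List.isChain_reverse]
        exact a4.imp fun {a b} hab => nbr_iff.1 hab
      · intro x hx y hy
        rw [List.getLast?_reverse, a1, Option.mem_def, Option.some.injEq] at hx
        simp only [List.head?_cons, Option.mem_def, Option.some.injEq] at hy
        rw [← hx, ← hy, adj_iff]
        simp
  · unfold back
    rw [List.nodup_cons, List.nodup_append]
    refine ⟨?_, List.nodup_reverse.2 a3, List.nodup_singleton _, ?_⟩
    · intro hm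
      rw [List.mem_append, List.mem_reverse, List.mem_singleton] at hm
      rcases hm with hm | hm
      · exact hzD (a5 z hm)
      · exact hz0 hm
    · intro a ha b hb hab
      rw [List.mem_reverse] at ha
      rw [List.mem_singleton] at hb
      rw [hab, hb] at ha
      exact h0 (a5 _ ha)
  · intro p hp
    unfold back at hp
    rw [List.tail_cons, List.dropLast_concat, List.mem_reverse] at hp
    exact a5 p hp
  · refine ⟨z :: s.reverse, ?_⟩
    unfold back
    rw [hs]
    simp

/-- **transfer** -/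
theorem transfer {D : V → Prop} (h0 : ¬ D (0, 0)) {z v : V} (hzv : Adj v z)
    (hu : ∀ v', D v' → Adj v' z → v' = v) (hz0 : z ≠ (0, 0)) (hz1 : z ≠ (1, 0))
    (hzD : ¬ D z) (p : List V → Prop) :
    ma (WA D z p) = xc * ∑' l : {l // l ∈ Traj {q | D q} (1, 0) v ∧ p l},
      xc ^ (l.1.length - 1) := by
  let e : WA D z p ≃ {l // l ∈ Traj {q | D q} (1, 0) v ∧ p l} :=
    { toFun := fun w => ⟨path w.1, (path_mem hu hz1 w.2.1 w.2.2.1).1, w.2.2.2⟩
      invFun := fun l => ⟨back z l.1, (back_mem h0 hzv hz0 hzD l.2.1).1,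
        (back_mem h0 hzv hz0 hzD l.2.1).2, by rw [path_back]; exact l.2.2⟩
      left_inv := fun w => Subtype.ext (path_mem hu hz1 w.2.1 w.2.2.1).2.1
      right_inv := fun l => Subtype.ext (path_back z l.1) }
  unfold ma
  rw [← ENNReal.tsum_mul_left, ← e.tsum_eq]
  refine tsum_congr fun w => ?_
  have h1 := (path_mem hu hz1 w.2.1 w.2.2.1)
  have hlen : 1 ≤ (path w.1).length := by
    have := h1.1.1
    match path w.1, this with
    | a :: s, _ => simp
  change ENNReal.ofReal (wt w.1) = xc * xc ^ ((path w.1).length - 1)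
  unfold wt
  rw [h1.2.2, ← pow_succ', xc_eq, ENNReal.ofReal_pow (by have := mu0_pos; positivity)]
  congr 1
  omega

end Pool.Agent.W832.HR
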