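import Pool.Agent.W832.HR.RectC

set_option autoImplicit false

/-! Point-to-point partition functions of two adjacent triangles: polynomial lower bound. -/

namespace Pool.Agent.W832.HR

open H978R2.Hex Pool.Agent.W818.TD
open scoped ENNReal

/-- the triangle -/
def Tri (n : ℕ) : Set V :=
  {p | 1 ≤ p.1 - p.2 ∧ p.1 + p.2 ≤ 2 * (n : ℤ) + 1 ∧ -(n : ℤ) ≤ p.2}

theorem tri_eq (n : ℕ) : {q : V | Dm (2 * n + 1) (.I n) (.I n) q} = Tri n := by
  ext q
  unfold Dm Tri
  simp only [Up, Lo, Set.mem_ofPred_eq]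
  push_cast
  omega

/-- the vertices next to one of the sides -/
def vx (n : ℕ) (t : ℤ) : V := (2 * t + n + 1, -n)

/-- the mass received by one side -/
theorem tri_sum (n : ℕ) : ENNReal.ofReal (1 / (16 * ((n : ℝ) + 1))) ≤
    xc * ∑' t : ℤ, Z (Tri n) (1, 0) (vx n t) := by
  have hT : 1 ≤ 2 * n + 1 := by omega
  have h1 : LK (Dm (2 * n + 1) (.I n) (.I n)) (-1) ⊆
      ⋃ t : ℤ, WA (Dm (2 * n + 1) (.I n) (.I n)) (2 * t + n + 1, -(n : ℤ) - 1)
        (fun _ => True) := by
    rintro w ⟨hw, hk⟩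
    obtain ⟨z, v, K, rfl, hD⟩ := LW_land hT hw
    have hOv := hD.h5 v List.mem_cons_self
    have c1 := cls hT hD
    have ha := hD.h2
    rw [adj_iff] at ha
    have hz := hD.hz
    rw [Set.mem_iUnion]
    have hk1 : 1 ≤ z.1 - z.2 := by
      rcases c1 with c | c | c | c | c
      · omega
      · omega
      · omega
      · exact c.2.1
      · exact c.2.1
    have key : z.2 = -(n : ℤ) - 1 ∧ (z.1 + z.2) % 2 = 0 := by
      rcases c1 with c | c | c | c | c
      · omega
      · omega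
      · omega
      · have := c.2.2.2.2
        simp only [ku] at this
        omega
      · have c0 := c.1
        unfold Dm at hOv
        simp only [Up, Lo] at c0 hOv
        omega
    refine ⟨(z.1 - n - 1) / 2, hw.1, ?_, trivial⟩
    simp only [List.headD_cons]
    apply Prod.ext
    · simp only; omega
    · simp only; omega
  have hd : Pairwise (Function.onFun Disjoint
      (fun t : ℤ => WA (Dm (2 * n + 1) (.I n) (.I n)) (2 * t + n + 1, -(n : ℤ) - 1)
        (fun _ => True))) := by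
    intro x y hxy
    simp only [Function.onFun]
    rw [Set.disjoint_left]
    rintro w ⟨_, h1, _⟩ ⟨_, h2, _⟩
    rw [h1] at h2
    simp only [Prod.mk.injEq] at h2
    omega
  have h2 := ma_mono h1
  rw [ma_iUnion hd] at h2
  have h3 : ∀ t : ℤ, ma (WA (Dm (2 * n + 1) (.I n) (.I n)) (2 * t + n + 1, -(n : ℤ) - 1)
      (fun _ => True)) = xc * Z (Tri n) (1, 0) (vx n t) := by
    intro t
    rw [transfer (v := vx n t) (fun h => by have := h.1; simp at this)]
    · rw [tri_eq]
      exact congrArg (fun t => xc * t) (sub_true (Traj (Tri n) (1, 0) (vx n t))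
        (fun l : List (ℤ × ℤ) => xc ^ (l.length - 1)))
    · unfold vx
      rw [adj_iff]
      simp only
      omega
    · intro v hv ha
      unfold Dm at hv
      simp only [Up, Lo] at hv
      rw [adj_iff] at ha
      simp only at ha
      unfold vx
      apply Prod.ext
      · simp only; omega
      · simp only; omega
    · intro h
      simp only [Prod.mk.injEq] at h
      omega
    · intro h
      simp only [Prod.mk.injEq] at h
      omega
    · intro h
      unfold Dm at h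
      simp only [Lo] at h
      omega
  simp only [h3] at h2
  rw [ENNReal.tsum_mul_left] at h2
  refine le_trans ?_ h2
  have h4 := tri_wall n
  rw [tri_sym n] at h4
  have h5 : Br (2 * n + 1) ≤ 2 * mq (Dm (2 * n + 1) (.I n) (.I n)) (-1) := by
    refine h4.trans ?_
    have := Real.cos_le_one (Real.pi / 8)
    have h6 := mq_nonneg (Dm (2 * n + 1) (.I n) (.I n)) (-1)
    nlinarith
  have h6 := Br_ge hT
  have h7 : 1 / (16 * ((n : ℝ) + 1)) ≤ mq (Dm (2 * n + 1) (.I n) (.I n)) (-1) := by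
    have h8 : 1 / (8 * ((n : ℝ) + 1)) ≤ 1 / (4 * ((2 * n + 1 : ℕ) : ℝ)) := by
      apply one_div_le_one_div_of_le (by positivity)
      push_cast
      linarith
    have h9 : 1 / (8 * ((n : ℝ) + 1)) = 2 * (1 / (16 * ((n : ℝ) + 1))) := by
      field_simp
      norm_num
    linarith
  calc ENNReal.ofReal (1 / (16 * ((n : ℝ) + 1))) ≤
        ENNReal.ofReal (mq (Dm (2 * n + 1) (.I n) (.I n)) (-1)) := ENNReal.ofReal_le_ofReal h7
    _ ≤ _ := ENNReal.ofReal_toReal_le

/-- **concatenation**, summed over the middle point -/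
theorem Z_concat_sum {D1 D2 D : Set V} {a b : V} (v v' : ℤ → V) (hv : Function.Injective v)
    (hn : ∀ t, Nbr (v t) (v' t)) (hd : Disjoint D1 D2) (h1 : D1 ⊆ D) (h2 : D2 ⊆ D) :
    ∑' t : ℤ, xc * (Z D1 a (v t) * Z D2 (v' t) b) ≤ Z D a b := by
  unfold Z
  have key : ∀ t, ∀ l ∈ Traj D1 a (v t), ∀ l' ∈ Traj D2 (v' t) b, l ++ l' ∈ Traj D a b := by
    rintro t l ⟨a1, a2, a3, a4, a5⟩ l' ⟨b1, b2, b3, b4, b5⟩
    have hl : l ≠ [] := by rintro rfl; simp at a1
    have hl' : l' ≠ [] := by rintro rfl; simp at b1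
    refine ⟨?_, ?_, ?_, ?_, ?_⟩
    · rw [List.head?_append_of_ne_nil _ hl, a1]
    · rw [List.getLast?_append_of_ne_nil _ hl', b2]
    · rw [List.nodup_append]
      refine ⟨a3, b3, ?_⟩
      intro p hp q hq e
      rw [e] at hp
      exact Set.disjoint_left.1 hd (a5 _ hp) (b5 _ hq)
    · rw [List.isChain_append]
      refine ⟨a4, b4, ?_⟩
      intro x hx y hy
      rw [a2, Option.mem_def, Option.some.injEq] at hx
      rw [b1, Option.mem_def, Option.some.injEq] at hy
      rw [← hx, ← hy]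
      exact hn t
    · intro p hp
      rw [List.mem_append] at hp
      rcases hp with hp | hp
      · exact h1 (a5 p hp)
      · exact h2 (b5 p hp)
  have hinj : Function.Injective (fun x : Σ t : ℤ, (Traj D1 a (v t) × Traj D2 (v' t) b) =>
      (⟨x.2.1.1 ++ x.2.2.1, key x.1 _ x.2.1.2 _ x.2.2.2⟩ : Traj D a b)) := by
    rintro ⟨t, ⟨l, hl⟩, ⟨m, hm⟩⟩ ⟨t', ⟨l', hl'⟩, ⟨m', hm'⟩⟩ e
    have e' : l ++ m = l' ++ m' := congrArg Subtype.val e
    have e2 : l = l' ∧ m = m' := by
      rw [List.append_eq_append_iff] at e'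
      rcases e' with ⟨c, e1, e2⟩ | ⟨c, e1, e2⟩
      · match c with
        | [] =>
          simp only [List.append_nil, List.nil_append] at e1 e2
          exact ⟨e1.symm, e2⟩
        | p :: c =>
          exfalso
          refine Set.disjoint_left.1 hd (hl'.2.2.2.2 p ?_) (hm.2.2.2.2 p ?_)
          · rw [e1]; simp
          · rw [e2]; simp
      · match c with
        | [] =>
          simp only [List.append_nil, List.nil_append] at e1 e2
          exact ⟨e1, e2.symm⟩
        | p :: c =>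
          exfalso
          refine Set.disjoint_left.1 hd (hl.2.2.2.2 p ?_) (hm'.2.2.2.2 p ?_)
          · rw [e1]; simp
          · rw [e2]; simp
    obtain ⟨rfl, rfl⟩ := e2
    have e3 : t = t' := by
      apply hv
      have := hl.2.1.symm.trans hl'.2.1
      simpa using this
    subst e3
    rfl
  have e : ∑' t : ℤ, xc * ((∑' l : Traj D1 a (v t), xc ^ (l.1.length - 1)) *
      (∑' l : Traj D2 (v' t) b, xc ^ (l.1.length - 1))) =
      ∑' x : Σ t : ℤ, (Traj D1 a (v t) × Traj D2 (v' t) b),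
        xc ^ ((x.2.1.1 ++ x.2.2.1).length - 1) := by
    rw [ENNReal.tsum_sigma']
    refine tsum_congr fun t => ?_
    rw [ENNReal.tsum_prod', ← ENNReal.tsum_mul_right, ← ENNReal.tsum_mul_left]
    refine tsum_congr fun l => ?_
    rw [← ENNReal.tsum_mul_left, ← ENNReal.tsum_mul_left]
    refine tsum_congr fun m => ?_
    have hl : 1 ≤ l.1.length := by
      have := l.2.1
      match l.1, this with
      | x :: s, _ => simp
    have hm : 1 ≤ m.1.length := by
      have := m.2.1
      match m.1, this with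
      | x :: s, _ => simp
    rw [← pow_add, ← pow_succ', List.length_append]
    congr 1
    simp only
    omega
  rw [e]
  exact ENNReal.tsum_comp_le_tsum_of_injective hinj
    (fun l : Traj D a b => xc ^ (l.1.length - 1))

/-- the reflection in the side of the triangle -/
def rf (n : ℕ) (p : V) : V := (p.1, -(2 * (n : ℤ)) - 1 - p.2)

theorem rf_rf (n : ℕ) (p : V) : rf n (rf n p) = p := by
  unfold rf
  apply Prod.ext
  · rfl
  · simp only; ring

theorem rf_inj (n : ℕ) (p q : V) (h : rf n p = rf n q) : p = q := by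
  rw [← rf_rf n p, h, rf_rf]

theorem rf_nbr (n : ℕ) (p q : V) (h : Nbr p q) : Nbr (rf n p) (rf n q) := by
  rw [nbr_iff, adj_iff] at *
  unfold rf
  simp only
  omega

/-- reversal -/
theorem Z_rev_le (D : Set V) (a b : V) : Z D a b ≤ Z D b a := by
  apply Z_le_of List.reverse
  · intro l _ l' _ e
    exact List.reverse_injective e
  · rintro l ⟨h1, h2, h3, h4, h5⟩
    refine ⟨?_, ?_, List.nodup_reverse.2 h3, ?_, ?_⟩
    · rw [List.head?_reverse, h2]
    · rw [List.getLast?_reverse, h1]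
    · rw [List.isChain_reverse]
      refine h4.imp fun {p q} h => ?_
      rw [nbr_iff, adj_iff] at *
      omega
    · intro p hp
      rw [List.mem_reverse] at hp
      exact h5 p hp
  · intro l _
    simp

theorem Z_rev (D : Set V) (a b : V) : Z D a b = Z D b a :=
  le_antisymm (Z_rev_le D a b) (Z_rev_le D b a)

/-- the two triangles -/
def Kt (n : ℕ) : Set V := Tri n ∪ {p | rf n p ∈ Tri n}

/-- Cauchy-Schwarz -/
theorem cs_sum (F : Finset ℤ) (f : ℤ → ℝ≥0∞) :
    (∑ t ∈ F, f t) ^ 2 ≤ F.card * ∑ t ∈ F, f t ^ 2 := by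
  by_cases h : ∃ t ∈ F, f t = ⊤
  · obtain ⟨t, ht, e⟩ := h
    have h1 : ∑ t ∈ F, f t ^ 2 = ⊤ := by
      rw [ENNReal.sum_eq_top]
      exact ⟨t, ht, by rw [e]; simp⟩
    rw [h1, ENNReal.mul_top]
    · exact le_top
    · have : F.card ≠ 0 := by
        rw [Finset.card_ne_zero]
        exact ⟨t, ht⟩
      exact_mod_cast this
  · push Not at h
    have h2 : ∀ t ∈ F, f t = ENNReal.ofReal (f t).toReal := fun t ht =>
      (ENNReal.ofReal_toReal (h t ht)).symm
    have e1 : ∑ t ∈ F, f t = ENNReal.ofReal (∑ t ∈ F, (f t).toReal) := by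
      rw [ENNReal.ofReal_sum_of_nonneg (fun _ _ => ENNReal.toReal_nonneg)]
      exact Finset.sum_congr rfl h2
    have e2 : ∑ t ∈ F, f t ^ 2 = ENNReal.ofReal (∑ t ∈ F, (f t).toReal ^ 2) := by
      rw [ENNReal.ofReal_sum_of_nonneg (fun _ _ => by positivity)]
      refine Finset.sum_congr rfl fun t ht => ?_
      rw [ENNReal.ofReal_pow ENNReal.toReal_nonneg, ← h2 t ht]
    rw [e1, e2, ← ENNReal.ofReal_pow (Finset.sum_nonneg fun _ _ => ENNReal.toReal_nonneg),
      ← ENNReal.ofReal_natCast, ← ENNReal.ofReal_mul (Nat.cast_nonneg _)]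
    apply ENNReal.ofReal_le_ofReal
    exact sq_sum_le_card_mul_sum_sq

theorem tri_out {n : ℕ} {t : ℤ} (h : t ∉ Finset.Icc (-(n : ℤ)) n) :
    Z (Tri n) (1, 0) (vx n t) = 0 := by
  unfold Z
  have : IsEmpty (Traj (Tri n) (1, 0) (vx n t)) := by
    constructor
    rintro ⟨l, hl⟩
    have h1 := hl.2.2.2.2 _ (mem_of_ends hl).2
    unfold vx Tri at h1
    simp only [Set.mem_ofPred_eq] at h1
    rw [Finset.mem_Icc] at h
    omega
  exact tsum_empty

/-- **two triangles** -/
theorem kite (n : ℕ) : ENNReal.ofReal (1 / (512 * ((n : ℝ) + 1) ^ 3)) ≤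
    Z (Kt n) (1, 0) (1, -(2 * (n : ℤ)) - 1) := by
  have h1 := tri_sum n
  have h2 : ∑' t : ℤ, Z (Tri n) (1, 0) (vx n t) =
      ∑ t ∈ Finset.Icc (-(n : ℤ)) n, Z (Tri n) (1, 0) (vx n t) :=
    tsum_eq_sum fun t ht => tri_out ht
  rw [h2] at h1
  set F := Finset.Icc (-(n : ℤ)) n with hF
  set S := ∑ t ∈ F, Z (Tri n) (1, 0) (vx n t) with hS
  have hcard : (F.card : ℝ) = 2 * n + 1 := by
    rw [hF, Int.card_Icc]
    have : ((n : ℤ) + 1 - -(n : ℤ)).toNat = 2 * n + 1 := by omega
    rw [this]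
    push_cast
    ring
  have h3 := cs_sum F (fun t => Z (Tri n) (1, 0) (vx n t))
  have h4 : ∑' t : ℤ, xc * (Z (Tri n) (1, 0) (vx n t) *
      Z {p | rf n p ∈ Tri n} (rf n (vx n t)) (rf n (1, 0))) ≤ Z (Kt n) (1, 0) (rf n (1, 0)) := by
    apply Z_concat_sum (fun t => vx n t) (fun t => rf n (vx n t))
    · intro s t e
      unfold vx at e
      simp only [Prod.mk.injEq] at e
      omega
    · intro t
      rw [nbr_iff, adj_iff]
      unfold rf vx
      simp only
      omega
    · rw [Set.disjoint_left]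
      intro p hp hq
      unfold Tri rf at *
      simp only [Set.mem_ofPred_eq] at *
      omega
    · exact Set.subset_union_left
    · exact Set.subset_union_right
  have h5 : ∀ t, Z (Tri n) (1, 0) (vx n t) ≤
      Z {p | rf n p ∈ Tri n} (rf n (vx n t)) (rf n (1, 0)) := by
    intro t
    rw [Z_rev]
    exact Z_map (g := rf n) (rf_inj n) (rf_nbr n) (fun p hp => by
      change rf n (rf n p) ∈ Tri n
      rw [rf_rf]
      exact hp) rfl rfl
  have h6 : ∑ t ∈ F, xc * Z (Tri n) (1, 0) (vx n t) ^ 2 ≤ Z (Kt n) (1, 0) (rf n (1, 0)) := by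
    refine le_trans ?_ h4
    refine le_trans (Finset.sum_le_sum fun t _ => ?_) (ENNReal.sum_le_tsum F)
    rw [sq]
    exact mul_le_mul_right (mul_le_mul_right (h5 t) _) _
  rw [← Finset.mul_sum] at h6
  have e0 : rf n (1, 0) = (1, -(2 * (n : ℤ)) - 1) := by
    unfold rf
    apply Prod.ext
    · rfl
    · simp only; ring
  rw [e0] at h6
  refine le_trans ?_ h6
  -- compare
  have hn : (0 : ℝ) ≤ n := Nat.cast_nonneg n
  have hcpos : (0 : ℝ) < 2 * n + 1 := by positivity
  have hc0 : (F.card : ℝ≥0∞) = ENNReal.ofReal (2 * n + 1) := by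
    rw [← ENNReal.ofReal_natCast, hcard]
  have h7 : ENNReal.ofReal (1 / (16 * ((n : ℝ) + 1))) ^ 2 ≤ S ^ 2 * xc := by
    calc ENNReal.ofReal (1 / (16 * ((n : ℝ) + 1))) ^ 2 ≤ (xc * S) ^ 2 := pow_le_pow_left' h1 2
      _ = S ^ 2 * xc * xc := by ring
      _ ≤ S ^ 2 * xc := mul_le_of_le_one_right zero_le xc_le_one
  have h8 : ENNReal.ofReal ((1 / (16 * ((n : ℝ) + 1))) ^ 2) ≤
      ENNReal.ofReal (2 * n + 1) * (xc * ∑ t ∈ F, Z (Tri n) (1, 0) (vx n t) ^ 2) := by
    rw [ENNReal.ofReal_pow (by positivity)]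
    refine h7.trans ?_
    rw [hc0] at h3
    calc S ^ 2 * xc ≤ ENNReal.ofReal (2 * n + 1) *
          (∑ t ∈ F, Z (Tri n) (1, 0) (vx n t) ^ 2) * xc := mul_le_mul_left h3 _
      _ = _ := by ring
  have h9 : ENNReal.ofReal (2 * n + 1) * ENNReal.ofReal (1 / (512 * ((n : ℝ) + 1) ^ 3)) ≤
      ENNReal.ofReal (2 * n + 1) * (xc * ∑ t ∈ F, Z (Tri n) (1, 0) (vx n t) ^ 2) := by
    refine le_trans ?_ h8
    rw [← ENNReal.ofReal_mul hcpos.le]
    apply ENNReal.ofReal_le_ofReal
    rw [mul_one_div, div_pow, one_pow, div_le_div_iff₀ (by positivity) (by positivity)]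
    have : (1 : ℝ) * (512 * ((n : ℝ) + 1) ^ 3) = 512 * (n + 1) * (n + 1) ^ 2 := by ring
    rw [this, mul_pow]
    have h10 : (0 : ℝ) < ((n : ℝ) + 1) ^ 2 := by positivity
    nlinarith
  rwa [ENNReal.mul_le_mul_iff_right (by
    simp only [ne_eq, ENNReal.ofReal_eq_zero, not_le]
    exact hcpos) ENNReal.ofReal_ne_top] at h9

end Pool.Agent.W832.HR
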