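import Pool.Agent.W832.HR.Tri

set_option autoImplicit false

/-! Polynomial lower bounds for rectangles at all scales. -/

namespace Pool.Agent.W832.HR

open H978R2.Hex Pool.Agent.W818.TD
open scoped ENNReal

/-- the half turn which exchanges the ends of the edge `(1, -2 n - 1), (0, -2 n - 1)` -/
def ht (n : ℕ) (p : V) : V := (1 - p.1, -(4 * (n : ℤ)) - 2 - p.2)

theorem ht_ht (n : ℕ) (p : V) : ht n (ht n p) = p := by
  unfold ht
  apply Prod.ext
  · simp only; ring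
  · simp only; ring

theorem ht_inj (n : ℕ) (p q : V) (h : ht n p = ht n q) : p = q := by
  rw [← ht_ht n p, h, ht_ht]

theorem ht_nbr (n : ℕ) (p q : V) (h : Nbr p q) : Nbr (ht n p) (ht n q) := by
  rw [nbr_iff, adj_iff] at *
  unfold ht
  simp only
  omega

/-- four triangles -/
def Ft (n : ℕ) : Set V := Kt n ∪ {p | ht n p ∈ Kt n}

/-- **half a block**: four triangles -/
theorem four (n : ℕ) : ENNReal.ofReal ((1 / 2) * (1 / (512 * ((n : ℝ) + 1) ^ 3)) ^ 2) ≤
    Z (Ft n) (1, 0) (0, -(4 * (n : ℤ)) - 2) := by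
  have h1 := kite n
  have h2 : xc * (Z (Kt n) (1, 0) (1, -(2 * (n : ℤ)) - 1) *
      Z {p | ht n p ∈ Kt n} (0, -(2 * (n : ℤ)) - 1) (0, -(4 * (n : ℤ)) - 2)) ≤
      Z (Ft n) (1, 0) (0, -(4 * (n : ℤ)) - 2) := by
    apply Z_concat
    · rw [nbr_iff, adj_iff]
      simp only
      omega
    · rw [Set.disjoint_left]
      intro p hp hq
      unfold Kt Tri rf ht at *
      simp only [Set.mem_union, Set.mem_ofPred_eq] at *
      omega
    · exact Set.subset_union_left
    · exact Set.subset_union_right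
  have h3 : Z (Kt n) (1, 0) (1, -(2 * (n : ℤ)) - 1) ≤
      Z {p | ht n p ∈ Kt n} (0, -(2 * (n : ℤ)) - 1) (0, -(4 * (n : ℤ)) - 2) := by
    rw [Z_rev]
    refine Z_map (g := ht n) (ht_inj n) (ht_nbr n) (fun p hp => by
      change ht n (ht n p) ∈ Kt n
      rw [ht_ht]
      exact hp) ?_ ?_
    · unfold ht
      apply Prod.ext
      · simp only; ring
      · simp only; ring
    · unfold ht
      apply Prod.ext
      · simp only; ring
      · simp only; ring
  refine le_trans ?_ h2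
  have hx : ENNReal.ofReal (1 / 2) ≤ xc := by
    rw [xc_eq]
    exact ENNReal.ofReal_le_ofReal xc_half
  rw [ENNReal.ofReal_mul (by norm_num), sq, ENNReal.ofReal_mul (by positivity)]
  exact mul_le_mul' hx (mul_le_mul' h1 (h1.trans h3))

theorem Ft_lev {n : ℕ} {p : V} (h : p ∈ Ft n) : (1 ≤ p.1 - p.2 ∧ p.1 - p.2 ≤ 4 * (n : ℤ) + 2) ∧
    |p.1 + 3 * p.2| ≤ 16 * (n : ℤ) + 6 := by
  rw [abs_le]
  unfold Ft Kt Tri rf ht at h
  simp only [Set.mem_union, Set.mem_ofPred_eq] at h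
  omega

/-- the second half of the block -/
theorem four' (n : ℕ) : Z (Ft n) (1, 0) (0, -(4 * (n : ℤ)) - 2) ≤
    Z {p | sg (p.1, p.2 + 4 * n + 2) ∈ Ft n} (1, -(4 * (n : ℤ)) - 2)
      (6 * n + 3, -(2 * (n : ℤ)) - 1) := by
  refine Z_map (g := fun p => ((sg p).1, (sg p).2 - 4 * n - 2)) ?_ ?_ ?_ ?_ ?_
  · intro p q e
    apply sg_inj
    simp only [Prod.mk.injEq] at e
    apply Prod.ext
    · exact e.1
    · omega
  · intro p q h
    have h1 := nbr_sg h
    rw [nbr_iff, adj_iff] at *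
    simp only
    omega
  · intro p hp
    change sg ((sg p).1, (sg p).2 - 4 * n - 2 + 4 * n + 2) ∈ Ft n
    have : ((sg p).1, (sg p).2 - 4 * n - 2 + 4 * n + 2) = sg p := by
      apply Prod.ext
      · rfl
      · simp only; ring
    rw [this, sg_sg]
    exact hp
  · rw [sg_base]
    simp only
    apply Prod.ext
    · rfl
    · simp only; ring
  · unfold sg
    apply Prod.ext
    · simp only; omega
    · simp only; omega

/-- **one block**, odd size -/
theorem block_odd (n : ℕ) : ENNReal.ofReal ((1 / 2) * ((1 / 2) *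
    (1 / (512 * ((n : ℝ) + 1) ^ 3)) ^ 2) ^ 2) ≤ G (2 * n + 1) (28 * n + 14) := by
  have h1 := four n
  have h2 := four' n
  have h3 : xc * (Z (Ft n) (1, 0) (0, -(4 * (n : ℤ)) - 2) *
      Z {p | sg (p.1, p.2 + 4 * n + 2) ∈ Ft n} (1, -(4 * (n : ℤ)) - 2)
      (6 * n + 3, -(2 * (n : ℤ)) - 1)) ≤ G (2 * n + 1) (28 * n + 14) := by
    have e : G (2 * n + 1) (28 * n + 14) = Z (SW (2 * (2 * n + 1)) (28 * n + 14)) (1, 0)
        (6 * n + 3, -(2 * (n : ℤ)) - 1) := by
      unfold G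
      congr 1
      apply Prod.ext
      · simp only; push_cast; ring
      · simp only; push_cast; ring
    rw [e]
    apply Z_concat
    · rw [nbr_iff, adj_iff]
      simp only
      omega
    · rw [Set.disjoint_left]
      intro p hp hq
      have a1 := (Ft_lev hp).1.2
      have a2 := (Ft_lev hq).1.1
      have a3 := sg_lev (p.1, p.2 + 4 * n + 2)
      simp only at a3
      omega
    · intro p hp
      obtain ⟨⟨a1, a2⟩, a3⟩ := Ft_lev hp
      refine ⟨⟨a1, ?_⟩, ?_⟩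
      · push_cast
        omega
      · have a4 : ((|p.1 + 3 * p.2| : ℤ) : ℝ) ≤ 28 * n + 14 := by
          have : |p.1 + 3 * p.2| ≤ 28 * (n : ℤ) + 14 := by omega
          exact_mod_cast this
        rwa [Int.cast_abs] at a4
    · intro p hp
      obtain ⟨⟨a1, a2⟩, a3⟩ := Ft_lev hp
      have a5 := sg_lev (p.1, p.2 + 4 * n + 2)
      simp only at a5
      refine ⟨⟨by omega, ?_⟩, ?_⟩
      · push_cast
        omega
      · have a4 : ((|p.1 + 3 * p.2| : ℤ) : ℝ) ≤ 28 * n + 14 := by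
          have : |p.1 + 3 * p.2| ≤ 28 * (n : ℤ) + 14 := by
            rw [abs_le] at a3 ⊢
            unfold sg at a3
            simp only at a3
            omega
          exact_mod_cast this
        rwa [Int.cast_abs] at a4
  refine le_trans ?_ h3
  have hx : ENNReal.ofReal (1 / 2) ≤ xc := by
    rw [xc_eq]
    exact ENNReal.ofReal_le_ofReal xc_half
  rw [ENNReal.ofReal_mul (by norm_num), sq (1 / 2 * (1 / (512 * ((n : ℝ) + 1) ^ 3)) ^ 2),
    ENNReal.ofReal_mul (by positivity)]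
  exact mul_le_mul' hx (mul_le_mul' h1 (h1.trans h2))

/-- **one block**, all sizes -/
theorem block_all {q : ℕ} (hq : 1 ≤ q) : ENNReal.ofReal ((1 / 2) ^ 44 * (1 / (q : ℝ) ^ 12)) ≤
    gn q (14 * q + 3) := by
  have hx : ENNReal.ofReal (1 / 2) ≤ xc := by
    rw [xc_eq]
    exact ENNReal.ofReal_le_ofReal xc_half
  have key : ∀ n : ℕ, ENNReal.ofReal ((1 / 2) ^ 40 * (1 / ((n : ℝ) + 1) ^ 12)) ≤
      gn (2 * n + 1) (28 * n + 14) := by
    intro n
    have h1 := block_odd n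
    unfold gn
    refine le_trans (le_of_eq ?_) (mul_le_mul' hx h1)
    rw [← ENNReal.ofReal_mul (by norm_num)]
    congr 1
    have e : (512 : ℝ) = 2 ^ 9 := by norm_num
    rw [e]
    field_simp
  obtain ⟨n, hn⟩ : ∃ n, n = (q - 1) / 2 := ⟨_, rfl⟩
  rcases Nat.even_or_odd' q with ⟨k, hk | hk⟩
  · have hq2 : q = 2 * n + 1 + 1 := by omega
    have hqr : (q : ℝ) = 2 * n + 2 := by
      rw [hq2]
      push_cast
      ring
    have h1 := key n
    have hn0 : (0 : ℝ) ≤ n := Nat.cast_nonneg n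
    have h2 : gn (2 * n + 1) (28 * n + 14) ≤ gn (2 * n + 1) (14 * q + 3) := by
      apply gn_mono
      rw [hqr]
      linarith
    have h3 : ENNReal.ofReal (1 / 16) ≤ gn 1 (14 * q + 3) := by
      apply gn_one
      rw [hqr]
      linarith
    have h4 := gn_add (2 * n + 1) 1 (14 * q + 3)
    rw [← hq2] at h4
    refine le_trans ?_ ((mul_le_mul' (h1.trans h2) h3).trans h4)
    rw [← ENNReal.ofReal_mul (by positivity)]
    apply ENNReal.ofReal_le_ofReal
    have h5 : 1 / (q : ℝ) ^ 12 ≤ 1 / ((n : ℝ) + 1) ^ 12 := by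
      apply one_div_le_one_div_of_le (by positivity)
      apply pow_le_pow_left₀ (by positivity)
      rw [hqr]
      linarith
    have e : ((1 : ℝ) / 2) ^ 44 = (1 / 2) ^ 40 * (1 / 16) := by norm_num
    rw [e]
    have h6 : (0 : ℝ) < (1 / 2) ^ 40 * (1 / 16) := by positivity
    calc (1 / 2 : ℝ) ^ 40 * (1 / 16) * (1 / (q : ℝ) ^ 12) ≤
          (1 / 2) ^ 40 * (1 / 16) * (1 / ((n : ℝ) + 1) ^ 12) :=
          mul_le_mul_of_nonneg_left h5 h6.le
      _ = _ := by ring
  · have hq2 : q = 2 * n + 1 := by omega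
    have hqr : (q : ℝ) = 2 * n + 1 := by
      rw [hq2]
      push_cast
      ring
    have h1 := key n
    rw [← hq2] at h1
    have hn0 : (0 : ℝ) ≤ n := Nat.cast_nonneg n
    have h2 : gn q (28 * n + 14) ≤ gn q (14 * q + 3) := by
      apply gn_mono
      rw [hqr]
      linarith
    refine le_trans (ENNReal.ofReal_le_ofReal ?_) (h1.trans h2)
    have h5 : 1 / (q : ℝ) ^ 12 ≤ 1 / ((n : ℝ) + 1) ^ 12 := by
      apply one_div_le_one_div_of_le (by positivity)
      apply pow_le_pow_left₀ (by positivity)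
      rw [hqr]
      linarith
    apply mul_le_mul _ h5 (by positivity) (by positivity)
    norm_num

/-- lower bound for the rectangle, all scales -/
theorem gn_poly {ρ : ℝ} (hρ : 0 < ρ) {L : ℕ} (hL : 2 ≤ L) {W : ℝ} (hW : ρ * L + 3 ≤ W) :
    ENNReal.ofReal ((1 / (L : ℝ) ^ 60) ^ ⌈7 / ρ⌉₊) ≤ gn (L / 2) W := by
  have hLr : (2 : ℝ) ≤ L := by exact_mod_cast hL
  have hW3 : 3 ≤ W := by
    have : 0 ≤ ρ * L := by positivity
    linarith
  set m : ℕ := ⌈7 / ρ⌉₊ with hm
  have hm0 : 7 / ρ ≤ m := Nat.le_ceil _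
  have hmpos : 1 ≤ m := by
    have : 0 < (m : ℝ) := lt_of_lt_of_le (by positivity) hm0
    exact_mod_cast this
  have h2L : (1 : ℝ) / L ≤ 1 / 2 := one_div_le_one_div_of_le (by norm_num) hLr
  obtain ⟨T, hT⟩ : ∃ T, T = (L / 2) / m := ⟨_, rfl⟩
  rcases Nat.eq_zero_or_pos T with hT0 | hT1
  · have hn1 : 1 ≤ L / 2 := by omega
    refine le_trans (ENNReal.ofReal_le_ofReal ?_) (gn_straight hW3 hn1)
    have h1 : L / 2 ≤ m := by
      have := Nat.lt_mul_div_succ (L / 2) (by omega : 0 < m)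
      rw [← hT, hT0] at this
      omega
    have h2 : ((1 : ℝ) / 16) ^ m ≤ (1 / 16) ^ (L / 2) :=
      pow_le_pow_of_le_one (by norm_num) (by norm_num) h1
    refine le_trans ?_ h2
    apply pow_le_pow_left₀ (by positivity)
    calc 1 / (L : ℝ) ^ 60 = (1 / (L : ℝ)) ^ 60 := by rw [div_pow, one_pow]
      _ ≤ (1 / 2) ^ 60 := pow_le_pow_left₀ (by positivity) h2L 60
      _ ≤ 1 / 16 := by norm_num
  · have hTL : T * (2 * m) ≤ L := by
      have h1 : T * m ≤ L / 2 := by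
        rw [hT]
        exact Nat.div_mul_le_self _ _
      have h2 : T * (2 * m) = 2 * (T * m) := by ring
      omega
    have hTLr : (T : ℝ) * (2 * m) ≤ L := by exact_mod_cast hTL
    have hTr : (1 : ℝ) ≤ T := by exact_mod_cast hT1
    have hmr : (1 : ℝ) ≤ m := by exact_mod_cast hmpos
    have hTL1 : (T : ℝ) ≤ L := by nlinarith
    have hblk : 14 * (T : ℝ) + 3 ≤ W := by
      have h1 : 7 ≤ ρ * m := by
        rw [div_le_iff₀ hρ] at hm0
        linarith
      have h3 : 14 * (T : ℝ) ≤ ρ * (T * (2 * m)) := by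
        have h4 : 7 * (2 * (T : ℝ)) ≤ ρ * m * (2 * T) :=
          mul_le_mul_of_nonneg_right h1 (by positivity)
        calc 14 * (T : ℝ) = 7 * (2 * (T : ℝ)) := by ring
          _ ≤ _ := h4
          _ = _ := by ring
      have h5 : ρ * (T * (2 * m)) ≤ ρ * L := mul_le_mul_of_nonneg_left hTLr hρ.le
      linarith
    have h1 : ENNReal.ofReal ((1 / 2) ^ 44 * (1 / (T : ℝ) ^ 12)) ≤ gn T W :=
      (block_all hT1).trans (gn_mono hblk)
    have h2 := chain hW3 hmpos hT.symm (by positivity) h1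
    refine le_trans (ENNReal.ofReal_le_ofReal ?_) h2
    rw [← mul_pow]
    apply pow_le_pow_left₀ (by positivity)
    have h48 : 1 / (L : ℝ) ^ 48 ≤ (1 / 2) ^ 44 * (1 / 16) := by
      calc 1 / (L : ℝ) ^ 48 = (1 / (L : ℝ)) ^ 48 := by rw [div_pow, one_pow]
        _ ≤ (1 / 2) ^ 48 := pow_le_pow_left₀ (by positivity) h2L 48
        _ = (1 / 2) ^ 44 * (1 / 16) := by norm_num
    have h12 : 1 / (L : ℝ) ^ 12 ≤ 1 / (T : ℝ) ^ 12 := by
      apply one_div_le_one_div_of_le (by positivity)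
      exact pow_le_pow_left₀ (by linarith) hTL1 12
    calc 1 / (L : ℝ) ^ 60 = 1 / (L : ℝ) ^ 48 * (1 / (L : ℝ) ^ 12) := by
          rw [one_div_mul_one_div, ← pow_add]
      _ ≤ ((1 / 2) ^ 44 * (1 / 16)) * (1 / (T : ℝ) ^ 12) :=
          mul_le_mul h48 h12 (by positivity) (by positivity)
      _ = _ := by ring

/-- **Theorem** -/
theorem rect_poly (ρ : ℝ) (hρ : 0 < ρ) : ∃ C : ℕ, 1 ≤ C ∧ ∀ L : ℕ, 2 ≤ L → ∀ D : Set V,
    SW L (ρ * L + 3) ⊆ D → D ⊆ Strip L →
    ENNReal.ofReal (1 / (L : ℝ) ^ C) ≤ Z D (1, 0) (opp L) ∧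
    Z D (1, 0) (opp L) ≤ 2 ∧
    ∀ s : ℕ, 1 ≤ s → ENNReal.ofReal (1 - 1 / (L : ℝ) ^ s) ≤
      PD D (1 / (C * s * Real.log L)) (C * s * Real.log L) L := by
  obtain ⟨C0, hC0⟩ : ∃ C0 : ℕ, C0 = 60 * ⌈7 / ρ⌉₊ + 2 := ⟨_, rfl⟩
  obtain ⟨C, hC⟩ : ∃ C : ℕ, C = 32 * C0 + 256 := ⟨_, rfl⟩
  refine ⟨C, by omega, ?_⟩
  intro L hL D hD1 hD2
  have hlog := log_ge hL
  have hLr : (2 : ℝ) ≤ L := by exact_mod_cast hL
  set lam := Real.log L with hlam
  have g1 := gn_poly hρ hL (W := ρ * L + 3) le_rfl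
  have g2 := Z_ge hL (by
    have : 0 ≤ ρ * L := by positivity
    linarith) hD1 g1 (by positivity)
  have g3 : 1 / (L : ℝ) ^ C0 ≤ (1 / (L : ℝ) ^ 60) ^ ⌈7 / ρ⌉₊ / 4 := by
    have e1 : (1 / (L : ℝ) ^ 2) ≤ 1 / 4 := by
      apply one_div_le_one_div_of_le (by norm_num)
      nlinarith
    rw [div_eq_mul_one_div ((1 / (L : ℝ) ^ 60) ^ ⌈7 / ρ⌉₊) 4]
    calc 1 / (L : ℝ) ^ C0 = (1 / (L : ℝ) ^ 60) ^ ⌈7 / ρ⌉₊ * (1 / (L : ℝ) ^ 2) := by
          rw [hC0, pow_add, pow_mul, div_pow, one_pow, one_div_mul_one_div]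
      _ ≤ _ := mul_le_mul_of_nonneg_left e1 (by positivity)
  have g4 : ENNReal.ofReal (1 / (L : ℝ) ^ C0) ≤ xc * Z D (1, 0) (opp L) :=
    (ENNReal.ofReal_le_ofReal g3).trans g2
  refine ⟨?_, ?_, ?_⟩
  · have g5 : xc * Z D (1, 0) (opp L) ≤ Z D (1, 0) (opp L) :=
      mul_le_of_le_one_left zero_le xc_le_one
    refine le_trans (ENNReal.ofReal_le_ofReal ?_) (g4.trans g5)
    apply one_div_le_one_div_of_le (by positivity)
    exact pow_le_pow_right₀ (by linarith) (by omega)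
  · have h4 : xc * Z D (1, 0) (opp L) ≤ xc * B L := by
      apply mul_le_mul_right
      refine (Z_mono hD2 _ _).trans ?_
      unfold B
      exact ENNReal.le_tsum (f := fun x : ℤ => Z (Strip L) (1, 0) (2 * (L : ℤ) + x, x))
        (-((L / 2 : ℕ) : ℤ))
    rw [← B_eq (by omega)] at h4
    have h5 : xc * Z D (1, 0) (opp L) ≤ 1 := by
      refine h4.trans ?_
      rw [ENNReal.ofReal_le_one]
      exact Br_le_one (by omega)
    have hx : ENNReal.ofReal (1 / 2) ≤ xc := by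
      rw [xc_eq]
      exact ENNReal.ofReal_le_ofReal xc_half
    have h6 : ENNReal.ofReal (1 / 2) * Z D (1, 0) (opp L) ≤ 1 :=
      (mul_le_mul_left hx _).trans h5
    have h7 : ENNReal.ofReal (1 / 2) = 2⁻¹ := by
      rw [one_div, ENNReal.ofReal_inv_of_pos (by norm_num), ENNReal.ofReal_ofNat]
    rw [h7] at h6
    calc Z D (1, 0) (opp L) = 2 * (2⁻¹ * Z D (1, 0) (opp L)) := by
          rw [← mul_assoc, ENNReal.mul_inv_cancel (by norm_num) (by norm_num), one_mul]
      _ ≤ 2 * 1 := mul_le_mul_right h6 _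
      _ = 2 := mul_one _
  · intro s hs
    have hs' : (1 : ℝ) ≤ s := by exact_mod_cast hs
    apply PD_ge (by omega) hD2 (by positivity : 0 < 1 / (L : ℝ) ^ C0) g4
    have hAp : 0 < ((s + C0 : ℕ) : ℝ) * lam := by
      have : 0 < s + C0 := by omega
      have : (0 : ℝ) < ((s + C0 : ℕ) : ℝ) := by exact_mod_cast this
      positivity
    have e1 : 1 / (L : ℝ) ^ s * (1 / (L : ℝ) ^ C0) = Real.exp (-(((s + C0 : ℕ) : ℝ) * lam)) := by
      rw [one_div_mul_one_div, ← pow_add, pow_exp hL]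
    rw [e1]
    refine le_trans ?_ (tail_all hL hAp)
    apply ENNReal.toReal_mono (Cr_ne_top (by omega) _)
    apply ma_mono
    have hsl : lam ≤ s * lam := by nlinarith
    have hsl0 : 0 ≤ s * lam := by linarith
    have hA2 : 32 * (((s + C0 : ℕ) : ℝ) * lam) + 112 ≤ C * s * lam := by
      have h1 : (C0 : ℝ) * lam ≤ C0 * (s * lam) :=
        mul_le_mul_of_nonneg_left hsl (Nat.cast_nonneg _)
      have h2 : (C : ℝ) * s * lam = 32 * (C0 * (s * lam)) + 256 * (s * lam) := by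
        rw [hC]
        push_cast
        ring
      rw [h2]
      push_cast
      linarith
    apply Cr_sub
    · exact one_div_le_one_div_of_le (by positivity) hA2
    · exact hA2

end Pool.Agent.W832.HR
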