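import Pool.Agent.W832.HR.Low
import Pool.Agent.W818.TD.Refl

set_option autoImplicit false

/-! Wide and narrow crossings of a strip. -/

namespace Pool.Agent.W832.HR

open H978R2.Hex Pool.Agent.W818.TD
open scoped ENNReal

/-- the lateral width (in the coordinate `x + 3 y`) is at most `c` -/
def WidL (c : ℝ) (l : List V) : Prop :=
  ∀ v ∈ l, ∀ v' ∈ l, (((v.1 + 3 * v.2) - (v'.1 + 3 * v'.2) : ℤ) : ℝ) ≤ c

/-- crossings of the strip with the property `p` -/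
def Cr (T : ℕ) (p : List V → Prop) : Set (List V) :=
  {w | w ∈ LK (Dm T .no .no) 0 ∧ p (w.tail.dropLast)}

theorem val_shape' {D : V → Prop} {w : List V} (hw : Val D w) {z : V} (hz : w.headD (0, 0) = z)
    (hz1 : z ≠ (1, 0)) : ∃ y t, w = z :: y :: (t ++ [(0, 0)]) ∧ Adj y z ∧ D y ∧
      ∃ M, y :: t = M ++ [(1, 0)] := by
  obtain ⟨i1, i2, i3, M, i4⟩ := Val_chain hw
  match M, i4 with
  | [], i4 =>
    rw [i4] at hz
    simp only [List.nil_append, List.headD_cons] at hz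
    exact absurd hz.symm hz1
  | a :: M', i4 =>
    have ha : a = z := by
      rw [i4] at hz
      simpa using hz
    subst ha
    have e1 : M' ++ [((1, 0) : V), (0, 0)] = (M' ++ [(1, 0)]) ++ [(0, 0)] := by simp
    obtain ⟨y, t, hyt⟩ : ∃ y t, M' ++ [((1, 0) : V)] = y :: t := by
      match M' with
      | [] => exact ⟨_, _, rfl⟩
      | a :: M'' => exact ⟨_, _, rfl⟩
    have hw2 : w = a :: y :: (t ++ [(0, 0)]) := by
      rw [i4, List.cons_append, e1, hyt, List.cons_append]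
    refine ⟨y, t, hw2, ?_, ?_, M', hyt.symm⟩
    · rw [hw2] at i1
      exact (List.isChain_cons_cons.1 i1).1
    · apply i3
      rw [hw2, List.tail_cons]
      have : y :: (t ++ [((0, 0) : V)]) = (y :: t) ++ [(0, 0)] := rfl
      rw [this, List.dropLast_concat]
      exact List.mem_cons_self

theorem LK0_iff {T : ℕ} (hT : 1 ≤ T) {u l : Wall} {w : List V} : w ∈ LK (Dm T u l) 0 ↔
    Val (Dm T u l) w ∧ (w.headD (0, 0)).1 - (w.headD (0, 0)).2 = 2 * (T : ℤ) + 1 := by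
  have hku : ∀ x : Wall, x ≠ .no → ku x = 1 ∨ ku x = 2 := by
    intro x hx
    match x, hx with
    | .I n, _ => left; rfl
    | .O n, _ => right; rfl
  constructor
  · rintro ⟨hw, hk⟩
    refine ⟨hw.1, ?_⟩
    rcases LW_cls hT hw with b | b | b | b | b
    · omega
    · omega
    · exact b.1
    · have := hku u b.2.2.2.1
      omega
    · have := hku l b.2.2.2.1
      omega
  · rintro ⟨h1, h2⟩
    have hLW : w ∈ LW (Dm T u l) := ⟨h1, fun h => by have := h.2.1; omega⟩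
    refine ⟨hLW, ?_⟩
    rcases LW_cls hT hLW with b | b | b | b | b
    · omega
    · omega
    · exact b.2
    · omega
    · omega

theorem LK0_sym {T : ℕ} (hT : 1 ≤ T) (u l : Wall) :
    ma (LK (Dm T u l) 0) = ma (LK (Dm T l u) 0) := by
  have key : ∀ u l, ma (LK (Dm T u l) 0) ≤ ma (LK (Dm T l u) 0) := by
    intro u l
    apply ma_sg_le
    intro w hw
    rw [LK0_iff hT] at hw ⊢
    refine ⟨Val_sg (fun v hv => Dm_sg.1 hv) hw.1, ?_⟩
    rw [head_sg hw.1, sg_lev]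
    exact hw.2
  exact le_antisymm (key u l) (key l u)

theorem th_le {T : ℕ} (hT : 1 ≤ T) (n : ℕ) : th T (.I n) ≤ 2 * rh T (.I n) := by
  have h1 := (id_I hT n).1
  have h2 := al_nonneg hT (.I n)
  have h3 := rh_nonneg hT (.I n)
  have h4 := s8_ge
  have h5 := sqrt2_lt
  have h6 := th_nonneg hT (.I n)
  have h7 : 19 / 50 * th T (.I n) ≤ Real.sin (Real.pi / 8) * th T (.I n) :=
    mul_le_mul_of_nonneg_right h4 h6
  nlinarith

theorem wide_sub {T n : ℕ} : Cr T (fun l => ¬ WidL (8 * n) l) ⊆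
    (LK (Dm T .no .no) 0 \ LK (Dm T (.I n) .no) 0) ∪
      (LK (Dm T .no .no) 0 \ LK (Dm T .no (.I n)) 0) := by
  rintro w ⟨hw, hp⟩
  by_cases h1 : w ∈ LK (Dm T (.I n) .no) 0
  · by_cases h2 : w ∈ LK (Dm T .no (.I n)) 0
    · exfalso
      apply hp
      intro v hv v' hv'
      have a1 := (Val_tail h1.1.1).2 v hv
      have b1 := (Val_tail h2.1.1).2 v' hv'
      have a2 := a1.1
      have a3 := a1.2.2.1
      have b2 := b1.1
      have b3 := b1.2.2.2
      simp only [Up, Lo] at a3 b3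
      have : (v.1 + 3 * v.2) - (v'.1 + 3 * v'.2) ≤ 8 * (n : ℤ) := by omega
      exact_mod_cast this
    · exact Or.inr ⟨hw, h2⟩
  · exact Or.inl ⟨hw, h1⟩

theorem Cr_ne_top {T : ℕ} (hT : 1 ≤ T) (p : List V → Prop) : ma (Cr T p) ≠ ⊤ :=
  (idn hT .no .no).ne_top (fun _ hw => hw.1.1)

/-- **wide crossings** -/
theorem wide_le {T : ℕ} (hT : 1 ≤ T) (m : ℕ) :
    (ma (Cr T (fun l => ¬ WidL (8 * ((m + 1) * T : ℕ)) l))).toReal ≤
      11 * (3 / 5) ^ m * Qr T := by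
  have h1 := (ma_mono (wide_sub (T := T) (n := (m + 1) * T))).trans (ma_union_le _ _)
  have hL : ma (LK (Dm T .no .no) 0) ≠ ⊤ := (idn hT .no .no).ne_top LK_sub
  have f1 : ma (LK (Dm T .no .no) 0 \ LK (Dm T (.I ((m + 1) * T)) .no) 0) ≠ ⊤ :=
    ((ma_mono Set.sdiff_subset).trans_lt (lt_top_iff_ne_top.2 hL)).ne
  have f2 : ma (LK (Dm T .no .no) 0 \ LK (Dm T .no (.I ((m + 1) * T))) 0) ≠ ⊤ :=
    ((ma_mono Set.sdiff_subset).trans_lt (lt_top_iff_ne_top.2 hL)).ne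
  have h2 := ENNReal.toReal_mono (ENNReal.add_ne_top.2 ⟨f1, f2⟩) h1
  rw [ENNReal.toReal_add f1 f2] at h2
  have s1 : LK (Dm T (.I ((m + 1) * T)) .no) 0 ⊆ LK (Dm T .no .no) 0 := by
    intro w hw
    rw [LK0_iff hT] at hw ⊢
    exact ⟨Val_mono (fun v hv => ⟨hv.1, hv.2.1, trivial, trivial⟩) hw.1, hw.2⟩
  have s2 : LK (Dm T .no (.I ((m + 1) * T))) 0 ⊆ LK (Dm T .no .no) 0 := by
    intro w hw
    rw [LK0_iff hT] at hw ⊢
    exact ⟨Val_mono (fun v hv => ⟨hv.1, hv.2.1, trivial, trivial⟩) hw.1, hw.2⟩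
  rw [ma_diff s1 hL, ma_diff s2 hL, LK0_sym hT .no (.I ((m + 1) * T))] at h2
  have e1 : (ma (LK (Dm T .no .no) 0)).toReal = Br T := rfl
  have e2 : (ma (LK (Dm T (.I ((m + 1) * T)) .no) 0)).toReal =
    mq (Dm T (.I ((m + 1) * T)) .no) 0 := rfl
  rw [e1, e2] at h2
  have h3 := th_le hT ((m + 1) * T)
  have h4 := contr_pow hT T m
  have e3 : T + m * T = (m + 1) * T := by ring
  rw [e3] at h4
  have h5 : (ma (Cr T (fun l => ¬ WidL (8 * ((m + 1) * T : ℕ)) l))).toReal ≤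
      4 * ((3 / 5) ^ m * rh T (.I T)) := by
    unfold th at h3
    linarith
  refine h5.trans ?_
  unfold Qr
  have h6 := rh_nonneg hT (.I T)
  have h7 : 38 / 100 ≤ c3 := by
    rw [c3_eq]
    have := s8_ge
    linarith
  have h8 : 0 ≤ (3 / 5 : ℝ) ^ m * rh T (.I T) := by positivity
  have h9 : 11 * (3 / 5) ^ m * (c3 * rh T (.I T)) = 11 * c3 * ((3 / 5) ^ m * rh T (.I T)) := by
    ring
  rw [h9]
  nlinarith

/-! ### narrow crossings -/

theorem Wt_Psi {z w : V} {K : List V} : Wt (Psi (z :: w :: K)) = ENNReal.ofReal (wt (z :: w :: K)) := by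
  unfold Wt wt Psi rf
  simp

theorem Cr_shape {T : ℕ} (hT : 1 ≤ T) {w : List V} (hw : w ∈ LK (Dm T .no .no) 0) :
    ∃ z y K, w = z :: y :: K ∧ Val (fun v => 1 ≤ v.1 - v.2) w ∧ z.1 - z.2 = 2 * (T : ℤ) + 1 ∧
      ∀ v ∈ (y :: K).dropLast, v.1 - v.2 ≤ 2 * (T : ℤ) := by
  rw [LK0_iff hT] at hw
  obtain ⟨h1, h2⟩ := hw
  match w, h1, h2 with
  | z :: y :: K, h1, h2 =>
    refine ⟨z, y, K, rfl, Val_mono (fun v hv => hv.1) h1, h2, ?_⟩
    intro v hv
    exact ((Val_tail h1).2 v hv).2.1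
  | [_], h1, _ => exact h1.elim

theorem M_le_Br {T : ℕ} (hT : 1 ≤ T) :
    M {β | EBr β ∧ hl β = 2 * (T : ℤ)} ≤ ma (LK (Dm T .no .no) 0) := by
  classical
  apply M_le_of
  intro F hF
  rw [sum_Wt F (fun β hβ => (hF β hβ).1), ← ma_finset]
  apply ma_mono
  intro l hl
  rw [Finset.mem_coe, Finset.mem_image] at hl
  obtain ⟨β, hβ, rfl⟩ := hl
  obtain ⟨h1, h2⟩ := hF β hβ
  obtain ⟨w, K, e, hval, hmem⟩ := Phi_spec h1 (by omega)
  have hz : ((Phi β).headD (0, 0)).1 - ((Phi β).headD (0, 0)).2 = 2 * (T : ℤ) + 1 := by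
    rw [e]
    unfold Pool.Agent.W818.TD.hl at h2
    simp only [List.headD_cons, Prod.fst_add, Prod.snd_add]
    omega
  rw [LK0_iff hT]
  refine ⟨Val_dom' hval ?_, hz⟩
  intro v hv
  have h3 := (Val_tail hval).2 v hv
  have h4 := h1.pos _ (hmem v hv)
  unfold Pool.Agent.W818.TD.hl at h2
  simp only [Prod.fst_sub, Prod.snd_sub, Prod.fst_add, Prod.snd_add] at h4
  exact ⟨h3, by omega, trivial, trivial⟩

theorem narrow_le_M {T : ℕ} (hT : 1 ≤ T) {s H : ℤ} :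
    ma (Cr T (fun l => ∀ v ∈ l, ∀ v' ∈ l,
      (v.1 + 3 * v.2) - (v'.1 + 3 * v'.2) ≤ 4 * s - 1)) ≤
      M {β | EBr β ∧ hl β = 2 * (T : ℤ) ∧ Nar s 0 H β} := by
  set E := Cr T (fun l => ∀ v ∈ l, ∀ v' ∈ l,
      (v.1 + 3 * v.2) - (v'.1 + 3 * v'.2) ≤ 4 * s - 1) with hE
  have hspec : ∀ w : E, Psi w.1 ∈ {β | EBr β ∧ hl β = 2 * (T : ℤ) ∧ Nar s 0 H β} := by
    rintro ⟨w, hw, hp⟩
    obtain ⟨z, y, K, rfl, h1, h2, h3⟩ := Cr_shape hT hw
    have hPs := Psi_spec (d := 2 * (T : ℤ)) (by omega) (by omega) h1 h2 h3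
    refine ⟨hPs.1, hPs.2, ?_⟩
    intro v hv v' hv' a1 a2 a3 a4
    have hmem : ∀ v ∈ Psi (z :: y :: K), 0 < v.1 - v.2 → z - v ∈ (y :: K).dropLast := by
      intro v hv h0
      unfold Psi at hv
      simp only [List.headD_cons] at hv
      rw [mem_rf, List.dropLast_cons_of_ne_nil (by simp)] at hv
      rcases List.mem_cons.1 hv with h | h
      · exfalso
        have h4 : v = 0 := by
          have := sub_eq_self.1 h
          exact this
        rw [h4] at h0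
        simp at h0
      · exact h
    have b1 := hmem v hv a1
    have b2 := hmem v' hv' a3
    have b3 := hp _ b2 _ b1
    simp only [Prod.fst_sub, Prod.snd_sub] at b3
    omega
  have hinj : Function.Injective (fun w : E => (⟨Psi w.1, hspec w⟩ :
      {β | EBr β ∧ hl β = 2 * (T : ℤ) ∧ Nar s 0 H β})) := by
    rintro ⟨w, hw, hp⟩ ⟨w', hw', hp'⟩ h
    obtain ⟨z, y, K, rfl, h1, h2, h3⟩ := Cr_shape hT hw
    obtain ⟨z', y', K', rfl, h1', h2', h3'⟩ := Cr_shape hT hw'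
    apply Subtype.ext
    exact Psi_inj h1 h1' (congrArg Subtype.val h)
  unfold ma M
  refine le_trans (le_of_eq ?_) (ENNReal.tsum_comp_le_tsum_of_injective hinj (fun β => Wt β.1))
  refine tsum_congr fun w => ?_
  obtain ⟨z, y, K, e, -, -, -⟩ := Cr_shape hT w.2.1
  change ENNReal.ofReal (wt w.1) = Wt (Psi w.1)
  rw [e, Wt_Psi]

/-- **narrow crossings** -/
theorem narrow_le {T N : ℕ} (hN : 1 ≤ N) (hT : 16 * N ≤ T) :
    (ma (Cr T (WidL ((T : ℝ) / (16 * N))))).toReal ≤ 4 * (1 / 2) ^ N * Br (T / 2) := by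
  have hT1 : 1 ≤ T := by omega
  set s : ℕ := T / (16 * N) with hs
  have hs1 : 1 ≤ s := by
    rw [hs, Nat.one_le_div_iff (by omega)]
    exact hT
  have hsT : s * (16 * N) ≤ T := Nat.div_mul_le_self T (16 * N)
  have hsT2 : T < (s + 1) * (16 * N) := by
    have := Nat.lt_div_mul_add (a := T) (b := 16 * N) (by omega)
    rw [add_mul, one_mul]
    exact this
  set T' : ℕ := T - 8 * (s * N) with hT'
  have h8 : 2 * (8 * (s * N)) ≤ T := by
    calc 2 * (8 * (s * N)) = s * (16 * N) := by ring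
      _ ≤ T := hsT
  have hT'1 : 1 ≤ T' := by omega
  have hT'2 : T / 2 ≤ T' := by omega
  have hsub : Cr T (WidL ((T : ℝ) / (16 * N))) ⊆ Cr T (fun l => ∀ v ∈ l, ∀ v' ∈ l,
      (v.1 + 3 * v.2) - (v'.1 + 3 * v'.2) ≤ 4 * (s : ℤ) - 1) := by
    rintro w ⟨hw, hp⟩
    refine ⟨hw, ?_⟩
    intro v hv v' hv'
    have h1 := hp v hv v' hv'
    have h2 : (T : ℝ) / (16 * N) < (s : ℝ) + 1 := by
      rw [div_lt_iff₀ (by positivity)]
      exact_mod_cast hsT2
    have h3 : (((v.1 + 3 * v.2) - (v'.1 + 3 * v'.2) : ℤ) : ℝ) < ((s + 1 : ℤ) : ℝ) := by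
      push_cast at h1 h2 ⊢
      linarith
    have h4 : (v.1 + 3 * v.2) - (v'.1 + 3 * v'.2) < (s : ℤ) + 1 := by exact_mod_cast h3
    have h5 : (1 : ℤ) ≤ s := by exact_mod_cast hs1
    omega
  have h1 := (ma_mono hsub).trans (narrow_le_M hT1 (s := s) (H := 0 + 16 * (s : ℤ) * N))
  have h2 := M_narrow (s := (s : ℤ)) (by exact_mod_cast hs1) N hN 0 (by norm_num) le_rfl
    (2 * (T' : ℤ)) (by omega) (by omega)
  have e1 : 2 * (T' : ℤ) + 16 * (s : ℤ) * N + 0 = 2 * (T : ℤ) := by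
    have : (T' : ℤ) = (T : ℤ) - 8 * ((s : ℤ) * N) := by
      rw [hT', Nat.cast_sub (by omega)]
      push_cast
      ring
    rw [this]
    ring
  rw [e1] at h2
  have h3 := h1.trans (h2.trans (mul_le_mul_right (M_le_Br hT'1) _))
  have hB : ma (LK (Dm T' .no .no) 0) ≠ ⊤ := (idn hT'1 .no .no).ne_top LK_sub
  have h4 := ENNReal.toReal_mono (ENNReal.mul_ne_top ENNReal.ofReal_ne_top hB) h3
  rw [ENNReal.toReal_mul, ENNReal.toReal_ofReal (by positivity)] at h4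
  have e2 : (ma (LK (Dm T' .no .no) 0)).toReal = Br T' := rfl
  rw [e2] at h4
  refine h4.trans ?_
  have h5 := Br_anti (T := T / 2) (T' := T') (by omega) hT'2
  have h6 : (1 / 2 : ℝ) ^ N * 4 = 4 * (1 / 2) ^ N := by ring
  rw [h6]
  exact mul_le_mul_of_nonneg_left h5 (by positivity)

end Pool.Agent.W832.HR
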